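import Pool.Agent.V11248.Pk.Measure
import Pool.Agent.Helper669.Forcing

/-!
# Points of a measurable cardinal, successors, and lemmas on a normal measure
-/

namespace Pool.Agent.W2helper53.MS

open Cardinal Set Pool.Agent.V11248.Pk

set_option linter.unusedSectionVars false

section

variable {κ : Cardinal.{0}} {K : Type} [LinearOrder K] {U : Ultrafilter K}

/-- the cardinality of the initial segment below `a` -/
def sz (a : K) : Cardinal.{0} := #(Iio a)

theorem sz_mono {a b : K} (h : a ≤ b) : sz a ≤ sz b :=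
  mk_le_mk_of_subset (Iio_subset_Iio h)

theorem lt_of_sz {a b : K} (h : sz a < sz b) : a < b := by
  by_contra hcon
  exact absurd (sz_mono (not_lt.1 hcon)) (not_le.2 h)

/-- `μ` is regular: small subsets of `μ` are bounded in `μ` -/
def Rg (μ : K) : Prop := ∀ A : Set K, (∀ x ∈ A, x < μ) → #A < sz μ → ∃ c < μ, ∀ x ∈ A, x < c

/-! ### Lemmas on the measure -/

theorem ae_all (hN : Normal κ U) {ι : Type} (hι : #ι < κ) {A : ι → Set K} (hA : ∀ i, A i ∈ U) :
    {x | ∀ i, x ∈ A i} ∈ U :=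
  Filter.mem_of_superset (hN.complete ι A hι hA) fun _ hy n => Set.mem_iInter.1 hy n

theorem exU {A : Set K} (hA : A ∈ U) : ∃ x, x ∈ A := Ultrafilter.nonempty_of_mem hA

theorem ae_or (A : Set K) : A ∈ U ∨ Aᶜ ∈ U := Ultrafilter.mem_or_compl_mem U A

theorem ae_const (hN : Normal κ U) {X : Type} {F : K → X} {S : Set X} (hS : #S < κ)
    (h : {x | F x ∈ S} ∈ U) : ∃ v ∈ S, {x | F x = v} ∈ U := by
  by_contra hcon
  push Not at hcon
  have h1 : ∀ v : S, {x | F x ≠ v} ∈ U := by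
    intro v
    rcases ae_or (U := U) {x | F x = v} with h2 | h2
    · exact absurd h2 (hcon v v.2)
    · exact h2
  obtain ⟨x, hx1, hx2⟩ := exU (hN.inter (ae_all hN hS h1) h)
  exact hx1 ⟨F x, hx2⟩ rfl

theorem kcard (hN : Normal κ U) {c : Cardinal.{0}} (hc : c < κ) : Order.succ c < κ := by
  have h := hN.pow (M := c.out) (by rw [mk_out]; exact hc)
  rw [mk_set, mk_out] at h
  exact (Order.succ_le_of_lt (cantor c)).trans_lt h

theorem exists_sz (hN : Normal κ U) {c : Cardinal.{0}} (hc : c < κ) : ∃ b : K, c ≤ sz b := by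
  have h1 : c ≤ #K := by rw [hN.card]; exact hc.le
  obtain ⟨A, hA⟩ := le_mk_iff_exists_set.1 h1
  obtain ⟨b, hb⟩ := hN.bdd A (by rw [hA]; exact hc)
  exact ⟨b, by rw [← hA]; exact mk_le_mk_of_subset hb⟩

theorem mk_sigma_lt (hN : Normal κ U) {ι : Type} (hι : #ι < κ) {S : ι → Type}
    (hS : ∀ i, #(S i) < κ) : #(Σ i, S i) < κ := by
  have h1 : ∀ i, ∃ b : K, #(S i) ≤ sz b := fun i => exists_sz hN (hS i)
  choose b hb using h1
  obtain ⟨c, hc⟩ := hN.bdd (range b) (mk_range_le.trans_lt hι)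
  rw [mk_sigma]
  refine (sum_le_mk_mul_iSup _).trans_lt ?_
  refine (mul_le_mul' le_rfl (ciSup_le' fun i => (hb i).trans
    (sz_mono (hc _ ⟨i, rfl⟩).le))).trans_lt ?_
  exact mul_lt_of_lt hN.unc.le hι (hN.small c)

theorem mk_iUnion_lt (hN : Normal κ U) {ι X : Type} (hι : #ι < κ) {S : ι → Set X}
    (hS : ∀ i, #(S i) < κ) : #(⋃ i, S i) < κ := by
  refine lt_of_le_of_lt ?_ (mk_sigma_lt hN hι (S := fun i => S i) hS)
  exact (mk_iUnion_le_sum_mk (f := S)).trans_eq (mk_sigma _).symm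

theorem diag (hN : Normal κ U) {S : Type} (bd : S → K → Prop) (h : ∀ δ, #{s // bd s δ} < κ)
    (A : S → Set K) (hA : ∀ s, (∃ δ, bd s δ) → A s ∈ U) :
    {y | ∀ δ < y, ∀ s, bd s δ → y ∈ A s} ∈ U := by
  have h1 : ∀ δ : K, {y | ∀ s : {s // bd s δ}, y ∈ A s} ∈ U :=
    fun δ => ae_all hN (h δ) fun s => hA s ⟨δ, s.2⟩
  refine Filter.mem_of_superset (hN.normal _ h1) ?_
  intro y hy δ hδ s hs
  exact hy δ hδ ⟨s, hs⟩

end

section

variable {κ : Cardinal.{0}} {K : Type} [LinearOrder K] [WellFoundedLT K] {U : Ultrafilter K}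

theorem sz_le_of {y : K} {c : Cardinal.{0}} (h : ∀ x < y, sz x < c) : sz y ≤ c := by
  by_contra hcon
  push Not at hcon
  have hc : ∀ y : K, (Ordinal.typein (α := K) (· < ·) y).card = sz y :=
    fun y => Ordinal.card_typein y
  have h1 : c.ord < Ordinal.typein (α := K) (· < ·) y := by
    refine lt_of_le_of_ne (ord_le.2 (by rw [hc]; exact hcon.le)) fun h2 => ?_
    have h3 := congrArg Ordinal.card h2
    rw [hc, card_ord] at h3
    exact absurd h3 hcon.ne
  obtain ⟨x, hx⟩ := Ordinal.typein_surj (α := K) (· < ·) (h1.trans (Ordinal.typein_lt_type _ y))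
  have h2 : x < y := by
    rw [← hx] at h1
    exact (Ordinal.typein_lt_typein (α := K) (· < ·)).1 h1
  have h3 := hc x
  rw [hx, card_ord] at h3
  exact absurd (h x h2) (by rw [← h3]; exact lt_irrefl _)

theorem exists_least {p : K → Prop} (h : ∃ x, p x) : ∃ x, p x ∧ ∀ y < x, ¬ p y := by
  obtain ⟨x, hx, hmin⟩ := (wellFounded_lt (α := K)).has_min {x | p x} h
  exact ⟨x, hx, fun y hy hp => hmin y hp hy⟩

open Classical in
/-- the least point whose initial segment is infinite and of larger cardinality -/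
noncomputable def suc (a : K) : K :=
  if h : ∃ x, (sz a < sz x ∧ ℵ₀ ≤ sz x) ∧ ∀ y < x, ¬ (sz a < sz y ∧ ℵ₀ ≤ sz y) then h.choose else a

theorem suc_spec (hN : Normal κ U) (a : K) :
    (sz a < sz (suc a) ∧ ℵ₀ ≤ sz (suc a)) ∧ ∀ y < suc a, ¬ (sz a < sz y ∧ ℵ₀ ≤ sz y) := by
  have h1 : max ℵ₀ (Order.succ (sz a)) < κ := max_lt hN.unc (kcard hN (hN.small a))
  obtain ⟨b, hb⟩ := exists_sz hN h1
  have h : ∃ x : K, sz a < sz x ∧ ℵ₀ ≤ sz x :=
    ⟨b, (Order.lt_succ _).trans_le ((le_max_right _ _).trans hb), (le_max_left _ _).trans hb⟩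
  have h2 := exists_least h
  unfold suc
  rw [dif_pos h2]
  exact h2.choose_spec

theorem lt_suc (hN : Normal κ U) (a : K) : a < suc a := lt_of_sz (suc_spec hN a).1.1

theorem inf_suc (hN : Normal κ U) (a : K) : ℵ₀ ≤ sz (suc a) := (suc_spec hN a).1.2

theorem sz_lt_suc (hN : Normal κ U) (a : K) : sz a < sz (suc a) := (suc_spec hN a).1.1

theorem sz_lt_of_lt_suc (hN : Normal κ U) {a x : K} (h : x < suc a) :
    sz x < max ℵ₀ (Order.succ (sz a)) := by
  by_contra hcon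
  push Not at hcon
  exact (suc_spec hN a).2 x h ⟨Order.succ_le_iff.1 ((le_max_right _ _).trans hcon),
    (le_max_left _ _).trans hcon⟩

theorem sz_suc (hN : Normal κ U) (a : K) : sz (suc a) = max ℵ₀ (Order.succ (sz a)) := by
  refine le_antisymm (sz_le_of fun x hx => sz_lt_of_lt_suc hN hx) ?_
  exact max_le (inf_suc hN a) (Order.succ_le_of_lt (sz_lt_suc hN a))

theorem sz_suc' (hN : Normal κ U) {a : K} (h : ℵ₀ ≤ sz a) : sz (suc a) = Order.succ (sz a) := by
  rw [sz_suc hN, max_eq_right (h.trans (Order.le_succ _))]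

theorem suc_mono (hN : Normal κ U) {a b : K} (h : a ≤ b) : suc a ≤ suc b := by
  by_contra hcon
  push Not at hcon
  have h1 := sz_lt_of_lt_suc hN hcon
  rw [sz_suc hN] at h1
  exact absurd h1 (not_lt.2 (max_le_max le_rfl (Order.succ_le_succ (sz_mono h))))

/-- an infinite point has a cardinality below the next cardinal -/
theorem rg_suc (hN : Normal κ U) {a : K} (h : ℵ₀ ≤ sz a) : Rg (suc a) := by
  intro A hA hc
  by_contra hcon
  push Not at hcon
  have h1 : Iio (suc a) ⊆ ⋃ x : A, Iic (x : K) := by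
    intro y hy
    obtain ⟨x, hx, hyx⟩ := hcon y hy
    exact mem_iUnion.2 ⟨⟨x, hx⟩, hyx⟩
  have h2 : ∀ x : A, #(Iic (x : K)) ≤ sz a := by
    intro x
    have h3 : sz (x : K) ≤ sz a := by
      have := sz_lt_of_lt_suc hN (hA x x.2)
      rw [max_eq_right (h.trans (Order.le_succ _))] at this
      exact Order.lt_succ_iff.1 this
    have h4 : Iic (x : K) = insert (x : K) (Iio (x : K)) := by
      ext y
      simp [le_iff_eq_or_lt]
    rw [h4]
    refine mk_insert_le.trans ?_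
    exact add_le_of_le h h3 (one_le_aleph0.trans h)
  have h3 : sz (suc a) ≤ sz a := by
    refine (mk_le_mk_of_subset h1).trans ((mk_iUnion_le_sum_mk).trans ?_)
    refine (sum_le_mk_mul_iSup _).trans ?_
    refine (mul_le_mul' ?_ (ciSup_le' h2)).trans (mul_eq_self h).le
    rw [sz_suc' hN h] at hc
    exact Order.lt_succ_iff.1 hc
  exact absurd h3 (not_le.2 (sz_lt_suc hN a))

/-- the double successor -/
noncomputable def nu (a : K) : K := suc (suc a)

theorem rg_nu (hN : Normal κ U) (a : K) : Rg (nu a) := rg_suc hN (inf_suc hN a)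

theorem inf_nu (hN : Normal κ U) (a : K) : ℵ₀ ≤ sz (nu a) := inf_suc hN _

theorem sz_nu (hN : Normal κ U) (a : K) : sz (nu a) = Order.succ (sz (suc a)) :=
  sz_suc' hN (inf_suc hN a)

theorem lt_nu (hN : Normal κ U) (a : K) : a < nu a := (lt_suc hN a).trans (lt_suc hN _)

theorem aleph0_lt_nu (hN : Normal κ U) (a : K) : ℵ₀ < sz (nu a) := by
  rw [sz_nu hN]
  exact (inf_suc hN a).trans_lt (Order.lt_succ _)

theorem nu_mono (hN : Normal κ U) {a b : K} (h : a ≤ b) : nu a ≤ nu b :=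
  suc_mono hN (suc_mono hN h)

/-- unions of few small sets -/
theorem mk_iUnion_nu (hN : Normal κ U) {a : K} {ι X : Type} (hι : #ι < sz (nu a)) {S : ι → Set X}
    (hS : ∀ i, #(S i) < sz (nu a)) : #(⋃ i, S i) < sz (nu a) := by
  rw [sz_nu hN, Order.lt_succ_iff] at hι ⊢
  refine (mk_iUnion_le_sum_mk).trans ((sum_le_mk_mul_iSup _).trans ?_)
  refine (mul_le_mul' hι (ciSup_le' fun i => ?_)).trans (mul_eq_self (inf_suc hN a)).le
  have := hS i
  rwa [sz_nu hN, Order.lt_succ_iff] at this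

/-! ### Properties of almost all points -/

theorem ae_limit (hN : Normal κ U) : {y : K | ∀ a < y, suc a < y} ∈ U :=
  hN.normal _ fun a => hN.tail (suc a)

theorem ae_unc (hN : Normal κ U) : {y : K | ℵ₀ < sz y} ∈ U := by
  obtain ⟨b, hb⟩ := exists_sz hN (kcard hN hN.unc)
  exact Filter.mem_of_superset (hN.tail b) fun y hy => (Order.lt_succ _).trans_le
    (hb.trans (sz_mono (le_of_lt hy)))

theorem ae_count (hN : Normal κ U) {S : Type} (bd : S → K → Prop) (h : ∀ δ, #{s // bd s δ} < κ) :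
    {y : K | #{s // ∃ δ < y, bd s δ} ≤ sz y} ∈ U := by
  choose g hg using fun δ : K => exists_sz hN (h δ)
  refine Filter.mem_of_superset (Filter.inter_mem (hN.normal _ fun δ => hN.tail (g δ))
    (ae_unc hN)) ?_
  rintro y ⟨h1, h2⟩
  have h3 : {s : S | ∃ δ < y, bd s δ} ⊆ ⋃ δ : Iio y, {s | bd s δ} := by
    rintro s ⟨δ, hδ, hs⟩
    exact mem_iUnion.2 ⟨⟨δ, hδ⟩, hs⟩
  change #{s : S | ∃ δ < y, bd s δ} ≤ sz y
  refine (mk_le_mk_of_subset h3).trans ((mk_iUnion_le_sum_mk).trans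
    ((sum_le_mk_mul_iSup _).trans ?_))
  refine (mul_le_mul' le_rfl (ciSup_le' fun δ => ?_)).trans (mul_eq_self (le_of_lt h2)).le
  exact (hg δ).trans (sz_mono (le_of_lt (h1 δ δ.2)))

theorem exists_sz_lt {y : K} {c : Cardinal.{0}} (h : c < sz y) : ∃ x < y, c ≤ sz x := by
  by_contra hcon
  push Not at hcon
  exact absurd (sz_le_of hcon) (not_le.2 h)

theorem ae_reg (hN : Normal κ U) : {y : K | Rg y} ∈ U := by
  classical
  by_contra hcon
  have h0 : {y : K | ¬ Rg y} ∈ U := by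
    rcases ae_or (U := U) {y | Rg y} with h | h
    · exact absurd h hcon
    · exact h
  have h1 : ∀ y : K, ∃ (g : K) (e : K → K), ¬ Rg y → ℵ₀ < sz y → g < y ∧ (∀ x < g, e x < y) ∧
      ∀ c < y, ∃ x < g, c ≤ e x := by
    intro y
    by_cases hy : ¬ Rg y ∧ ℵ₀ < sz y
    · obtain ⟨hy, hy'⟩ := hy
      have hy2 := hy
      unfold Rg at hy2
      push Not at hy2
      obtain ⟨A, hA, hc, hcof⟩ := hy2
      obtain ⟨g, hg, hAg⟩ := exists_sz_lt hc
      have hy0 : ∃ z, z < y := by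
        have : (0 : Cardinal.{0}) < sz y := aleph0_pos.trans hy'
        obtain ⟨⟨z, hz⟩⟩ := mk_ne_zero_iff.1 this.ne'
        exact ⟨z, hz⟩
      obtain ⟨z, hz⟩ := hy0
      obtain ⟨x0, hx0, _⟩ := hcof z hz
      obtain ⟨f⟩ := hAg
      refine ⟨g, fun x => if h : ∃ a : A, (f a : K) = x then h.choose else x0, fun _ _ =>
        ⟨hg, ?_, ?_⟩⟩
      · intro x _
        dsimp only
        split_ifs with h
        · exact hA _ h.choose.2
        · exact hA _ hx0
      · intro c hc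
        obtain ⟨a, ha, hca⟩ := hcof c hc
        refine ⟨f ⟨a, ha⟩, (f ⟨a, ha⟩).2, ?_⟩
        have h : ∃ b : A, (f b : K) = f ⟨a, ha⟩ := ⟨⟨a, ha⟩, rfl⟩
        dsimp only
        rw [dif_pos h]
        have h3 : h.choose = ⟨a, ha⟩ := f.injective (Subtype.ext h.choose_spec)
        rw [h3]
        exact hca
    · exact ⟨y, id, fun h h' => absurd ⟨h, h'⟩ hy⟩
  choose g e h1 using h1
  have h2 := Filter.inter_mem h0 (ae_unc hN)
  obtain ⟨γ, hγ⟩ := hN.regressive g (Filter.mem_of_superset h2 fun y hy => (h1 y hy.1 hy.2).1)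
  have h3 := Filter.inter_mem h2 hγ
  have h4 : ∀ ξ : Iio γ, ∃ c, {y | e y ξ = c} ∈ U := by
    intro ξ
    refine hN.regressive (fun y => e y ξ) (Filter.mem_of_superset h3 fun y hy => ?_)
    have h5 : g y = γ := hy.2
    exact (h1 y hy.1.1 hy.1.2).2.1 ξ (by rw [h5]; exact ξ.2)
  choose c hc using h4
  obtain ⟨b, hb⟩ := hN.bdd (range c) (mk_range_le.trans_lt (hN.small γ))
  have h5 := Filter.inter_mem (Filter.inter_mem h3 (ae_all hN (hN.small γ) hc)) (hN.tail b)
  obtain ⟨y, ⟨⟨hy1, hy2⟩, hy3⟩, hy4⟩ := exU h5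
  obtain ⟨x, hx, hbx⟩ := (h1 y hy1.1 hy1.2).2.2 b hy4
  have h6 : g y = γ := hy2
  rw [h6] at hx
  have h7 : e y x = c ⟨x, hx⟩ := hy3 ⟨x, hx⟩
  rw [h7] at hbx
  exact absurd (hb _ ⟨_, rfl⟩) (not_lt.2 hbx)

end

end Pool.Agent.W2helper53.MS
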