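import Pool.Agent.Helper669.Forcing

/-!
# Cardinals, structures and mutual stationarity in the forcing language
-/

set_option linter.unusedSectionVars false

namespace Pool.Agent.W2helper53.MS

open Cardinal Set Pool.Agent.Helper669.Forcing FirstOrder

section

variable (P : Type) [Preorder P] {K : Type} [LinearOrder K]

variable {P} in
/-- The relation named by `R` is single valued. -/
def SingleValued {X Y : Type} (R : X → Y → Set P) : Set P :=
  fall fun x => fall fun y => fall fun y' =>
    fimp (fand (meets (R x y)) (meets (R x y'))) (fground (y = y'))

/-- In the extension there is a map from a subset of the predecessors of `a` onto the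
predecessors of `b`. -/
def Onto (a b : K) : Set P :=
  fex fun R : K → K → Set P => fand (SingleValued R)
    (fall fun y => fall fun _ : y < b => fex fun x => fand (fground (x < a)) (meets (R x y)))

/-- The ordinal `x` is a cardinal of the extension. -/
def IsCard (x : K) : Set P := fall fun a => fall fun _ : a < x => fnot (Onto P a x)

/-- The ordinal `x` is the cardinal `ℵ_n` of the extension. -/
def Aleph : ℕ → K → Set P
  | 0, x => fground ((Iio x).Infinite ∧ ∀ y < x, (Iio y).Finite)
  | n + 1, x => fand (IsCard P x) (fex fun y => fand (fground (y < x)) (fand (Aleph n y)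
      (fall fun z => fall fun _ : y < z => fall fun _ : z < x => fnot (IsCard P z))))

/-- In the extension the well-ordered set `K` is `ℵ_ω`: it contains all `ℵ_n`, and every element
is below some `ℵ_n`. -/
def IsAlephOmega (K : Type) [LinearOrder K] : Set P :=
  fand (fall fun n => fex fun x : K => Aleph P n x)
    (fall fun y : K => fex fun n => fex fun x : K => fand (fground (y < x)) (Aleph P n x))

variable {P}

/-- In the extension, the set of the elements below `x` of the set named by `N` is bounded
in `x`. -/
def BddIn (N : K → Set P) (x : K) : Set P :=
  fex fun δ => fand (fground (δ < x))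
    (fall fun w => fall fun _ : w < x => fimp (meets (N w)) (fground (w < δ)))

/-- In the extension, there is a strictly increasing map from the predecessors of `z` to the set
of the elements below `x` of the set named by `N`, and this map is cofinal in that set. -/
def CofType (N : K → Set P) (x z : K) : Set P :=
  fex fun h : K → K → Set P => fand (SingleValued h)
    (fand (fall fun a => fall fun _ : a < z => fex fun y => meets (h a y))
    (fand (fall fun a => fall fun _ : a < z => fall fun y =>
      fimp (meets (h a y)) (fand (fground (y < x)) (meets (N y))))
    (fand (fall fun a => fall fun a' => fall fun _ : a < a' => fall fun _ : a' < z =>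
      fall fun y => fall fun y' =>
        fimp (fand (meets (h a y)) (meets (h a' y'))) (fground (y < y')))
    (fall fun w => fall fun _ : w < x => fimp (meets (N w))
      (fex fun a => fand (fground (a < z))
        (fex fun y => fand (meets (h a y)) (fground (w < y))))))))

/-- In the extension, `sup (N ∩ ℵ_n)` is smaller than `ℵ_n` and has the cofinality `ℵ_k`, where
`k = 0` for `n` congruent to `2` modulo `3`, and `k = 1` for all other `n`; for all `n ≥ 2`. -/
def CofPattern (N : K → Set P) : Set P :=
  fall fun n : ℕ => fall fun _ : 2 ≤ n => fall fun x => fimp (Aleph P n x)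
    (fand (BddIn N x) (fall fun z =>
      fimp (Aleph P (if n % 3 = 2 then 0 else 1) z) (CofType N x z)))

/-! ### First-order structures -/

variable (P) in
/-- Names for the interpretations of the symbols of the language `L` in the universe `K`. -/
structure Str (K : Type) (L : FirstOrder.Language.{0, 0}) where
  fn : ∀ {n : ℕ}, L.Functions n → (Fin n → K) → K → Set P
  rl : ∀ {n : ℕ}, L.Relations n → (Fin n → K) → Set P

/-- The names of functions name functions. -/
def IsStr {L : FirstOrder.Language.{0, 0}} (M : Str P K L) : Set P :=
  fall fun n : ℕ => fall fun f : L.Functions n => IsFun (M.fn f)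

/-- The value of the term `t` is `w`. -/
def Val {L : FirstOrder.Language.{0, 0}} (M : Str P K L) {α : Type} (v : α → K) : L.Term α → K → Set P
  | .var i, w => fground (v i = w)
  | .func (l := n) f ts, w => fex fun us : Fin n → K =>
      fand (fall fun i => Val M v (ts i) (us i)) (meets (M.fn f us w))

/-- The formula `φ` holds of `xs` in `M`, with all quantifiers restricted to `N`. -/
def SatIn {L : FirstOrder.Language.{0, 0}} (M : Str P K L) (N : K → Set P) :
    ∀ {n : ℕ}, L.BoundedFormula Empty n → (Fin n → K) → Set P
  | _, .falsum, _ => fground False
  | _, .equal t t', xs => fex fun w =>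
      fand (Val M (Sum.elim Empty.elim xs) t w) (Val M (Sum.elim Empty.elim xs) t' w)
  | _, .rel (l := l) R ts, xs => fex fun us : Fin l → K =>
      fand (fall fun i => Val M (Sum.elim Empty.elim xs) (ts i) (us i)) (meets (M.rl R us))
  | _, .imp φ ψ, xs => fimp (SatIn M N φ xs) (SatIn M N ψ xs)
  | _, .all φ, xs => fall fun a => fimp (meets (N a)) (SatIn M N φ (Fin.snoc xs a))

/-- The formula `φ` holds of `xs` in the structure named by `M`. -/
def Sat {L : FirstOrder.Language.{0, 0}} (M : Str P K L) {n : ℕ}
    (φ : L.BoundedFormula Empty n) (xs : Fin n → K) : Set P :=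
  SatIn M (fun _ => univ) φ xs

/-- The set named by `N` is the universe of an elementary substructure of `M`: it is nonempty,
closed under the functions, and every formula `φ(x_0, ..., x_{n-1})` holds of elements of the set
in the substructure if and only if it holds of them in the structure. -/
def IsElemSub {L : FirstOrder.Language.{0, 0}} (M : Str P K L) (N : K → Set P) : Set P :=
  fand (fex fun w => meets (N w))
    (fand (fall fun n : ℕ => fall fun f : L.Functions n => fall fun us : Fin n → K => fall fun w =>
      fimp (fand (fall fun i => meets (N (us i))) (meets (M.fn f us w))) (meets (N w)))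
    (fall fun n : ℕ => fall fun φ : L.BoundedFormula Empty n => fall fun xs : Fin n → K =>
      fimp (fall fun i => meets (N (xs i)))
        (fand (fimp (SatIn M N φ xs) (Sat M φ xs)) (fimp (Sat M φ xs) (SatIn M N φ xs)))))

/-- In the extension, every structure for the language `L` whose universe is `K` has an
elementary substructure with the pattern of cofinalities. -/
def MutStat (P : Type) [Preorder P] (K : Type) [LinearOrder K] (L : FirstOrder.Language.{0, 0}) : Set P :=
  fall fun M : Str P K L => fimp (IsStr M) (fex fun N : K → Set P =>
    fand (IsElemSub M N) (CofPattern N))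

/-! ### General lemmas -/

theorem down_SingleValued {X Y : Type} (R : X → Y → Set P) : Down (SingleValued R) :=
  down_fall fun _ => down_fall fun _ => down_fall fun _ => down_fimp _ _

theorem down_Onto (a b : K) : Down (Onto P a b) := down_fex _

theorem down_IsCard (x : K) : Down (IsCard P x) :=
  down_fall fun _ => down_fall fun _ => down_fnot _

theorem down_Aleph (n : ℕ) (x : K) : Down (Aleph P n x) := by
  cases n with
  | zero => exact down_fground _
  | succ n => exact down_fand (down_IsCard x) (down_fex _)

theorem Aleph.inj {n : ℕ} {x y : K} {p : P} (hx : p ∈ Aleph P n x) (hy : p ∈ Aleph P n y) :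
    x = y := by
  induction n generalizing x y p with
  | zero =>
    obtain ⟨h1, h2⟩ := hx
    obtain ⟨h3, h4⟩ := hy
    rcases lt_trichotomy x y with h | h | h
    · exact absurd (h4 x h) h1
    · exact h
    · exact absurd (h2 y h) h3
  | succ n ih =>
    have key : ∀ {x y : K} {p : P}, p ∈ Aleph P (n + 1) x → p ∈ Aleph P (n + 1) y → ¬ x < y := by
      intro x y p hx hy hxy
      obtain ⟨r, hr, x', h1, h2, h3⟩ := mem_fex.1 hx.2 p le_rfl
      obtain ⟨s, hs, y', h4, h5, h6⟩ := mem_fex.1 (down_Aleph _ _ _ hy _ hr).2 r le_rfl
      have h7 := ih (down_Aleph _ _ _ h2 _ hs) h5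
      have h8 : x' < x := h1
      have h9 := h6 x (h7 ▸ h8) hxy
      exact h9 s le_rfl (down_IsCard _ _ hx.1 _ (hs.trans hr))
    rcases lt_trichotomy x y with h | h | h
    · exact absurd h (key hx hy)
    · exact h
    · exact absurd h (key hy hx)

end

end Pool.Agent.W2helper53.MS
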