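import Pool.Agent.W2helper53.MS.Upper
import Pool.Agent.W2helper53.MS.Lang

/-!
# The cardinals of the extension
-/

set_option linter.unusedSectionVars false

namespace Pool.Agent.W2helper53.MS

open Cardinal Set Pool.Agent.V11248.Pk Pool.Agent.Helper669.Forcing

section

variable {κ : Cardinal.{0}} {K : Type} [LinearOrder K] [WellFoundedLT K] {U : Ultrafilter K}
  {B : Set K} {bot : K}

theorem isStem_mid {l0 u : St K} {γ : K} {f g : C K} (h : IsStem B bot (l0 ++ [(γ, f)] ++ u))
    (h' : IsStem B bot (l0 ++ [(γ, g)] ++ u)) (hfg : IsCol (nu γ) (f ∪ g)) :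
    IsStem B bot (l0 ++ [(γ, f ∪ g)] ++ u) := by
  refine ⟨?_, ?_, ?_, ?_⟩
  · obtain ⟨f', t', h2⟩ := h.head
    cases l0 with
    | nil =>
      simp only [List.nil_append, List.cons_append, List.cons.injEq, Prod.mk.injEq] at h2
      exact ⟨f ∪ g, u, by rw [← h2.1.1]; simp⟩
    | cons a t =>
      simp only [List.cons_append, List.cons.injEq] at h2
      exact ⟨f', t ++ [(γ, f ∪ g)] ++ u, by rw [← h2.1]; simp⟩
  · intro a ha
    simp only [List.mem_append, List.mem_singleton] at ha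
    rcases ha with (ha | rfl) | ha
    · exact h.mem a (by simp [ha])
    · exact h.mem (γ, f) (by simp)
    · exact h.mem a (by simp [ha])
  · have h3 := h.pw
    have h4 := h'.pw
    rw [List.append_assoc, List.pairwise_append, List.singleton_append, List.pairwise_cons]
      at h3 h4 ⊢
    refine ⟨h3.1, ⟨fun b hb => ?_, h3.2.1.2⟩, fun a ha b hb => ?_⟩
    · refine ⟨(h3.2.1.1 b hb).1, ?_⟩
      rintro e (he | he)
      · exact (h3.2.1.1 b hb).2 e he
      · exact (h4.2.1.1 b hb).2 e he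
    · rcases List.mem_cons.1 hb with rfl | hb
      · exact h3.2.2 a ha (γ, f) (by simp)
      · exact h3.2.2 a ha b (by simp [hb])
  · intro a ha
    simp only [List.mem_append, List.mem_singleton] at ha
    rcases ha with (ha | rfl) | ha
    · exact h.col a (by simp [ha])
    · exact hfg
    · exact h.col a (by simp [ha])

variable (S : Su κ U B bot)

include S

theorem bdd1 (p : Cond U B bot) {j : ℕ} (hj : j < p.t.length) {β : K} (hβ : ℵ₀ ≤ sz β)
    (hβ' : sz β ≤ sz (suc (pt p j))) (hlow : #{l : St K // Low p j l} ≤ sz β) {T : Type}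
    (hT : #T ≤ sz β) (D : T → ON (Cond U B bot) K)
    (hcol : ∀ x, ∃ δ, ∀ w p, p ∈ (D x).v w → w < δ) :
    ∃ q ≤ p, ∃ δ < suc β, ∀ x w, w < suc β → ∀ r ≤ q, r ∈ (D x).v w → w < δ := by
  classical
  have hN := S.hN
  obtain ⟨u, A, c, q, hq, _, _, h1⟩ := upper S p hj (hT.trans hβ') D hcol
  obtain ⟨δ, hδ, h2⟩ := rg_suc hN hβ {w | w < suc β ∧ ∃ (x : T) (l : {l : St K // Low p j l}),
    Fc S (l.1 ++ u) A c (D x) w} (fun w hw => hw.1) (by
      refine lt_of_le_of_lt ?_ (sz_lt_suc hN β)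
      have h3 : #(T × {l : St K // Low p j l}) ≤ sz β := by
        rw [mk_prod, lift_id, lift_id]
        exact (mul_le_mul' hT hlow).trans (mul_eq_self hβ).le
      refine le_trans ?_ h3
      choose x l hx using fun w : {w | w < suc β ∧ ∃ (x : T) (l : {l : St K // Low p j l}),
        Fc S (l.1 ++ u) A c (D x) w} => w.2.2
      refine mk_le_of_injective (f := fun w => (x w, l w)) fun w w' hw => Subtype.ext ?_
      simp only [Prod.mk.injEq] at hw
      have h4 := hx w
      rw [hw.1, hw.2] at h4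
      exact Fc.disj S h4 (hx w'))
  refine ⟨q, hq, δ, hδ, fun x w hw r hr hrw => h2 w ⟨hw, x, ?_⟩⟩
  obtain ⟨h3, h4⟩ := h1 x w r hr hrw
  exact ⟨⟨_, h3⟩, h4⟩

theorem bdd2 (p : Cond U B bot) {j : ℕ} (hj0 : 1 ≤ j) (hj : j < p.t.length) {T : Type}
    (hT : #T < sz (pt p j)) (D : T → ON (Cond U B bot) K)
    (hcol : ∀ x, ∃ δ, ∀ w p, p ∈ (D x).v w → w < δ) :
    ∃ q ≤ p, ∃ δ < pt p j, ∀ x w, w < pt p j → ∀ r ≤ q, r ∈ (D x).v w → w < δ := by
  classical
  have hN := S.hN
  obtain ⟨i, rfl⟩ : ∃ i, j = i + 1 := ⟨j - 1, by omega⟩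
  have hg := S.good _ (pt_B S hj0 hj)
  have hlt : pt p i < pt p (i + 1) := by
    rw [pt_eq hj, pt_eq (show i < p.t.length by omega)]
    exact (List.pairwise_iff_getElem.1 p.stem.pw i (i + 1) (by omega) hj (by omega)).1
  obtain ⟨u, A, c, q, hq, hqt, hul, h1⟩ := upper S p hj
    (hT.le.trans (sz_lt_suc hN _).le) D hcol
  -- the bounds
  have h2 : ∀ y : T × {l : St K // Low p i l}, ∃ β < pt p (i + 1), ∀ w, w < pt p (i + 1) →
      (∃ f, IsCol (nu (pt p i)) f ∧ Bel f (pt p (i + 1)) ∧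
        Fc S (y.2.1 ++ [(pt p i, f)] ++ u) A c (D y.1) w) → w < β := by
    rintro ⟨x, l0, hl0⟩
    have h3 := phi_form (γ := nu (pt p i)) (Q := fun f => Bel f (pt p (i + 1)))
      (fun W => hg.cc (pt p i) (hg.nu hlt) W) (fun f w => IsCol (nu (pt p i)) f ∧
        Bel f (pt p (i + 1)) ∧ Fc S (l0 ++ [(pt p i, f)] ++ u) A c (D x) w)
      (fun f w h => ⟨h.1, h.2.1⟩) (by
        rintro f g w v ⟨hf1, hf2, hf3⟩ ⟨hg1, hg2, hg3⟩ hfg
        obtain ⟨hst, hA, _⟩ := id hf3
        obtain ⟨hst', _, _⟩ := id hg3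
        have hst2 := isStem_mid hst hst' hfg
        have h4 := hf3.mono S (t' := l0 ++ [(pt p i, f ∪ g)] ++ u) (Rf.append (Rf.append
          (Rf.refl _) (Rf.single ⟨rfl, subset_union_left⟩)) (Rf.refl _)) hst2 hA Subset.rfl
          fun _ _ => Subset.rfl
        have h5 := hg3.mono S (t' := l0 ++ [(pt p i, f ∪ g)] ++ u) (Rf.append (Rf.append
          (Rf.refl _) (Rf.single ⟨rfl, subset_union_right⟩)) (Rf.refl _)) hst2 hA Subset.rfl
          fun _ _ => Subset.rfl
        exact Fc.disj S h4 h5)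
    obtain ⟨β, hβ, h4⟩ := hg.rg {w | w < pt p (i + 1) ∧ ∃ f, IsCol (nu (pt p i)) f ∧
      Bel f (pt p (i + 1)) ∧ Fc S (l0 ++ [(pt p i, f)] ++ u) A c (D x) w} (fun w hw => hw.1)
      ((mk_le_mk_of_subset fun w hw => hw.2).trans_lt h3)
    exact ⟨β, hβ, fun w hw hw' => h4 w ⟨hw, hw'⟩⟩
  choose β hβ hβ' using h2
  obtain ⟨δ, hδ, h3⟩ := hg.rg (range β) (by rintro _ ⟨y, rfl⟩; exact hβ y) (by
    refine mk_range_le.trans_lt ?_
    rw [mk_prod, lift_id, lift_id]
    refine mul_lt_of_lt hg.unc.le hT ?_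
    exact (mk_low_suc S (show i < p.t.length by omega)).trans_lt (hg.sz_lt hN (hg.lim _ hlt)))
  refine ⟨q, hq, δ, hδ, fun x w hw r hr hrw => ?_⟩
  obtain ⟨h4, h5⟩ := h1 x w r hr hrw
  obtain ⟨hst, _, _⟩ := id h5
  have hlr := length_le (hr.trans hq)
  have hir : i < r.t.length := by omega
  have h6 : r.t.take (i + 1) = r.t.take i ++ [r.t[i]] := List.take_succ_eq_append_getElem hir
  have h7 : r.t[i] = (pt p i, (r.t[i]).2) := by
    refine Prod.ext ?_ rfl
    rw [← pt_eq hir]
    exact pt_le (hr.trans hq) (by omega)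
  rw [h6, h7] at h4 h5 hst
  have h8 := hst.pw
  rw [List.append_assoc, List.pairwise_append] at h8
  have hlow : Low p i (r.t.take i) := by
    refine ⟨?_, fun a ha => r.stem.col a (List.mem_of_mem_take ha), fun a ha =>
      h8.2.2 a ha (pt p i, (r.t[i]).2) (by simp)⟩
    have h9 := (hr.trans hq).1.take i
    rwa [List.take_take, min_eq_left (by omega)] at h9
  have h10 := hβ' (x, ⟨_, hlow⟩) w hw ⟨(r.t[i]).2, ?_, ?_, h5⟩
  · exact h10.trans (h3 _ ⟨_, rfl⟩)
  · exact h4.2.1 (pt p i, (r.t[i]).2) (by simp)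
  · exact (h4.2.2 (pt p i, (r.t[i]).2) (by simp)).2

theorem not_onto {p : Cond U B bot} {b μ : K}
    (h : ∀ p' ≤ p, ∀ D : Iio b → ON (Cond U B bot) K,
      (∀ x, ∃ δ, ∀ w p, p ∈ (D x).v w → w < δ) →
        ∃ q ≤ p', ∃ δ < μ, ∀ x w, w < μ → ∀ r ≤ q, r ∈ (D x).v w → w < δ) :
    p ∈ fnot (Onto (Cond U B bot) b μ) := by
  intro q hq hq'
  obtain ⟨r, hr, R, hR1, hR2⟩ := mem_fex.1 hq' q le_rfl
  have := S.hN.noMax
  obtain ⟨μ', hμ'⟩ := exists_gt μ
  obtain ⟨s, hs, δ, hδ, h1⟩ := h r (hr.trans hq) (fun x => (ON.ofJ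
    (fun w => {s | s ≤ r ∧ s ∈ meets (R x w)}) (by
      rintro w w' s s' t ⟨h1, h2⟩ ⟨h3, h4⟩ h5 h6
      obtain ⟨_, _, h7⟩ := mem_fimp.1 (hR1 x w w') t (h5.trans h1)
        ⟨down_meets _ _ h2 _ h5, down_meets _ _ h4 _ h6⟩
      exact h7)).trunc μ) fun x => ⟨μ', fun w p hp => (ON.trunc_le hp).trans_lt hμ'⟩
  obtain ⟨s', hs', x, hx, h2⟩ := mem_fex.1 (hR2 δ hδ) s hs
  exact absurd (h1 ⟨x, hx⟩ δ hδ s' hs' ((ON.trunc_of_lt hδ).2
    (meets_of_mem ⟨hs'.trans hs, h2⟩))) (lt_irrefl _)

theorem card_suc {p : Cond U B bot} {j : ℕ} (hj : j < p.t.length) {β : K} (hβ : ℵ₀ ≤ sz β)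
    (hβ' : sz β ≤ sz (suc (pt p j)))
    (hlow : ∀ p' ≤ p, #{l : St K // Low p' j l} ≤ sz β) : p ∈ IsCard (Cond U B bot) (suc β) := by
  intro a ha
  refine not_onto S fun p' hp' D hcol => ?_
  refine bdd1 S p' (hj.trans_le (length_le hp')) hβ ?_ (hlow p' hp') ?_ D hcol
  · rwa [pt_le hp' hj]
  · have h1 := sz_lt_of_lt_suc S.hN ha
    rw [max_eq_right (hβ.trans (Order.le_succ _))] at h1
    exact Order.lt_succ_iff.1 h1

theorem card_nu_pt {p : Cond U B bot} {j : ℕ} (hj : j < p.t.length) :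
    p ∈ IsCard (Cond U B bot) (nu (pt p j)) := by
  refine card_suc S hj (inf_suc S.hN _) le_rfl fun p' hp' => ?_
  rw [← pt_le hp' hj]
  exact mk_low_suc S (hj.trans_le (length_le hp'))

theorem card_suc_pt {p : Cond U B bot} {j : ℕ} (hj0 : 1 ≤ j) (hj : j < p.t.length) :
    p ∈ IsCard (Cond U B bot) (suc (pt p j)) := by
  refine card_suc S hj (S.good _ (pt_B S hj0 hj)).unc.le (sz_lt_suc S.hN _).le fun p' hp' => ?_
  rw [← pt_le hp' hj]
  exact mk_low S hj0 (hj.trans_le (length_le hp'))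

theorem card_pt {p : Cond U B bot} {j : ℕ} (hj0 : 1 ≤ j) (hj : j < p.t.length) :
    p ∈ IsCard (Cond U B bot) (pt p j) := by
  intro a ha
  refine not_onto S fun p' hp' D hcol => ?_
  have h1 := bdd2 S p' hj0 (hj.trans_le (length_le hp')) (T := Iio a) ?_ D hcol
  · rwa [pt_le hp' hj] at h1
  · rw [pt_le hp' hj]
    exact (S.good _ (pt_B S hj0 hj)).sz_lt S.hN ha

omit S in
/-- ordinals which are not cardinals in the ground model -/
theorem onto_ground {P : Type} [Preorder P] {a x : K} (h : sz x ≤ sz a) (p : P) :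
    p ∈ Onto P a x := by
  obtain ⟨e⟩ := h
  refine mem_fex_of_mem (fun i y => {_p | ∃ hy : y < x, (e ⟨y, hy⟩ : K) = i})
    (down_fand (down_SingleValued _) (down_fall fun _ => down_fall fun _ => down_fex _)) ⟨?_, ?_⟩
  · intro i y y'
    refine mem_fimp.2 fun q hq ⟨h1, h2⟩ => ⟨q, le_rfl, ?_⟩
    obtain ⟨r, _, s, ⟨hy, h3⟩, _⟩ := h1 q le_rfl
    obtain ⟨r', _, s', ⟨hy', h4⟩, _⟩ := h2 q le_rfl
    have h5 := e.injective (Subtype.ext (h3.trans h4.symm))
    exact Subtype.mk.inj h5
  · intro y hy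
    exact mem_fex_of_mem (e ⟨y, hy⟩ : K) (down_fand (down_fground _) (down_meets _))
      ⟨(e ⟨y, hy⟩).2, meets_of_mem ⟨hy, rfl⟩⟩

/-- the condition of the collapse at the position `m` -/
def cf (p : Cond U B bot) (m : ℕ) : C K := (p.t.getD m (bot, ∅)).2

omit S in
theorem cf_eq {p : Cond U B bot} {m : ℕ} (h : m < p.t.length) : cf p m = (p.t[m]).2 := by
  unfold cf
  rw [List.getD_eq_getElem _ _ h]

omit S in
theorem cf_mono {q p : Cond U B bot} (h : q ≤ p) (m : ℕ) : cf p m ⊆ cf q m := by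
  by_cases hm : m < p.t.length
  · obtain ⟨hm', h1⟩ := ref_get h hm
    rw [cf_eq hm, cf_eq hm']
    exact h1.2
  · have h1 : cf p m = ∅ := by
      unfold cf
      rw [List.getD_eq_default _ _ (by omega)]
    rw [h1]
    exact empty_subset _

omit S in
theorem cf_col {p : Cond U B bot} {m : ℕ} {x i y : K} (h : (x, i, y) ∈ cf p m) :
    ∃ _ : m < p.t.length, IsCol (nu (pt p m)) (cf p m) := by
  by_cases hm : m < p.t.length
  · refine ⟨hm, ?_⟩
    rw [cf_eq hm, pt_eq hm]
    exact p.stem.col _ (List.getElem_mem hm)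
  · exfalso
    unfold cf at h
    rw [List.getD_eq_default _ _ (by omega)] at h
    exact h

/-- strengthening one of the conditions of the stem -/
theorem exists_repl (p : Cond U B bot) {j : ℕ} (hj : j + 1 < p.t.length) {f : C K}
    (h1 : cf p j ⊆ f) (h2 : IsCol (nu (pt p j)) f) (h3 : Bel f (pt p (j + 1))) :
    ∃ q ≤ p, f ⊆ cf q j := by
  classical
  have hj' : j < p.t.length := by omega
  let φ : K × C K → K × C K := fun a => if a.1 = pt p j then (pt p j, f) else a
  have hφ1 : ∀ a, (φ a).1 = a.1 := by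
    intro a
    simp only [φ]
    split_ifs with h
    · exact h.symm
    · rfl
  have hpw := p.stem.pw
  rw [List.pairwise_iff_getElem] at hpw
  have hpos : ∀ i (hi : i < p.t.length), (p.t[i]).1 = pt p j → i = j := by
    intro i hi h
    rw [pt_eq hj'] at h
    rcases lt_trichotomy i j with h4 | h4 | h4
    · exact absurd h (hpw i j hi hj' h4).1.ne
    · exact h4
    · exact absurd h (hpw j i hj' hi h4).1.ne'
  have hst : IsStem B bot (p.t.map φ) := by
    refine ⟨?_, ?_, ?_, ?_⟩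
    · obtain ⟨f0, t', h4⟩ := p.stem.head
      refine ⟨(φ (bot, f0)).2, t'.map φ, ?_⟩
      rw [h4, List.map_cons]
      congr 1
      exact Prod.ext (hφ1 _) rfl
    · intro a ha
      obtain ⟨b, hb, rfl⟩ := List.mem_map.1 ha
      rw [hφ1]
      exact p.stem.mem b hb
    · rw [List.pairwise_map, List.pairwise_iff_getElem]
      intro i k hi hk hik
      rw [hφ1]
      simp only [φ]
      split_ifs with h
      · have h4 := hpos i hi h
        subst h4
        refine ⟨?_, h3.mono ?_⟩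
        · rw [← h]
          exact (hpw i k hi hk hik).1
        · rw [pt_eq hj]
          rcases Nat.lt_or_ge (i + 1) k with h5 | h5
          · exact (hpw (i + 1) k hj hk h5).1.le
          · have h6 : k = i + 1 := by omega
            subst h6
            exact le_rfl
      · exact hpw i k hi hk hik
    · intro a ha
      obtain ⟨b, hb, rfl⟩ := List.mem_map.1 ha
      simp only [φ]
      split_ifs with h
      · exact h2
      · exact p.stem.col b hb
  refine ⟨mkC S _ hst p.A p.memU p.c p.col, ⟨?_, ?_, fun y hy => hy.1, fun _ _ => Subset.rfl⟩, ?_⟩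
  · change Rf ((p.t.map φ).take p.t.length) p.t
    rw [List.take_of_length_le (by rw [List.length_map])]
    unfold Rf
    rw [List.forall₂_map_left_iff, List.forall₂_same]
    intro a ha
    refine ⟨hφ1 a, ?_⟩
    simp only [φ]
    split_ifs with h
    · obtain ⟨i, hi, rfl⟩ := List.getElem_of_mem ha
      have h4 := hpos i hi h
      subst h4
      rw [← cf_eq hi]
      exact h1
    · exact Subset.rfl
  · intro a ha
    change a ∈ (p.t.map φ).drop p.t.length at ha
    rw [List.drop_eq_nil_of_le (by rw [List.length_map])] at ha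
    simp at ha
  · have h4 : j < (mkC S _ hst p.A p.memU p.c p.col).t.length := by
      change j < (p.t.map φ).length
      rw [List.length_map]
      exact hj'
    have h5 : (mkC S _ hst p.A p.memU p.c p.col).t[j] = φ (p.t[j]) := List.getElem_map _
    rw [cf_eq h4, h5]
    simp only [φ]
    rw [if_pos (pt_eq hj').symm]

/-- the collapses -/
theorem onto_gen {p : Cond U B bot} {j : ℕ} (hj : j + 1 < p.t.length) {x : K}
    (hx2 : x < pt p (j + 1)) :
    p ∈ Onto (Cond U B bot) (nu (pt p j)) x := by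
  have hN := S.hN
  refine mem_fex_of_mem (fun i y => {q | (x, i, y) ∈ cf q j})
    (down_fand (down_SingleValued _) (down_fall fun _ => down_fall fun _ => down_fex _)) ⟨?_, ?_⟩
  · intro i y y'
    refine mem_fimp.2 fun q hq ⟨h1, h2⟩ => ⟨q, le_rfl, ?_⟩
    obtain ⟨r, hr, s, h3, hs⟩ := h1 q le_rfl
    obtain ⟨r', hr', s', h4, hs'⟩ := h2 r hr
    have h5 := cf_mono (hr'.trans hs) j h3
    have h6 := cf_mono hs' j h4
    obtain ⟨_, h7⟩ := cf_col h5
    exact h7.fn _ _ _ _ h5 h6
  · intro y hy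
    refine mem_fex.2 fun q hq => ?_
    have hjq : j + 1 < q.t.length := hj.trans_le (length_le hq)
    have hpt1 : pt q j = pt p j := pt_le hq (by omega)
    have hpt2 : pt q (j + 1) = pt p (j + 1) := pt_le hq hj
    have hcol : IsCol (nu (pt q j)) (cf q j) := by
      rw [cf_eq (show j < q.t.length by omega), pt_eq (show j < q.t.length by omega)]
      exact q.stem.col _ (List.getElem_mem _)
    have hbel : Bel (cf q j) (pt q (j + 1)) := by
      rw [cf_eq (show j < q.t.length by omega), pt_eq hjq]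
      exact (List.pairwise_iff_getElem.1 q.stem.pw j (j + 1) (by omega) hjq (by omega)).2
    have h1 : ∃ i < nu (pt q j), ∀ y', (x, i, y') ∉ cf q j := by
      by_contra hcon
      push Not at hcon
      have h2 : sz (nu (pt q j)) ≤ #(cf q j) := by
        choose g hg using fun i : Iio (nu (pt q j)) => hcon i i.2
        refine mk_le_of_injective (f := fun i => (⟨(x, i, g i), hg i⟩ : cf q j)) ?_
        intro i i' h
        simp only [Subtype.mk.injEq, Prod.mk.injEq] at h
        exact Subtype.ext h.2.1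
      exact absurd hcol.sm (not_lt.2 h2)
    obtain ⟨i, hi, h2⟩ := h1
    obtain ⟨r, hr, h3⟩ := exists_repl S q hjq (f := insert (x, i, y) (cf q j)) (subset_insert _ _)
      (by
        refine ⟨?_, ?_, ?_⟩
        · rintro x' i' b b' (h4 | h4) (h5 | h5)
          · simp only [Prod.mk.injEq] at h4 h5
            rw [h4.2.2, h5.2.2]
          · simp only [Prod.mk.injEq] at h4
            rw [h4.1, h4.2.1] at h5
            exact absurd h5 (h2 b')
          · simp only [Prod.mk.injEq] at h5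
            rw [h5.1, h5.2.1] at h4
            exact absurd h4 (h2 b)
          · exact hcol.fn _ _ _ _ h4 h5
        · rintro x' i' b (h4 | h4)
          · simp only [Prod.mk.injEq] at h4
            rw [h4.1, h4.2.1, h4.2.2]
            exact ⟨hi, hy⟩
          · exact hcol.dom _ _ _ h4
        · exact mk_insert_le.trans_lt (add_lt_of_lt (inf_nu hN _) hcol.sm
            (one_lt_aleph0.trans_le (inf_nu hN _))))
      (by
        rintro e (he | he)
        · rw [he, hpt2]
          exact hx2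
        · exact hbel e he)
    refine ⟨r, hr, i, ?_, meets_of_mem (h3 (mem_insert _ _))⟩
    change i < nu (pt p j)
    rw [← hpt1]
    exact hi

end

end Pool.Agent.W2helper53.MS
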