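import Pool.Agent.W2helper53.MS.Stage

/-!
# Names, and the chain of stages
-/

set_option linter.unusedSectionVars false

namespace Pool.Agent.W2helper53.MS

open Cardinal Set Pool.Agent.V11248.Pk Pool.Agent.Helper669.Forcing

section

variable {P : Type} [Preorder P] {K : Type}

/-- the name with value `w` if the generic filter meets `J w` -/
def ON.ofJ (J : K → Set P) (hJ : ∀ w w' s s' r, s ∈ J w → s' ∈ J w' → r ≤ s → r ≤ s' → w = w') :
    ON P K where
  v w := meets (J w)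
  down w := down_meets _
  reg w p h q hq := by
    obtain ⟨r, hr, h1⟩ := h q hq
    obtain ⟨r', hr', s, hs, hle⟩ := h1 r le_rfl
    exact ⟨r', hr'.trans hr, s, hs, hle⟩
  disj w w' p h h' := by
    obtain ⟨r, hr, s, hs, hle⟩ := h p le_rfl
    obtain ⟨r', hr', s', hs', hle'⟩ := h' r hr
    exact hJ w w' s s' r' hs hs' (hr'.trans hle) hle'

/-- the name of a ground model element -/
def ON.const (P : Type) [Preorder P] (w0 : K) : ON P K where
  v w := {_p | w = w0}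
  down w := fun _ hp _ _ => hp
  reg w p h := by
    obtain ⟨r, _, hr⟩ := h p le_rfl
    exact hr
  disj w w' p h h' := by
    have h1 : w = w0 := h
    have h2 : w' = w0 := h'
    rw [h1, h2]

end

section

variable {κ : Cardinal.{0}} {K : Type} [LinearOrder K] [WellFoundedLT K] {U : Ultrafilter K}
  {B : Set K} {bot : K}

/-- the `m`-th point of the stem -/
def pt (p : Cond U B bot) (m : ℕ) : K := (p.t.getD m (bot, ∅)).1

theorem pt_eq {p : Cond U B bot} {m : ℕ} (h : m < p.t.length) : pt p m = (p.t[m]).1 := by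
  unfold pt
  rw [List.getD_eq_getElem _ _ h]

theorem ref_get {r p : Cond U B bot} (h : r ≤ p) {m : ℕ} (hm : m < p.t.length) :
    ∃ hm' : m < r.t.length, Ref r.t[m] p.t[m] := by
  have hl := length_le h
  have hm' : m < (r.t.take p.t.length).length := by
    rw [List.length_take]
    omega
  have h1 := h.1.get hm' hm
  rw [List.getElem_take] at h1
  exact ⟨by omega, h1⟩

theorem pt_le {r p : Cond U B bot} (h : r ≤ p) {m : ℕ} (hm : m < p.t.length) :
    pt r m = pt p m := by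
  obtain ⟨hm', h1⟩ := ref_get h hm
  rw [pt_eq hm, pt_eq hm']
  exact h1.1

/-- the blocks are cut to length `k` and only the first `j` blocks are kept -/
def cut (k j : ℕ) (X : List (List K)) : List (List K) := (X.take j).map (List.take k)

theorem forall2_unique {α β : Type} {R : α → β → Prop} {l : List α} {u v : List β}
    (hR : ∀ a x y, R a x → R a y → x = y) (h : List.Forall₂ R l u) (h' : List.Forall₂ R l v) :
    u = v := by
  induction h generalizing v with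
  | nil =>
    cases h'
    rfl
  | cons h1 h2 ih =>
    cases h' with
    | cons h3 h4 => rw [hR _ _ _ h1 h3, ih h4]

variable (S : Su κ U B bot)

/-- the named function `F e` applied to the values of names -/
def comp (F : ℕ → List K → K → Set (Cond U B bot)) (p0 : Cond U B bot)
    (hF : p0 ∈ IsFun fun x : ℕ × List K => F x.1 x.2) (e : ℕ)
    (args : List (Nm U B bot × ℕ × ℕ)) : Nm U B bot := fun X =>
  ON.ofJ (fun w => {p | p ≤ p0 ∧ ∃ ws : List K, List.Forall₂ (fun a u =>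
    p ∈ (a.1 (cut a.2.1 a.2.2 X)).v u) args ws ∧ p ∈ meets (F e ws w)}) (by
    rintro w w' s s' r ⟨h0, ws, h1, h2⟩ ⟨_, ws', h3, h4⟩ h5 h6
    have h7 : ws = ws' := by
      refine forall2_unique (R := fun (a : Nm U B bot × ℕ × ℕ) u =>
        r ∈ (a.1 (cut a.2.1 a.2.2 X)).v u) (fun a x y hx hy => ON.disj _ _ _ _ hx hy)
        (h1.imp fun a u h => ON.down _ _ _ h _ h5) (h3.imp fun a u h => ON.down _ _ _ h _ h6)
    rw [← h7] at h4
    exact IsFun.unique (down_IsFun _ _ hF _ (h5.trans h0)) (x := (e, ws))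
      (down_meets _ _ h2 _ h5) (down_meets _ _ h4 _ h6))

/-- the name of the value of the function `h` at the `m`-th point -/
def eta (h : K → K) (m : ℕ) : Nm U B bot := fun _ =>
  ON.ofJ (fun w => {p | m < p.t.length ∧ h (pt p m) = w}) (by
    rintro w w' s s' r ⟨h1, h2⟩ ⟨h3, h4⟩ h5 h6
    rw [← h2, ← h4, ← pt_le h5 h1, ← pt_le h6 h3])

include S

theorem fa_rf {T : Ts U} {A : Set K} {g : Nm U B bot} {X0 : List (List K)} {l l' : St K} {w : K}
    {k : ℕ} (hA : A ∈ U) (hl : IsStem B bot l') (h : Rf l' l)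
    (h1 : {α | AE U k fun b => Fa S T A α b g X0 l w} ∈ U) :
    {α | AE U k fun b => Fa S T A α b g X0 l' w} ∈ U := by
  filter_upwards [h1, S.hB, S.above hl] with α h2 h3 h4
  refine AE.mono h2 fun b hb => ?_
  exact hb.mono S (Rf.append h (Rf.refl _)) (isStem_snoc S hl h3 h4 ((T.sys α).col b))
    (Filter.inter_mem hA (Ab_mem S.hN _ _)) Subset.rfl fun _ _ => Subset.rfl

/-- the name obtained by integrating out the last block -/
def integ (n0 : ℕ) (T : Ts U) (A : Set K) (hA : A ∈ U) (g : Nm U B bot) (k : ℕ) :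
    Nm U B bot := fun X0 =>
  ON.ofJ (fun w => {p | p.t.length = n0 + X0.length ∧
    {α | AE U k fun b => Fa S T A α b g X0 p.t w} ∈ U}) (by
    rintro w w' s s' r ⟨h1, h2⟩ ⟨h3, h4⟩ h5 h6
    have hr := r.stem.take s.stem.pos
    have h7 := fa_rf S hA hr h5.1 h2
    have h8 : Rf (r.t.take s.t.length) s'.t := by
      have h9 := h6.1
      rwa [h3, ← h1] at h9
    have h9 := fa_rf S hA hr h8 h4
    obtain ⟨α, hα1, hα2⟩ := exU (Filter.inter_mem h7 h9)
    obtain ⟨b, _, hb1, hb2⟩ := (AE.and hα1 hα2).exists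
    exact Fc.disj S hb1 hb2)

/-- the names added at a stage -/
def Zp (F : ℕ → List K → K → Set (Cond U B bot)) (p0 : Cond U B bot)
    (hF : p0 ∈ IsFun fun x : ℕ × List K => F x.1 x.2) (n0 : ℕ) (Z : Set (Nm U B bot)) (T : Ts U)
    (A : Set K) (hA : A ∈ U) (h h' : K → K) : Set (Nm U B bot) :=
  Z ∪ (range (fun x : ℕ × List (Z × ℕ × ℕ) => comp F p0 hF x.1
    (x.2.map fun a => (a.1.1, a.2.1, a.2.2))) ∪ (range (fun x : Z × ℕ => integ S n0 T A hA x.1 x.2) ∪
      (range (fun m : ℕ => eta h m) ∪ (range (fun m : ℕ => eta h' m) ∪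
        range (fun (x : Z × ℕ × ℕ) (X : List (List K)) => x.1.1 (cut x.2.1 x.2.2 X))))))

theorem mk_Zp {F : ℕ → List K → K → Set (Cond U B bot)} {p0 : Cond U B bot}
    {hF : p0 ∈ IsFun fun x : ℕ × List K => F x.1 x.2} {n0 : ℕ} {Z : Set (Nm U B bot)} {T : Ts U}
    {A : Set K} {hA : A ∈ U} {h h' : K → K} {ρ : Cardinal.{0}} (hρ : ℵ₀ ≤ ρ) (hZ : #Z ≤ ρ) :
    #(Zp S F p0 hF n0 Z T A hA h h') ≤ ρ := by
  have hw : #(Z × ℕ) ≤ ρ := by
    rw [mk_prod, lift_id, lift_id, mk_nat]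
    exact (mul_le_mul' hZ hρ).trans (mul_eq_self hρ).le
  have hw2 : #(Z × ℕ × ℕ) ≤ ρ := by
    simp only [mk_prod, lift_id, mk_nat]
    exact (mul_le_mul' hZ ((mul_le_mul' hρ hρ).trans (mul_eq_self hρ).le)).trans
      (mul_eq_self hρ).le
  have hl : #(List (Z × ℕ × ℕ)) ≤ ρ := (mk_list_le_max _).trans (max_le hρ hw2)
  have hl2 : #(ℕ × List (Z × ℕ × ℕ)) ≤ ρ := by
    rw [mk_prod, lift_id, lift_id, mk_nat]
    exact (mul_le_mul' hρ hl).trans (mul_eq_self hρ).le
  unfold Zp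
  refine (mk_union_le _ _).trans (add_le_of_le hρ hZ ((mk_union_le _ _).trans
    (add_le_of_le hρ (mk_range_le.trans hl2) ((mk_union_le _ _).trans
      (add_le_of_le hρ (mk_range_le.trans hw) ((mk_union_le _ _).trans
        (add_le_of_le hρ (mk_range_le.trans ?_) ((mk_union_le _ _).trans
          (add_le_of_le hρ (mk_range_le.trans ?_) (mk_range_le.trans hw2))))))))))
  · rw [mk_nat]
    exact hρ
  · rw [mk_nat]
    exact hρ

omit S

/-- states of the construction -/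
structure Sta (U : Ultrafilter K) (B : Set K) (bot : K) (ρ : Cardinal.{0}) where
  T : Ts U
  Z : Set (Nm U B bot)
  hZ : #Z ≤ ρ

instance (ρ : Cardinal.{0}) : Preorder (Sta U B bot ρ) where
  le s' s := s'.T ≤ s.T ∧ s.Z ⊆ s'.Z
  le_refl s := ⟨le_rfl, Subset.rfl⟩
  le_trans _ _ _ h h' := ⟨h.1.trans h'.1, h'.2.trans h.2⟩

theorem closedSta (hN : Normal κ U) {ρ : Cardinal.{0}} (hρ : ℵ₀ ≤ ρ) (hρ' : ρ < κ) :
    Closed ρ (Sta U B bot ρ) := by
  intro I _ _ f hI hne hf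
  obtain ⟨T, hT⟩ := closedTs hN I (fun i => (f i).T) (hI.trans hρ'.le) hne
    fun i j h => (hf i j h).1
  refine ⟨⟨T, ⋃ i, (f i).Z, ?_⟩, fun i => ⟨hT i, subset_iUnion (fun i => (f i).Z) i⟩⟩
  refine (mk_iUnion_le_sum_mk).trans ((sum_le_mk_mul_iSup _).trans ?_)
  exact (mul_le_mul' hI (ciSup_le' fun i => (f i).hZ)).trans (mul_eq_self hρ).le

include S

theorem chain {F : ℕ → List K → K → Set (Cond U B bot)} {p0 : Cond U B bot}
    (hF : p0 ∈ IsFun fun x : ℕ × List K => F x.1 x.2) (n0 : ℕ) {ρ : Cardinal.{0}} (hρ : ℵ₀ ≤ ρ)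
    (hρ' : ρ < κ) (Ω : Type) [LinearOrder Ω] [WellFoundedLT Ω] (hΩ : #Ω ≤ ρ)
    (Z0 : Set (Nm U B bot)) (hZ0 : #Z0 ≤ ρ) (T0 : Ts U) :
    ∃ (T : Ω → Ts U) (Z : Ω → Set (Nm U B bot)) (A A' : Ω → Set K) (h h' : Ω → K → K)
      (hs : ∀ i, Stg S (Z i) (T i) (A i) (A' i) (h i) (h' i)), ∀ i, #(Z i) ≤ ρ ∧ Z0 ⊆ Z i ∧
        T i ≤ T0 ∧
        ∀ j < i, T i ≤ T j ∧ Zp S F p0 hF n0 (Z j) (T j) (A j) (hs j).memU (h j) (h' j) ⊆ Z i := by
  have hN := S.hN
  choose Tn hTn An An' hn hn' hS using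
    fun σ : Sta U B bot ρ => stage S (σ.hZ.trans_lt hρ') σ.T
  obtain ⟨f, hf1, hf2, hf3⟩ := exists_desc (I := Ω) hΩ (closedSta hN hρ hρ')
    (fun _ σ => ⟨Tn σ, Zp S F p0 hF n0 σ.Z (Tn σ) (An σ) (hS σ).memU (hn σ) (hn' σ),
      mk_Zp S hρ σ.hZ⟩) (fun _ σ => ⟨hTn σ, subset_union_left⟩) ⟨T0, Z0, hZ0⟩
  choose v hv1 hv2 hv3 using hf3
  refine ⟨fun i => Tn (v i), fun i => (v i).Z, fun i => An (v i), fun i => An' (v i),
    fun i => hn (v i), fun i => hn' (v i), fun i => hS (v i), fun i => ⟨(v i).hZ, (hv1 i).2,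
      (hTn _).trans (hv1 i).1, fun j hj => ?_⟩⟩
  have h1 := hv2 i j hj
  rw [hv3 j] at h1
  exact ⟨(hTn _).trans h1.1, h1.2⟩

end

end Pool.Agent.W2helper53.MS
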