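import Mathlib

/-!
# Descending sequences in closed preorders
-/

set_option linter.unusedSectionVars false

namespace Pool.Agent.W2helper53.MS

open Cardinal Set

universe u

/-- decreasing sequences indexed by well-orders of size at most `c` have lower bounds -/
def Closed (c : Cardinal.{0}) (Q : Type u) [Preorder Q] : Prop :=
  ∀ (I : Type) [LinearOrder I] [WellFoundedLT I] (f : I → Q), #I ≤ c → Nonempty I →
    (∀ i j, i ≤ j → f j ≤ f i) → ∃ v, ∀ i, v ≤ f i

theorem exists_desc {Q : Type u} [Preorder Q] {I : Type} [LinearOrder I] [WellFoundedLT I]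
    {c : Cardinal.{0}} (hI : #I ≤ c) (hcl : Closed c Q) (step : I → Q → Q)
    (hstep : ∀ t v, step t v ≤ v) (q : Q) :
    ∃ f : I → Q, (∀ i j, i ≤ j → f j ≤ f i) ∧ (∀ i, f i ≤ q) ∧
      ∀ t, ∃ v, v ≤ q ∧ (∀ i < t, v ≤ f i) ∧ f t = step t v := by
  classical
  let pre : (t : I) → ((i : I) → i < t → Q) → Q := fun t g =>
    if h : ∃ v, v ≤ q ∧ ∀ i hi, v ≤ g i hi then h.choose else q
  let f : I → Q := (wellFounded_lt (α := I)).fix fun t g => step t (pre t g)
  have hf : ∀ t, f t = step t (pre t fun i _ => f i) := fun t =>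
    WellFounded.fix_eq (wellFounded_lt (α := I)) (fun t g => step t (pre t g)) t
  have key : ∀ t, (∀ i < t, f t ≤ f i) ∧ f t ≤ q ∧ (pre t fun i _ => f i) ≤ q ∧
      ∀ i < t, (pre t fun i _ => f i) ≤ f i := by
    intro t
    induction t using (wellFounded_lt (α := I)).induction with
    | _ t ih =>
      have h : ∃ v, v ≤ q ∧ ∀ i, i < t → v ≤ f i := by
        by_cases hne : Nonempty (Iio t)
        · obtain ⟨v, hv⟩ := hcl (Iio t) (fun i => f i) ((mk_subtype_le _).trans hI) hne
            (by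
              rintro ⟨i, hi⟩ ⟨j, hj⟩ hij
              rcases eq_or_lt_of_le (show i ≤ j from hij) with h1 | h1
              · subst h1
                exact le_rfl
              · exact (ih j hj).1 i h1)
          obtain ⟨i⟩ := hne
          exact ⟨v, (hv i).trans (ih i i.2).2.1, fun i hi => hv ⟨i, hi⟩⟩
        · exact ⟨q, le_rfl, fun i hi => absurd ⟨⟨i, hi⟩⟩ hne⟩
      have h1 : (pre t fun i _ => f i) ≤ q ∧ ∀ i < t, (pre t fun i _ => f i) ≤ f i := by
        simp only [pre]
        rw [dif_pos h]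
        exact h.choose_spec
      refine ⟨fun i hi => ?_, ?_, h1⟩
      · rw [hf t]
        exact (hstep _ _).trans (h1.2 i hi)
      · rw [hf t]
        exact (hstep _ _).trans h1.1
  refine ⟨f, fun i j hij => ?_, fun i => (key i).2.1, fun t => ⟨_, (key t).2.2.1, (key t).2.2.2,
    hf t⟩⟩
  rcases eq_or_lt_of_le hij with h1 | h1
  · subst h1
    exact le_rfl
  · exact (key j).1 i h1

/-- a condition deciding, as well as possible, membership in few open sets -/
theorem universal {Q : Type u} [Preorder Q] {T : Type} {c : Cardinal.{0}} (hT : #T ≤ c)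
    (hcl : Closed c Q) (E : T → Set Q) (hE : ∀ s, ∀ u ∈ E s, ∀ v ≤ u, v ∈ E s) (q : Q) :
    ∃ v ≤ q, ∀ s, (∃ v' ≤ v, v' ∈ E s) → v ∈ E s := by
  classical
  by_cases hne : Nonempty T
  · obtain ⟨hlin, hwf⟩ := exists_wellFoundedLT T
    let step : T → Q → Q := fun s v => if h : ∃ v' ≤ v, v' ∈ E s then h.choose else v
    obtain ⟨f, hf1, hf2, hf3⟩ := exists_desc hT hcl step (by
      intro s v
      simp only [step]
      split_ifs with h
      · exact h.choose_spec.1
      · exact le_rfl) q
    obtain ⟨v, hv⟩ := hcl T f hT hne hf1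
    obtain ⟨s0⟩ := hne
    refine ⟨v, (hv s0).trans (hf2 s0), ?_⟩
    rintro s ⟨v', hv', h1⟩
    obtain ⟨w, _, _, hw⟩ := hf3 s
    have h3 : f s ≤ w := by
      rw [hw]
      simp only [step]
      split_ifs with h
      · exact h.choose_spec.1
      · exact le_rfl
    have h2 : ∃ v' ≤ w, v' ∈ E s := ⟨v', (hv'.trans (hv s)).trans h3, h1⟩
    refine hE s (f s) ?_ v (hv s)
    rw [hw]
    simp only [step]
    rw [dif_pos h2]
    exact h2.choose_spec.2
  · exact ⟨q, le_rfl, fun s => absurd ⟨s⟩ hne⟩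

end Pool.Agent.W2helper53.MS
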