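import Pool.Agent.W2helper53.MS.Card

/-!
# Conditions of the Levy collapses, chain condition, good points
-/

set_option linter.unusedSectionVars false

namespace Pool.Agent.W2helper53.MS

open Cardinal Set Pool.Agent.V11248.Pk

section

variable {κ : Cardinal.{0}} {K : Type} [LinearOrder K] [WellFoundedLT K] {U : Ultrafilter K}

/-- sets of triples `(x, i, a)`; such a triple says that the `i`-th value of the collapsing map
onto `x` is `a` -/
abbrev C (K : Type) := Set (K × K × K)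

/-- a condition of the Levy collapse: a partial function of size less than the cardinal point `γ`,
which maps pairs `(x, i)` with `i < γ` to ordinals below `x` -/
structure IsCol (γ : K) (f : C K) : Prop where
  fn : ∀ x i a b, (x, i, a) ∈ f → (x, i, b) ∈ f → a = b
  dom : ∀ x i a, (x, i, a) ∈ f → i < γ ∧ a < x
  sm : #f < sz γ

/-- all triples have first coordinate below `y` -/
def Bel (f : C K) (y : K) : Prop := ∀ e ∈ f, e.1 < y

/-- the part of `f` below `y` -/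
def res (f : C K) (y : K) : C K := {e | e ∈ f ∧ e.1 < y}

/-- triples of elements at most `δ` -/
def box (δ : K) : C K := {e | e.1 ≤ δ ∧ e.2.1 ≤ δ ∧ e.2.2 ≤ δ}

theorem res_subset (f : C K) (y : K) : res f y ⊆ f := fun _ he => he.1

theorem res_bel (f : C K) (y : K) : Bel (res f y) y := fun _ he => he.2

theorem res_mono {f g : C K} (h : f ⊆ g) (y : K) : res f y ⊆ res g y := fun _ he => ⟨h he.1, he.2⟩

theorem Bel.mono {f : C K} {y z : K} (h : Bel f y) (hz : y ≤ z) : Bel f z :=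
  fun e he => (h e he).trans_le hz

theorem Bel.sub {f g : C K} {y : K} (h : Bel f y) (hz : g ⊆ f) : Bel g y :=
  fun e he => h e (hz he)

theorem res_eq_self {f : C K} {y : K} (h : Bel f y) : res f y = f :=
  Subset.antisymm (res_subset f y) fun e he => ⟨he, h e he⟩

theorem IsCol.sub {γ : K} {f g : C K} (h : IsCol γ f) (hg : g ⊆ f) : IsCol γ g :=
  ⟨fun x i a b h1 h2 => h.fn x i a b (hg h1) (hg h2), fun x i a h1 => h.dom x i a (hg h1),
    (mk_le_mk_of_subset hg).trans_lt h.sm⟩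

theorem isCol_empty (hN : Normal κ U) (a : K) : IsCol (nu a) (∅ : C K) :=
  ⟨fun _ _ _ _ h => absurd h (notMem_empty _), fun _ _ _ h => absurd h (notMem_empty _), by
    rw [mk_eq_zero]
    exact aleph0_pos.trans (aleph0_lt_nu hN a)⟩

theorem isCol_union (hN : Normal κ U) {a : K} {f g : C K} (hf : IsCol (nu a) f)
    (hg : IsCol (nu a) g)
    (h : ∀ x i b c, (x, i, b) ∈ f → (x, i, c) ∈ g → b = c) : IsCol (nu a) (f ∪ g) := by
  refine ⟨?_, ?_, ?_⟩
  · rintro x i b c (h1 | h1) (h2 | h2)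
    · exact hf.fn x i b c h1 h2
    · exact h x i b c h1 h2
    · exact (h x i c b h2 h1).symm
    · exact hg.fn x i b c h1 h2
  · rintro x i b (h1 | h1)
    · exact hf.dom x i b h1
    · exact hg.dom x i b h1
  · exact (mk_union_le f g).trans_lt (add_lt_of_lt (inf_nu hN a) hf.sm hg.sm)

theorem isCol_iUnion (hN : Normal κ U) {a : K} {ι : Type} (hι : #ι < sz (nu a)) {f : ι → C K}
    (hf : ∀ i, IsCol (nu a) (f i)) (hd : ∀ i j, ∃ k, f i ⊆ f k ∧ f j ⊆ f k) :
    IsCol (nu a) (⋃ i, f i) := by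
  refine ⟨?_, ?_, mk_iUnion_nu hN hι fun i => (hf i).sm⟩
  · intro x i b c h1 h2
    obtain ⟨j, h1⟩ := mem_iUnion.1 h1
    obtain ⟨k, h2⟩ := mem_iUnion.1 h2
    obtain ⟨l, h3, h4⟩ := hd j k
    exact (hf l).fn x i b c (h3 h1) (h4 h2)
  · intro x i b h1
    obtain ⟨j, h1⟩ := mem_iUnion.1 h1
    exact (hf j).dom x i b h1

theorem ae_bel (hN : Normal κ U) {f : C K} (hf : #f < κ) : {y | Bel f y} ∈ U := by
  obtain ⟨b, hb⟩ := hN.bdd ((fun e : K × K × K => e.1) '' f) (mk_image_le.trans_lt hf)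
  exact Filter.mem_of_superset (hN.tail b) fun y hy e he =>
    (hb _ (mem_image_of_mem _ he)).trans hy

theorem IsCol.lt (hN : Normal κ U) {γ : K} {f : C K} (h : IsCol γ f) : #f < κ :=
  h.sm.trans (hN.small γ)

theorem mk_box (hN : Normal κ U) (δ : K) : #(box δ) < κ := by
  have h1 : box δ = Iic δ ×ˢ (Iic δ ×ˢ Iic δ) := by
    ext e
    exact ⟨fun h => ⟨h.1, h.2.1, h.2.2⟩, fun h => ⟨h.1, h.2.1, h.2.2⟩⟩
  rw [h1, mk_setProd, mk_setProd]
  exact mul_lt_of_lt hN.unc.le (hN.smallIic δ) (mul_lt_of_lt hN.unc.le (hN.smallIic δ)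
    (hN.smallIic δ))

theorem mk_sub_box (hN : Normal κ U) (δ : K) : #{f : C K | f ⊆ box δ} < κ := by
  have h1 := hN.pow (mk_box hN δ)
  rw [mk_set, ← mk_powerset] at h1
  exact h1

/-- small sets below a regular point are bounded -/
theorem bdd_box {y a : K} (hy : Rg y) (ha : nu a < y) {f : C K}
    (hf : IsCol (nu a) f) (hb : Bel f y) : ∃ δ < y, f ⊆ box δ := by
  obtain ⟨c, hc, hc'⟩ := hy ((fun e : K × K × K => e.1) '' f)
    (by rintro _ ⟨e, he, rfl⟩; exact hb e he)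
    (mk_image_le.trans_lt (hf.sm.trans_le (sz_mono ha.le)))
  refine ⟨max c (nu a), max_lt hc ha, ?_⟩
  rintro ⟨x, i, b⟩ he
  have h1 : x < c := hc' _ (mem_image_of_mem _ he)
  obtain ⟨h2, h3⟩ := hf.dom x i b he
  exact ⟨h1.le.trans (le_max_left _ _), h2.le.trans (le_max_right _ _),
    (h3.trans h1).le.trans (le_max_left _ _)⟩

/-- pressing down for functions into the Levy collapse -/
theorem press (hN : Normal κ U) {a : K} {h : K → C K} (hh : ∀ x, IsCol (nu a) (h x)) :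
    ∃ f, IsCol (nu a) f ∧ {x | res (h x) x = f} ∈ U := by
  classical
  have h1 : ∀ x : K, ∃ δ, Rg x → nu a < x → δ < x ∧ res (h x) x ⊆ box δ := by
    intro x
    by_cases hx : Rg x ∧ nu a < x
    · obtain ⟨δ, h1, h2⟩ := bdd_box hx.1 hx.2 ((hh x).sub (res_subset _ x)) (res_bel _ x)
      exact ⟨δ, fun _ _ => ⟨h1, h2⟩⟩
    · exact ⟨x, fun h1 h2 => absurd ⟨h1, h2⟩ hx⟩
  choose δ hδ using h1
  have h2 := Filter.inter_mem (ae_reg hN) (hN.tail (nu a))
  obtain ⟨d, hd⟩ := hN.regressive δ (Filter.mem_of_superset h2 fun x hx => (hδ x hx.1 hx.2).1)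
  have h3 : {x | res (h x) x ∈ {f : C K | f ⊆ box d}} ∈ U := by
    refine Filter.mem_of_superset (Filter.inter_mem h2 hd) ?_
    rintro x ⟨⟨h4, h5⟩, h6⟩
    have h6' : δ x = d := h6
    rw [← h6']
    exact (hδ x h4 h5).2
  obtain ⟨f, _, hf⟩ := ae_const hN (mk_sub_box hN d) h3
  obtain ⟨x, hx⟩ := exU hf
  refine ⟨f, ?_, hf⟩
  have hx' : res (h x) x = f := hx
  rw [← hx']
  exact (hh x).sub (res_subset _ _)

/-- antichains in the Levy collapse of `κ` are small -/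
theorem kcc (hN : Normal κ U) {a : K} (W : Set (C K)) (h1 : ∀ f ∈ W, IsCol (nu a) f)
    (h2 : ∀ f ∈ W, ∀ g ∈ W, IsCol (nu a) (f ∪ g) → f = g) : #W < κ := by
  by_contra hcon
  push Not at hcon
  rw [← hN.card] at hcon
  obtain ⟨e⟩ := hcon
  obtain ⟨f, hf, hf'⟩ := press hN (a := a) (h := fun x => (e x : C K)) fun x => h1 _ (e x).2
  obtain ⟨x, hx⟩ := exU hf'
  obtain ⟨y, ⟨hy1, hy2⟩, hy3⟩ := exU (Filter.inter_mem (Filter.inter_mem hf' (hN.tail x))
    (ae_bel hN ((h1 _ (e x).2).lt hN)))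
  have h3 : (e x : C K) = e y := by
    refine h2 _ (e x).2 _ (e y).2 (isCol_union hN (h1 _ (e x).2) (h1 _ (e y).2) ?_)
    intro z i b c hb hc
    have h4 : z < y := hy3 _ hb
    have h5 : (z, i, c) ∈ res (e y : C K) y := ⟨hc, h4⟩
    have h6 : res (e y : C K) y = res (e x : C K) x := (show _ = f from hy1).trans
      (show _ = f from hx).symm
    rw [h6] at h5
    exact (h1 _ (e x).2).fn z i b c hb h5.1
  exact absurd (e.injective (Subtype.ext h3)) (ne_of_lt hy2)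

/-- from antichains to sets of decided values -/
theorem phi_form {V : Type} {c : Cardinal.{0}} {γ : K} {Q : C K → Prop}
    (h : ∀ W : Set (C K), (∀ f ∈ W, IsCol γ f ∧ Q f) →
      (∀ f ∈ W, ∀ g ∈ W, IsCol γ (f ∪ g) → f = g) → #W < c)
    (φ : C K → V → Prop) (h1 : ∀ f w, φ f w → IsCol γ f ∧ Q f)
    (h2 : ∀ f g w v, φ f w → φ g v → IsCol γ (f ∪ g) → w = v) : #{w | ∃ f, φ f w} < c := by
  choose F hF using fun w : {w | ∃ f, φ f w} => w.2
  have h3 := h (range F) (by rintro _ ⟨w, rfl⟩; exact h1 _ _ (hF w)) (by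
    rintro _ ⟨w, rfl⟩ _ ⟨v, rfl⟩ h4
    have h5 : w = v := Subtype.ext (h2 _ _ _ _ (hF w) (hF v) h4)
    rw [h5])
  refine lt_of_le_of_lt ?_ h3
  rw [mk_range_eq]
  intro w v hwv
  refine Subtype.ext (h2 _ _ _ _ (hF w) (hF v) ?_)
  rw [hwv, union_self]
  exact (h1 _ _ (hF v)).1

/-- the Levy collapses below `y` have antichains smaller than `y` only -/
def CC (y : K) : Prop := ∀ a, nu a < y → ∀ W : Set (C K), (∀ f ∈ W, IsCol (nu a) f ∧ Bel f y) →
  (∀ f ∈ W, ∀ g ∈ W, IsCol (nu a) (f ∪ g) → f = g) → #W < sz y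

theorem ae_cc (hN : Normal κ U) : {y : K | CC y} ∈ U := by
  classical
  by_contra hcon
  have h0 : {y : K | ¬ CC y} ∈ U := by
    rcases ae_or (U := U) {y | CC y} with h | h
    · exact absurd h hcon
    · exact h
  have h1 : ∀ y : K, ∃ (a : K) (W : Set (C K)), ¬ CC y → nu a < y ∧
      (∀ f ∈ W, IsCol (nu a) f ∧ Bel f y) ∧
      (∀ f ∈ W, ∀ g ∈ W, IsCol (nu a) (f ∪ g) → f = g) ∧ sz y ≤ #W := by
    intro y
    by_cases hy : CC y
    · exact ⟨y, ∅, fun h => absurd hy h⟩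
    · have hy' := hy
      unfold CC at hy'
      push Not at hy'
      obtain ⟨a, ha, W, hW⟩ := hy'
      exact ⟨a, W, fun _ => ⟨ha, hW⟩⟩
  choose a W hW using h1
  have h2 := Filter.inter_mem h0 (ae_reg hN)
  obtain ⟨g, hg⟩ := hN.regressive a (Filter.mem_of_superset h2
    fun y hy => (lt_nu hN _).trans (hW y hy.1).1)
  have h3 := Filter.inter_mem h2 hg
  have h4 : ∀ δ : K, ∃ Y : Set (C K), {y | {f | f ∈ W y ∧ f ⊆ box δ} = Y} ∈ U := by
    intro δ
    have h5 : #{Y : Set (C K) | Y ⊆ {f : C K | f ⊆ box δ}} < κ := by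
      have h6 := hN.pow (mk_sub_box hN δ)
      rw [mk_set, ← mk_powerset] at h6
      exact h6
    obtain ⟨Y, _, hY⟩ := ae_const hN h5 (F := fun y => {f | f ∈ W y ∧ f ⊆ box δ})
      (Filter.univ_mem' fun y f hf => hf.2)
    exact ⟨Y, hY⟩
  choose Y hY using h4
  have h5 := Filter.inter_mem h3 (hN.normal _ hY)
  have h6 : #(⋃ δ, Y δ) < κ := by
    have h7 : ∀ f ∈ ⋃ δ, Y δ, ∀ f' ∈ ⋃ δ, Y δ, ∃ y, ¬ CC y ∧ a y = g ∧ f ∈ W y ∧ f' ∈ W y := by
      intro f hf f' hf'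
      obtain ⟨δ, hf⟩ := mem_iUnion.1 hf
      obtain ⟨δ', hf'⟩ := mem_iUnion.1 hf'
      obtain ⟨y, ⟨⟨⟨hy1, hy2⟩, hy3⟩, hy4⟩, hy5, hy6⟩ := exU (Filter.inter_mem h5
        (Filter.inter_mem (hN.tail δ) (hN.tail δ')))
      have h8 : {f | f ∈ W y ∧ f ⊆ box δ} = Y δ := hy4 δ hy5
      have h9 : {f | f ∈ W y ∧ f ⊆ box δ'} = Y δ' := hy4 δ' hy6
      rw [← h8] at hf
      rw [← h9] at hf'
      exact ⟨y, hy1, hy3, hf.1, hf'.1⟩
    refine kcc hN (a := g) _ (fun f hf => ?_) fun f hf f' hf' hff => ?_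
    · obtain ⟨y, hy1, hy2, hy3, _⟩ := h7 f hf f hf
      rw [← hy2]
      exact ((hW y hy1).2.1 f hy3).1
    · obtain ⟨y, hy1, hy2, hy3, hy4⟩ := h7 f hf f' hf'
      rw [← hy2] at hff
      exact (hW y hy1).2.2.1 f hy3 f' hy4 hff
  obtain ⟨b, hb⟩ := exists_sz hN (kcard hN h6)
  obtain ⟨y, ⟨⟨⟨hy1, hy2⟩, hy3⟩, hy4⟩, hy5⟩ := exU (Filter.inter_mem h5 (hN.tail b))
  obtain ⟨h7, h8, _, h9⟩ := hW y hy1
  have h10 : W y ⊆ ⋃ δ, Y δ := by
    intro f hf
    obtain ⟨δ, hδ, hfδ⟩ := bdd_box hy2 h7 (h8 f hf).1 (h8 f hf).2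
    refine mem_iUnion.2 ⟨δ, ?_⟩
    have h11 : {f | f ∈ W y ∧ f ⊆ box δ} = Y δ := hy4 δ hδ
    rw [← h11]
    exact ⟨hf, hfδ⟩
  have h11 := (h9.trans (mk_le_mk_of_subset h10)).trans_lt (Order.lt_succ _)
  exact absurd (h11.trans_le (hb.trans (sz_mono (le_of_lt hy5)))) (lt_irrefl _)

/-! ### Stems and lists -/

/-- stems: finite sequences of points with conditions of collapses -/
abbrev St (K : Type) := List (K × C K)

def bdSt (t : St K) (δ : K) : Prop := ∀ a ∈ t, a.1 ≤ δ ∧ a.2 ⊆ box δ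

def bdL (X : List K) (δ : K) : Prop := ∀ z ∈ X, z ≤ δ

def bdLL (X : List (List K)) (δ : K) : Prop := ∀ l ∈ X, bdL l δ

theorem mk_list_small (hN : Normal κ U) {S : Type} (p : S → Prop) (h : #{s // p s} < κ) :
    #{l : List S // ∀ s ∈ l, p s} < κ := by
  have h1 : #{l : List S // ∀ s ∈ l, p s} ≤ #(List {s // p s}) := by
    refine mk_le_of_injective (f := fun l => l.1.pmap Subtype.mk l.2) ?_
    intro l l' hl
    have h2 := congrArg (List.map Subtype.val) hl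
    simp only [List.map_pmap, List.pmap_eq_map, List.map_id'] at h2
    exact Subtype.ext h2
  refine h1.trans_lt ((mk_list_le_max _).trans_lt (max_lt hN.unc h))

theorem mk_prod_small (hN : Normal κ U) {S T : Type} (p : S → Prop) (q : T → Prop)
    (h : #{s // p s} < κ) (h' : #{s // q s} < κ) : #{x : S × T // p x.1 ∧ q x.2} < κ := by
  refine lt_of_le_of_lt ?_ (mul_lt_of_lt hN.unc.le h h')
  have h1 : #{x : S × T // p x.1 ∧ q x.2} ≤ #({s // p s} × {s // q s}) := by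
    refine mk_le_of_injective (f := fun x => (⟨x.1.1, x.2.1⟩, ⟨x.1.2, x.2.2⟩)) ?_
    intro x y hxy
    simp only [Prod.mk.injEq, Subtype.mk.injEq] at hxy
    exact Subtype.ext (Prod.ext hxy.1 hxy.2)
  refine h1.trans ?_
  rw [mk_prod, lift_id, lift_id]

theorem mk_bdL (hN : Normal κ U) (δ : K) : #{X : List K // bdL X δ} < κ :=
  mk_list_small hN (fun z => z ≤ δ) (hN.smallIic δ)

theorem mk_bdLL (hN : Normal κ U) (δ : K) : #{X : List (List K) // bdLL X δ} < κ :=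
  mk_list_small hN (fun z => bdL z δ) (mk_bdL hN δ)

theorem mk_bdSt (hN : Normal κ U) (δ : K) : #{t : St K // bdSt t δ} < κ :=
  mk_list_small hN (fun a : K × C K => a.1 ≤ δ ∧ a.2 ⊆ box δ)
    (mk_prod_small hN (fun x => x ≤ δ) (fun f : C K => f ⊆ box δ) (hN.smallIic δ)
      (mk_sub_box hN δ))

/-- the relation between the entry of a stem and later points -/
def Rel (a : K × C K) (y : K) : Prop := a.1 < y ∧ Bel a.2 y

theorem ae_rel (hN : Normal κ U) {a : K × C K} (ha : #a.2 < κ) : {y | Rel a y} ∈ U :=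
  Filter.inter_mem (hN.tail a.1) (ae_bel hN ha)

/-- the good points -/
structure Good (y : K) : Prop where
  unc : ℵ₀ < sz y
  lim : ∀ a < y, suc a < y
  rg : Rg y
  cc : CC y
  cnt : #{t : St K // ∃ δ < y, bdSt t δ} ≤ sz y

theorem ae_good (hN : Normal κ U) : {y : K | Good y} ∈ U := by
  filter_upwards [ae_unc hN, ae_limit hN, ae_reg hN, ae_cc hN, ae_count hN bdSt (mk_bdSt hN)]
    with y h1 h2 h3 h4 h5
  exact ⟨h1, h2, h3, h4, h5⟩

theorem Good.nu {y : K} (h : Good y) {a : K} (ha : a < y) : nu a < y := h.lim _ (h.lim _ ha)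

theorem Good.sz_lt (hN : Normal κ U) {y : K} (h : Good y) {a : K} (ha : a < y) : sz a < sz y :=
  (sz_lt_suc hN a).trans_le (sz_mono (h.lim a ha).le)

theorem Good.exists_bd {y : K} (h : Good y) {t : St K}
    (h1 : ∀ a ∈ t, IsCol (MS.nu a.1) a.2) (h2 : ∀ a ∈ t, Rel a y) : ∃ δ < y, bdSt t δ := by
  induction t with
  | nil =>
    have h3 : (0 : Cardinal.{0}) < sz y := aleph0_pos.trans h.unc
    obtain ⟨⟨z, hz⟩⟩ := mk_ne_zero_iff.1 h3.ne'
    exact ⟨z, hz, fun a ha => absurd ha (by simp)⟩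
  | cons a t ih =>
    obtain ⟨δ, hδ, hb⟩ := ih (fun a ha => h1 a (by simp [ha])) fun a ha => h2 a (by simp [ha])
    obtain ⟨h3, h4⟩ := h2 a (by simp)
    obtain ⟨d, hd, hd'⟩ := bdd_box h.rg (h.nu h3) (h1 a (by simp)) h4
    refine ⟨max δ (max d a.1), max_lt hδ (max_lt hd h3), ?_⟩
    intro b hb'
    rcases List.mem_cons.1 hb' with rfl | hb'
    · refine ⟨(le_max_right _ _).trans (le_max_right _ _), hd'.trans ?_⟩
      rintro e ⟨h5, h6, h7⟩
      have h8 : d ≤ max δ (max d b.1) := (le_max_left _ _).trans (le_max_right _ _)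
      exact ⟨h5.trans h8, h6.trans h8, h7.trans h8⟩
    · obtain ⟨h5, h6⟩ := hb b hb'
      refine ⟨h5.trans (le_max_left _ _), h6.trans ?_⟩
      rintro e ⟨h5, h6, h7⟩
      have h8 : δ ≤ max δ (max d a.1) := le_max_left _ _
      exact ⟨h5.trans h8, h6.trans h8, h7.trans h8⟩

end

end Pool.Agent.W2helper53.MS
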