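import Pool.Agent.W2helper53.MS.Col

/-!
# Prikry forcing with interleaved collapses
-/

set_option linter.unusedSectionVars false

namespace Pool.Agent.W2helper53.MS

open Cardinal Set Pool.Agent.V11248.Pk Pool.Agent.Helper669.Forcing

/-- `b` has the same point as `a` and a stronger condition of the collapse -/
def Ref {K : Type} (b a : K × C K) : Prop := b.1 = a.1 ∧ a.2 ⊆ b.2

/-- the stem `t'` has the same points as `t` and stronger conditions of the collapses -/
def Rf {K : Type} (t' t : St K) : Prop := List.Forall₂ Ref t' t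

section

variable {K : Type}

theorem Ref.refl (a : K × C K) : Ref a a := ⟨rfl, Subset.rfl⟩

theorem Ref.trans {a b c : K × C K} (h : Ref a b) (h' : Ref b c) : Ref a c :=
  ⟨h.1.trans h'.1, h'.2.trans h.2⟩

theorem Rf.refl (t : St K) : Rf t t := List.forall₂_same.2 fun a _ => Ref.refl a

theorem Rf.length {t t' : St K} (h : Rf t' t) : t'.length = t.length := h.length_eq

theorem Rf.trans {t t' t'' : St K} (h : Rf t'' t') (h' : Rf t' t) : Rf t'' t := by
  unfold Rf at h h' ⊢
  induction h generalizing t with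
  | nil => exact h'
  | cons h1 h2 ih =>
    cases h' with
    | cons h3 h4 => exact List.Forall₂.cons (h1.trans h3) (ih h4)

theorem Rf.mem {t t' : St K} (h : Rf t' t) {a : K × C K} (ha : a ∈ t) : ∃ b ∈ t', Ref b a := by
  unfold Rf at h
  induction h with
  | nil => exact absurd ha (by simp)
  | cons h1 h2 ih =>
    rcases List.mem_cons.1 ha with rfl | ha
    · exact ⟨_, by simp, h1⟩
    · obtain ⟨b, hb, hb'⟩ := ih ha
      exact ⟨b, by simp [hb], hb'⟩

theorem Rf.mem' {t t' : St K} (h : Rf t' t) {b : K × C K} (hb : b ∈ t') : ∃ a ∈ t, Ref b a := by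
  unfold Rf at h
  induction h with
  | nil => exact absurd hb (by simp)
  | cons h1 h2 ih =>
    rcases List.mem_cons.1 hb with rfl | hb
    · exact ⟨_, by simp, h1⟩
    · obtain ⟨a, ha, hb'⟩ := ih hb
      exact ⟨a, by simp [ha], hb'⟩

theorem Rf.take {t t' : St K} (h : Rf t' t) (n : ℕ) : Rf (t'.take n) (t.take n) :=
  List.forall₂_take n h

theorem Rf.drop {t t' : St K} (h : Rf t' t) (n : ℕ) : Rf (t'.drop n) (t.drop n) :=
  List.forall₂_drop n h

theorem Rf.append {t t' u u' : St K} (h : Rf t' t) (h' : Rf u' u) : Rf (t' ++ u') (t ++ u) :=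
  List.rel_append h h'

theorem Rf.single {a b : K × C K} (h : Ref b a) : Rf [b] [a] := List.Forall₂.cons h List.Forall₂.nil

theorem Rf.get {t t' : St K} (h : Rf t' t) {n : ℕ} (hn : n < t'.length) (hn' : n < t.length) :
    Ref t'[n] t[n] := List.Forall₂.get h hn hn'

end

section

variable {κ : Cardinal.{0}} {K : Type} [LinearOrder K] [WellFoundedLT K]

/-- The stems of conditions: the first point is the least point `bot`, the other points are in
`B`, the condition of the collapse attached to a point is below the next point. -/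
structure IsStem (B : Set K) (bot : K) (t : St K) : Prop where
  head : ∃ f t', t = (bot, f) :: t'
  mem : ∀ a ∈ t, a.1 = bot ∨ a.1 ∈ B
  pw : t.Pairwise fun a b => Rel a b.1
  col : ∀ a ∈ t, IsCol (nu a.1) a.2

/-- The conditions of the Prikry forcing with collapses: a stem `t`, a set `A` in the measure, and
for every point `x` a condition `c x` of the collapse. -/
structure Cond (U : Ultrafilter K) (B : Set K) (bot : K) where
  t : St K
  A : Set K
  c : K → C K
  stem : IsStem B bot t
  memU : A ∈ U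
  sub : A ⊆ B
  above : ∀ a ∈ t, ∀ y ∈ A, Rel a y
  col : ∀ x, IsCol (nu x) (c x)

variable {U : Ultrafilter K} {B : Set K} {bot : K}

theorem Rel.ref {a b : K × C K} {y : K} (h : Rel b y) (h' : Ref b a) : Rel a y :=
  ⟨h'.1 ▸ h.1, h.2.sub h'.2⟩

instance : Preorder (Cond U B bot) where
  le q p := Rf (q.t.take p.t.length) p.t ∧
    (∀ a ∈ q.t.drop p.t.length, a.1 ∈ p.A ∧ p.c a.1 ⊆ a.2) ∧ q.A ⊆ p.A ∧ ∀ x ∈ q.A, p.c x ⊆ q.c x
  le_refl p := ⟨by rw [List.take_length]; exact Rf.refl _, by simp, Subset.rfl, fun _ _ => Subset.rfl⟩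
  le_trans := by
    rintro r q p ⟨h1, h2, h3, h4⟩ ⟨h5, h6, h7, h8⟩
    have hl : p.t.length ≤ q.t.length := by
      have := h5.length
      rw [List.length_take] at this
      omega
    refine ⟨?_, ?_, h3.trans h7, fun x hx => (h8 x (h3 hx)).trans (h4 x hx)⟩
    · have h9 := (h1.take p.t.length).trans h5
      rwa [List.take_take, min_eq_left hl] at h9
    · intro a ha
      have h9 : r.t.drop p.t.length = ((r.t.take q.t.length).drop p.t.length) ++
          r.t.drop q.t.length := by
        rw [← List.drop_append_of_le_length, List.take_append_drop]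
        have := h1.length
        omega
      rw [h9] at ha
      rcases List.mem_append.1 ha with ha | ha
      · obtain ⟨b, hb, hb'⟩ := (h1.drop p.t.length).mem' ha
        obtain ⟨h10, h11⟩ := h6 b hb
        rw [hb'.1]
        exact ⟨h10, h11.trans hb'.2⟩
      · obtain ⟨h10, h11⟩ := h2 a ha
        exact ⟨h7 h10, (h8 _ h10).trans h11⟩

theorem le_def {q p : Cond U B bot} : q ≤ p ↔ Rf (q.t.take p.t.length) p.t ∧
    (∀ a ∈ q.t.drop p.t.length, a.1 ∈ p.A ∧ p.c a.1 ⊆ a.2) ∧ q.A ⊆ p.A ∧
      ∀ x ∈ q.A, p.c x ⊆ q.c x := Iff.rfl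

theorem length_le {q p : Cond U B bot} (h : q ≤ p) : p.t.length ≤ q.t.length := by
  have := h.1.length
  rw [List.length_take] at this
  omega

theorem IsStem.pos {t : St K} (h : IsStem B bot t) : 0 < t.length := by
  obtain ⟨f, t', rfl⟩ := h.head
  simp

theorem IsStem.take {t : St K} (h : IsStem B bot t) {n : ℕ} (hn : 0 < n) :
    IsStem B bot (t.take n) := by
  refine ⟨?_, fun a ha => h.mem a (List.mem_of_mem_take ha), ?_,
    fun a ha => h.col a (List.mem_of_mem_take ha)⟩
  · obtain ⟨f, t', rfl⟩ := h.head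
    obtain ⟨m, rfl⟩ := Nat.exists_eq_succ_of_ne_zero hn.ne'
    exact ⟨f, t'.take m, by simp⟩
  · exact h.pw.sublist (List.take_sublist _ _)

/-- The parameters: a normal measure, a set of good points in the measure, the least point. -/
structure Su (κ : Cardinal.{0}) (U : Ultrafilter K) (B : Set K) (bot : K) : Prop where
  hN : Normal κ U
  hB : B ∈ U
  good : ∀ y ∈ B, Good y
  hbot : ∀ x, bot ≤ x

theorem IsStem.pt_ne {t : St K} (h : IsStem B bot t) {n : ℕ} (hn : 0 < n) {a : K × C K}
    (ha : a ∈ t.drop n) : a.1 ∈ B ∧ ∀ b ∈ t.take n, Rel b a.1 := by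
  have h1 : ∀ b ∈ t.take n, Rel b a.1 := by
    have h2 := h.pw
    rw [← List.take_append_drop n t, List.pairwise_append] at h2
    exact fun b hb => h2.2.2 b hb a ha
  refine ⟨?_, h1⟩
  obtain ⟨f, t', h3⟩ := (h.take hn).head
  have h4 := h1 (bot, f) (by rw [h3]; simp)
  rcases h.mem a (List.mem_of_mem_drop ha) with h5 | h5
  · rw [h5] at h4
    exact absurd h4.1 (lt_irrefl _)
  · exact h5

variable (S : Su κ U B bot)

include S

theorem Su.above {t : St K} (ht : IsStem B bot t) : {y | ∀ a ∈ t, Rel a y} ∈ U := by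
  have h1 : ∀ t' : St K, (∀ a ∈ t', #a.2 < κ) → {y | ∀ a ∈ t', Rel a y} ∈ U := by
    intro t'
    induction t' with
    | nil => exact fun _ => Filter.univ_mem' fun y a ha => absurd ha (by simp)
    | cons a t' ih =>
      intro h
      refine Filter.mem_of_superset (Filter.inter_mem (ae_rel S.hN (h a (by simp)))
        (ih fun b hb => h b (by simp [hb]))) ?_
      rintro y ⟨h1, h2⟩ b hb
      rcases List.mem_cons.1 hb with rfl | hb
      · exact h1
      · exact h2 b hb
  exact h1 t fun a ha => (ht.col a ha).lt S.hN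

/-- the condition with a given stem and upper part -/
def mkC (t : St K) (ht : IsStem B bot t) (A : Set K) (hA : A ∈ U) (c : K → C K)
    (hc : ∀ x, IsCol (nu x) (c x)) : Cond U B bot where
  t := t
  A := A ∩ (B ∩ {y | ∀ a ∈ t, Rel a y})
  c := c
  stem := ht
  memU := Filter.inter_mem hA (Filter.inter_mem S.hB (S.above ht))
  sub := fun _ hy => hy.2.1
  above := fun a ha y hy => hy.2.2 a ha
  col := hc

theorem le_mkC {t : St K} {ht : IsStem B bot t} {A : Set K} {hA : A ∈ U} {c : K → C K}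
    {hc : ∀ x, IsCol (nu x) (c x)} {r : Cond U B bot} :
    r ≤ mkC S t ht A hA c hc ↔ Rf (r.t.take t.length) t ∧
      (∀ a ∈ r.t.drop t.length, a.1 ∈ A ∧ c a.1 ⊆ a.2) ∧ r.A ⊆ A ∧ ∀ x ∈ r.A, c x ⊆ r.c x := by
  constructor
  · rintro ⟨h1, h2, h3, h4⟩
    exact ⟨h1, fun a ha => ⟨(h2 a ha).1.1, (h2 a ha).2⟩, fun y hy => (h3 hy).1, h4⟩
  · rintro ⟨h1, h2, h3, h4⟩
    refine ⟨h1, fun a ha => ⟨⟨(h2 a ha).1, ?_⟩, (h2 a ha).2⟩, fun y hy => ⟨h3 hy, r.sub hy, ?_⟩, h4⟩
    · obtain ⟨h5, h6⟩ := r.stem.pt_ne ht.pos ha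
      refine ⟨h5, fun b hb => ?_⟩
      obtain ⟨b', hb', hr⟩ := h1.mem hb
      exact (h6 b' hb').ref hr
    · intro b hb
      obtain ⟨b', hb', hr⟩ := h1.mem hb
      exact (r.above b' (List.mem_of_mem_take hb') y hy).ref hr

/-- the stem of `r` cut down to the length of the stem of `p`, with the upper part of `p` -/
def rst (r p : Cond U B bot) : Cond U B bot :=
  mkC S (r.t.take p.t.length) (r.stem.take p.stem.pos) p.A p.memU p.c p.col

theorem rst_t (r p : Cond U B bot) : (rst S r p).t = r.t.take p.t.length := rfl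

theorem rst_le {r p : Cond U B bot} (h : r ≤ p) : rst S r p ≤ p := by
  refine ⟨?_, ?_, fun y hy => hy.1, fun _ _ => Subset.rfl⟩
  · rw [rst_t, List.take_take, min_self]
    exact h.1
  · rw [rst_t, List.drop_eq_nil_of_le (by rw [List.length_take]; omega)]
    simp

theorem le_rst {r p : Cond U B bot} (h : r ≤ p) : r ≤ rst S r p := by
  have hl : (r.t.take p.t.length).length = p.t.length := h.1.length
  refine (le_mkC S).2 ⟨?_, ?_, h.2.2.1, h.2.2.2⟩
  · rw [hl]
    exact Rf.refl _
  · rw [hl]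
    exact h.2.1

theorem isStem_snoc {t : St K} (ht : IsStem B bot t) {y : K} (hy : y ∈ B)
    (h : ∀ a ∈ t, Rel a y) {g : C K} (hg : IsCol (nu y) g) : IsStem B bot (t ++ [(y, g)]) := by
  refine ⟨?_, ?_, ?_, ?_⟩
  · obtain ⟨f, t', rfl⟩ := ht.head
    exact ⟨f, t' ++ [(y, g)], by simp⟩
  · intro a ha
    rcases List.mem_append.1 ha with ha | ha
    · exact ht.mem a ha
    · rw [List.mem_singleton.1 ha]
      exact Or.inr hy
  · rw [List.pairwise_append]
    refine ⟨ht.pw, by simp, fun a ha b hb => ?_⟩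
    rw [List.mem_singleton.1 hb]
    exact h a ha
  · intro a ha
    rcases List.mem_append.1 ha with ha | ha
    · exact ht.col a ha
    · rw [List.mem_singleton.1 ha]
      exact hg

/-- adding a point -/
theorem exists_snoc (p : Cond U B bot) {y : K} (hy : y ∈ p.A) :
    ∃ q ≤ p, q.t = p.t ++ [(y, p.c y)] ∧ q.A ⊆ p.A ∧ q.c = p.c := by
  have ht := isStem_snoc S p.stem (p.sub hy) (fun a ha => p.above a ha y hy) (p.col y)
  refine ⟨mkC S _ ht p.A p.memU p.c p.col, ⟨?_, ?_, fun z hz => hz.1, fun _ _ => Subset.rfl⟩, rfl,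
    fun z hz => hz.1, rfl⟩
  · change Rf ((p.t ++ [(y, p.c y)]).take p.t.length) p.t
    rw [List.take_left]
    exact Rf.refl _
  · change ∀ a ∈ (p.t ++ [(y, p.c y)]).drop p.t.length, _
    rw [List.drop_left]
    intro a ha
    rw [List.mem_singleton.1 ha]
    exact ⟨hy, Subset.rfl⟩

theorem exists_length (n : ℕ) (p : Cond U B bot) : ∃ q ≤ p, n < q.t.length := by
  induction n with
  | zero => exact ⟨p, le_rfl, p.stem.pos⟩
  | succ n ih =>
    obtain ⟨q, hq, hn⟩ := ih
    obtain ⟨x, hx⟩ := exU q.memU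
    obtain ⟨r, hr, h1, _⟩ := exists_snoc S q hx
    exact ⟨r, hr.trans hq, by rw [h1]; simp; omega⟩

end

end Pool.Agent.W2helper53.MS
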