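import Pool.Agent.W2helper53.MS.Cards

/-!
# The positions of the cardinals
-/

set_option linter.unusedSectionVars false

namespace Pool.Agent.W2helper53.MS

open Cardinal Set Pool.Agent.V11248.Pk Pool.Agent.Helper669.Forcing

section

variable {κ : Cardinal.{0}} {K : Type} [LinearOrder K] [WellFoundedLT K] {U : Ultrafilter K}
  {B : Set K} {bot : K}

theorem not_card {P : Type} [Preorder P] {a x : K} (hax : a < x) {p : P}
    (h : ∀ q ≤ p, q ∈ Onto P a x) : p ∈ fnot (IsCard P x) :=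
  fun q hq hc => hc a hax q le_rfl (h q hq)

variable (S : Su κ U B bot)

include S

theorem sz_bot : sz bot = 0 := by
  unfold sz
  rw [mk_eq_zero_iff]
  exact ⟨fun x => absurd x.2 (not_lt.2 (S.hbot _))⟩

theorem aleph_zero (p : Cond U B bot) : p ∈ Aleph (Cond U B bot) 0 (suc (pt p 0)) := by
  rw [pt_zero S]
  refine ⟨?_, fun y hy => ?_⟩
  · rw [← Set.infinite_coe_iff, Cardinal.infinite_iff]
    exact inf_suc S.hN _
  · have h1 := sz_lt_of_lt_suc S.hN hy
    rw [sz_bot S, max_eq_left (Order.succ_le_of_lt aleph0_pos)] at h1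
    rw [← Set.finite_coe_iff]
    exact lt_aleph0_iff_finite.1 h1

theorem aleph_step1 {p : Cond U B bot} {j n : ℕ} (hj : j < p.t.length)
    (h : p ∈ Aleph (Cond U B bot) n (suc (pt p j))) :
    p ∈ Aleph (Cond U B bot) (n + 1) (nu (pt p j)) := by
  refine ⟨card_nu_pt S hj, mem_fex_of_mem (suc (pt p j)) (down_fand (down_fground _)
    (down_fand (down_Aleph _ _) (down_fall fun _ => down_fall fun _ => down_fall fun _ =>
      down_fnot _))) ⟨lt_suc S.hN _, h, fun z hz1 hz2 => ?_⟩⟩
  refine not_card hz1 fun q _ => onto_ground ?_ q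
  have h1 := sz_lt_of_lt_suc S.hN hz2
  rw [max_eq_right ((inf_suc S.hN _).trans (Order.le_succ _))] at h1
  exact Order.lt_succ_iff.1 h1

theorem aleph_step2 {p : Cond U B bot} {j n : ℕ} (hj : j + 1 < p.t.length)
    (h : p ∈ Aleph (Cond U B bot) n (nu (pt p j))) :
    p ∈ Aleph (Cond U B bot) (n + 1) (pt p (j + 1)) := by
  have hlt : pt p j < pt p (j + 1) := by
    rw [pt_eq hj, pt_eq (show j < p.t.length by omega)]
    exact (List.pairwise_iff_getElem.1 p.stem.pw j (j + 1) (by omega) hj (by omega)).1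
  refine ⟨card_pt S (by omega) hj, mem_fex_of_mem (nu (pt p j)) (down_fand (down_fground _)
    (down_fand (down_Aleph _ _) (down_fall fun _ => down_fall fun _ => down_fall fun _ =>
      down_fnot _))) ⟨(S.good _ (pt_B S (by omega) hj)).nu hlt, h, fun z hz1 hz2 => ?_⟩⟩
  refine not_card hz1 fun q hq => ?_
  have h1 : pt q j = pt p j := pt_le hq (by omega)
  have h2 := onto_gen S (p := q) (hj.trans_le (length_le hq)) (x := z) (by
    rw [pt_le hq hj]
    exact hz2)
  rwa [h1] at h2

theorem aleph_step3 {p : Cond U B bot} {j n : ℕ} (hj0 : 1 ≤ j) (hj : j < p.t.length)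
    (h : p ∈ Aleph (Cond U B bot) n (pt p j)) :
    p ∈ Aleph (Cond U B bot) (n + 1) (suc (pt p j)) := by
  refine ⟨card_suc_pt S hj0 hj, mem_fex_of_mem (pt p j) (down_fand (down_fground _)
    (down_fand (down_Aleph _ _) (down_fall fun _ => down_fall fun _ => down_fall fun _ =>
      down_fnot _))) ⟨lt_suc S.hN _, h, fun z hz1 hz2 => ?_⟩⟩
  refine not_card hz1 fun q _ => onto_ground ?_ q
  have h1 := sz_lt_of_lt_suc S.hN hz2
  rw [max_eq_right ((S.good _ (pt_B S hj0 hj)).unc.le.trans (Order.le_succ _))] at h1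
  exact Order.lt_succ_iff.1 h1

theorem aleph_pos (m : ℕ) (p : Cond U B bot) (hm : m < p.t.length) :
    p ∈ Aleph (Cond U B bot) (3 * m) (suc (pt p m)) ∧
      p ∈ Aleph (Cond U B bot) (3 * m + 1) (nu (pt p m)) := by
  induction m with
  | zero =>
    have h1 := aleph_zero S p
    exact ⟨h1, aleph_step1 S hm h1⟩
  | succ m ih =>
    obtain ⟨_, h2⟩ := ih (by omega)
    have h3 := aleph_step2 S hm h2
    have h4 := aleph_step3 S (by omega) hm h3
    have h5 : 3 * (m + 1) = 3 * m + 1 + 1 + 1 := by ring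
    rw [h5]
    exact ⟨h4, aleph_step1 S hm h4⟩

theorem aleph_pos2 (m : ℕ) (p : Cond U B bot) (hm : m + 1 < p.t.length) :
    p ∈ Aleph (Cond U B bot) (3 * m + 2) (pt p (m + 1)) :=
  aleph_step2 S hm (aleph_pos S m p (by omega)).2

theorem exists_point (q : Cond U B bot) (y : K) :
    ∃ r ≤ q, ∃ k, k + 1 < r.t.length ∧ y < pt r (k + 1) := by
  obtain ⟨x, hx1, hx2⟩ := exU (Filter.inter_mem q.memU (S.hN.tail y))
  obtain ⟨r, hr, h1, _⟩ := exists_snoc S q hx1
  have h0 := q.stem.pos
  refine ⟨r, hr, q.t.length - 1, ?_, ?_⟩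
  · rw [h1, List.length_append, List.length_singleton]
    omega
  · unfold pt
    rw [h1, show q.t.length - 1 + 1 = q.t.length by omega, List.getD_append_right _ _ _ _ le_rfl,
      Nat.sub_self]
    exact hx2

theorem isAlephOmega (p : Cond U B bot) : p ∈ IsAlephOmega (Cond U B bot) K := by
  refine ⟨fun n => mem_fex.2 fun q _ => ?_, fun y => mem_fex.2 fun q _ => ?_⟩
  · obtain ⟨r, hr, hl⟩ := exists_length S (n + 1) q
    refine ⟨r, hr, ?_⟩
    have h1 : n = 3 * (n / 3) + n % 3 := (Nat.div_add_mod n 3).symm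
    have h2 : n % 3 < 3 := Nat.mod_lt _ (by norm_num)
    have h3 : n / 3 ≤ n := Nat.div_le_self _ _
    generalize n / 3 = m at h1 h3
    generalize n % 3 = i at h1 h2
    subst h1
    interval_cases i
    · exact ⟨_, (aleph_pos S m r (by omega)).1⟩
    · exact ⟨_, (aleph_pos S m r (by omega)).2⟩
    · exact ⟨_, aleph_pos2 S m r (by omega)⟩
  · obtain ⟨r, hr, k, hk, hy⟩ := exists_point S q y
    refine ⟨r, hr, 3 * k + 2, ?_⟩
    exact mem_fex_of_mem _ (down_fand (down_fground _) (down_Aleph _ _))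
      ⟨hy, aleph_pos2 S k r hk⟩

end

end Pool.Agent.W2helper53.MS
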