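import Pool.Agent.W2helper53.MS.Lang

/-!
# Skolem functions in the forcing language
-/

set_option linter.unusedSectionVars false

namespace Pool.Agent.W2helper53.MS

open Cardinal Set Pool.Agent.Helper669.Forcing FirstOrder

section

variable {P : Type} [Preorder P] {K : Type} [LinearOrder K]

/-- The set named by `N` is closed under the functions named by `F`. -/
def ClosedUnder (F : ℕ → List K → K → Set P) (N : K → Set P) : Set P :=
  fall fun e : ℕ => fall fun ws : List K => fall fun w : K =>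
    fimp (fand (fall fun u => fall fun _ : u ∈ ws => meets (N u)) (meets (F e ws w)))
      (meets (N w))

theorem down_ClosedUnder (F : ℕ → List K → K → Set P) (N : K → Set P) :
    Down (ClosedUnder F N) :=
  down_fall fun _ => down_fall fun _ => down_fall fun _ => down_fimp _ _

/-- `meets` is local -/
theorem meets_reg {N : Set P} {p : P} (h : ∀ q ≤ p, ∃ r ≤ q, r ∈ meets N) : p ∈ meets N := by
  intro q hq
  obtain ⟨r, hr, h1⟩ := h q hq
  obtain ⟨s, hs, t, ht, hle⟩ := h1 r le_rfl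
  exact ⟨s, hs.trans hr, t, ht, hle⟩

theorem ClosedUnder.mem {F : ℕ → List K → K → Set P} {N : K → Set P} {p : P}
    (h : p ∈ ClosedUnder F N) {e : ℕ} {ws : List K} {w : K} (h1 : ∀ u ∈ ws, p ∈ meets (N u))
    (h2 : p ∈ meets (F e ws w)) : p ∈ meets (N w) := by
  refine meets_reg fun q hq => ?_
  exact mem_fimp.1 (h e ws w) q hq ⟨fun u hu => down_meets _ _ (h1 u hu) _ hq,
    down_meets _ _ h2 _ hq⟩

/-- the least witness -/
def Least (bot : K) (Y : K → Set P) (w : K) : Set P :=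
  {p | (p ∈ Y w ∧ ∀ u < w, p ∈ fnot (Y u)) ∨ (w = bot ∧ ∀ u, p ∈ fnot (Y u))}

theorem Least.down {bot : K} {Y : K → Set P} (hY : ∀ w, Down (Y w)) (w : K) :
    Down (Least bot Y w) := by
  rintro p (⟨h1, h2⟩ | ⟨h1, h2⟩) q hq
  · exact Or.inl ⟨hY w _ h1 _ hq, fun u hu => down_fnot _ _ (h2 u hu) _ hq⟩
  · exact Or.inr ⟨h1, fun u => down_fnot _ _ (h2 u) _ hq⟩

theorem Least.total [WellFoundedLT K] (bot : K) (Y : K → Set P) (p : P) :
    ∃ q ≤ p, ∃ w, q ∈ Least bot Y w := by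
  by_cases h : ∃ w, ∃ q ≤ p, q ∈ Y w
  · obtain ⟨w, hw, hmin⟩ := (wellFounded_lt (α := K)).has_min {w | ∃ q ≤ p, q ∈ Y w} h
    obtain ⟨q, hq, h1⟩ := hw
    exact ⟨q, hq, w, Or.inl ⟨h1, fun u hu r hr h2 => hmin u ⟨r, hr.trans hq, h2⟩ hu⟩⟩
  · push Not at h
    exact ⟨p, le_rfl, bot, Or.inr ⟨rfl, fun u q hq => h u q hq⟩⟩

theorem Least.uniq {bot : K} {Y : K → Set P} {p : P} {w w' : K} (h : p ∈ Least bot Y w)
    (h' : p ∈ Least bot Y w') : w = w' := by
  rcases h with ⟨h1, h2⟩ | ⟨h1, h2⟩ <;> rcases h' with ⟨h3, h4⟩ | ⟨h3, h4⟩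
  · rcases lt_trichotomy w w' with h | h | h
    · exact absurd h1 (h4 w h p le_rfl)
    · exact h
    · exact absurd h3 (h2 w' h p le_rfl)
  · exact absurd h1 (h4 w p le_rfl)
  · exact absurd h3 (h2 w' p le_rfl)
  · rw [h1, h3]

/-- the codes of the function symbols and of the formulas -/
abbrev Code (L : FirstOrder.Language.{0, 0}) : Type :=
  (Σ n, L.Functions n) ⊕ (Σ n, L.BoundedFormula Empty (n + 1))

/-- the functions: the functions of the structure and the Skolem functions -/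
def SkF {L : FirstOrder.Language.{0, 0}} (M : Str P K L) (bot : K) :
    Code L → List K → K → Set P
  | .inl ⟨n, f⟩, ws, w => {p | (∃ us : Fin n → K, List.ofFn us = ws ∧ p ∈ meets (M.fn f us w)) ∨
      ((∀ us : Fin n → K, List.ofFn us ≠ ws) ∧ w = bot)}
  | .inr ⟨n, φ⟩, ws, w => Least bot (fun u => {p | ∃ xs : Fin n → K, List.ofFn xs = ws ∧
      p ∈ fnot (Sat M φ (Fin.snoc xs u))}) w

theorem SkF_down {L : FirstOrder.Language.{0, 0}} (M : Str P K L) (bot : K) (c : Code L)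
    (ws : List K) (w : K) : Down (SkF M bot c ws w) := by
  rcases c with ⟨n, f⟩ | ⟨n, φ⟩
  · rintro p (⟨us, h1, h2⟩ | h1) q hq
    · exact Or.inl ⟨us, h1, down_meets _ _ h2 _ hq⟩
    · exact Or.inr h1
  · refine Least.down (P := P) (Y := fun u => {p | ∃ xs : Fin n → K, List.ofFn xs = ws ∧
      p ∈ fnot (Sat M φ (Fin.snoc xs u))}) ?_ w
    rintro u p ⟨xs, h1, h2⟩ q hq
    exact ⟨xs, h1, down_fnot _ _ h2 _ hq⟩

theorem SkF_isFun [WellFoundedLT K] {L : FirstOrder.Language.{0, 0}} {M : Str P K L} (bot : K)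
    {p : P} (hp : p ∈ IsStr M) {X : Type} (d : X → Code L) :
    p ∈ IsFun fun x : X × List K => SkF M bot (d x.1) x.2 := by
  refine ⟨?_, ?_⟩
  · rintro ⟨x, ws⟩
    refine mem_fex.2 fun q hq => ?_
    change ∃ r ≤ q, ∃ w, r ∈ meets (SkF M bot (d x) ws w)
    rcases d x with ⟨n, f⟩ | ⟨n, φ⟩
    · by_cases h : ∃ us : Fin n → K, List.ofFn us = ws
      · obtain ⟨us, hus⟩ := h
        obtain ⟨r, hr, w, h1⟩ := IsFun.total (down_IsFun _ _ (hp n f) _ hq) us
        exact ⟨r, hr, w, meets_of_mem (Or.inl ⟨us, hus, h1⟩)⟩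
      · push Not at h
        exact ⟨q, le_rfl, bot, meets_of_mem (Or.inr ⟨h, rfl⟩)⟩
    · obtain ⟨r, hr, w, h1⟩ := Least.total bot (fun u => {p | ∃ xs : Fin n → K,
        List.ofFn xs = ws ∧ p ∈ fnot (Sat M φ (Fin.snoc xs u))}) q
      exact ⟨r, hr, w, meets_of_mem h1⟩
  · rintro ⟨x, ws⟩ w w'
    refine mem_fimp.2 fun q hq ⟨h1, h2⟩ => ⟨q, le_rfl, ?_⟩
    change w = w'
    change q ∈ meets (SkF M bot (d x) ws w) at h1
    change q ∈ meets (SkF M bot (d x) ws w') at h2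
    obtain ⟨r, hr, h1⟩ := exists_of_meets (SkF_down M bot _ _ _) h1
    obtain ⟨s, hs, h2⟩ := exists_of_meets (SkF_down M bot _ _ _) (down_meets _ _ h2 _ hr)
    have h1 := SkF_down M bot _ _ _ _ h1 _ hs
    revert h1 h2
    rcases d x with ⟨n, f⟩ | ⟨n, φ⟩
    · rintro (⟨us, h1, h2⟩ | ⟨h1, h2⟩) (⟨us', h3, h4⟩ | ⟨h3, h4⟩)
      · have h5 : us = us' := List.ofFn_injective (h1.trans h3.symm)
        rw [← h5] at h4
        exact IsFun.unique (down_IsFun _ _ (hp n f) _ (hs.trans (hr.trans hq))) h4 h2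
      · exact absurd h1 (h3 us)
      · exact absurd h3 (h1 us')
      · rw [h2, h4]
    · intro h1 h2
      exact Least.uniq (P := P) (Y := fun u => {p | ∃ xs : Fin n → K, List.ofFn xs = ws ∧
        p ∈ fnot (Sat M φ (Fin.snoc xs u))}) h2 h1

theorem satIn_iff [WellFoundedLT K] {L : FirstOrder.Language.{0, 0}} {M : Str P K L} (bot : K)
    {p : P} {d : ℕ → Code L} (hd : Function.Surjective d) {N : K → Set P}
    (hN : p ∈ ClosedUnder (fun e => SkF M bot (d e)) N) {n : ℕ} (φ : L.BoundedFormula Empty n) :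
    ∀ (xs : Fin n → K), ∀ q ≤ p, (∀ i, q ∈ meets (N (xs i))) →
      (q ∈ SatIn M N φ xs ↔ q ∈ Sat M φ xs) := by
  induction φ with
  | falsum => exact fun _ _ _ _ => Iff.rfl
  | equal => exact fun _ _ _ _ => Iff.rfl
  | rel => exact fun _ _ _ _ => Iff.rfl
  | imp φ ψ ih1 ih2 =>
    intro xs q hq hxs
    have h1 : ∀ r ≤ q, ∀ i, r ∈ meets (N (xs i)) := fun r hr i => down_meets _ _ (hxs i) _ hr
    constructor
    · intro h
      refine mem_fimp.2 fun r hr h2 => ?_
      obtain ⟨s, hs, h3⟩ := mem_fimp.1 h r hr ((ih1 xs r (hr.trans hq) (h1 r hr)).2 h2)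
      exact ⟨s, hs, (ih2 xs s (hs.trans (hr.trans hq)) (h1 s (hs.trans hr))).1 h3⟩
    · intro h
      refine mem_fimp.2 fun r hr h2 => ?_
      obtain ⟨s, hs, h3⟩ := mem_fimp.1 h r hr ((ih1 xs r (hr.trans hq) (h1 r hr)).1 h2)
      exact ⟨s, hs, (ih2 xs s (hs.trans (hr.trans hq)) (h1 s (hs.trans hr))).2 h3⟩
  | @all n φ ih =>
    intro xs q hq hxs
    have h1 : ∀ r ≤ q, ∀ i, r ∈ meets (N (xs i)) := fun r hr i => down_meets _ _ (hxs i) _ hr
    have hsn : ∀ r ≤ q, ∀ a, r ∈ meets (N a) →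
        ∀ i, r ∈ meets (N ((Fin.snoc xs a : Fin (n + 1) → K) i)) := by
      intro r hr a ha i
      refine Fin.lastCases ?_ (fun i => ?_) i
      · rw [Fin.snoc_last]
        exact ha
      · rw [Fin.snoc_castSucc]
        exact h1 r hr i
    constructor
    · intro h a
      refine mem_fimp.2 fun r hr _ => ?_
      by_contra hcon
      push Not at hcon
      have h2 : r ∈ fnot (Sat M φ (Fin.snoc xs a)) := hcon
      obtain ⟨e, he⟩ := hd (Sum.inr ⟨n, φ⟩)
      obtain ⟨s, hs, w, h3⟩ := Least.total bot (fun u => {p | ∃ ys : Fin n → K,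
        List.ofFn ys = List.ofFn xs ∧ p ∈ fnot (Sat M φ (Fin.snoc ys u))}) r
      have h4 : s ∈ meets (N w) := by
        refine ClosedUnder.mem (down_ClosedUnder _ _ _ hN _ (hs.trans (hr.trans hq))) (e := e)
          (ws := List.ofFn xs) ?_ ?_
        · intro u hu
          obtain ⟨i, rfl⟩ := (List.mem_ofFn' _ _).1 hu
          exact h1 s (hs.trans hr) i
        · rw [he]
          exact meets_of_mem h3
      rcases h3 with ⟨⟨ys, h5, h6⟩, _⟩ | ⟨_, h5⟩
      · have h7 : ys = xs := List.ofFn_injective h5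
        rw [h7] at h6
        obtain ⟨t, ht, h8⟩ := mem_fimp.1 (h w) s (hs.trans hr) h4
        refine h6 t ht ((ih _ t (ht.trans (hs.trans (hr.trans hq)))
          (hsn t (ht.trans (hs.trans hr)) w (down_meets _ _ h4 _ ht))).1 h8)
      · exact h5 a s le_rfl ⟨xs, rfl, down_fnot _ _ h2 _ hs⟩
    · intro h a
      refine mem_fimp.2 fun r hr ha => ?_
      obtain ⟨s, hs, h3⟩ := mem_fimp.1 (h a) r hr (fun s _ => ⟨s, le_rfl, s, trivial, le_rfl⟩)
      exact ⟨s, hs, (ih _ s (hs.trans (hr.trans hq)) (hsn s (hs.trans hr) a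
        (down_meets _ _ ha _ hs))).2 h3⟩

theorem isElemSub [WellFoundedLT K] {L : FirstOrder.Language.{0, 0}} {M : Str P K L} (bot : K)
    {p : P} (hp : p ∈ IsStr M) {d : ℕ → Code L} (hd : Function.Surjective d) {N : K → Set P}
    (hN : p ∈ ClosedUnder (fun e => SkF M bot (d e)) N) : p ∈ IsElemSub M N := by
  refine ⟨mem_fex.2 fun q hq => ?_, ?_, ?_⟩
  · obtain ⟨r, hr, w, h1⟩ := IsFun.total (down_IsFun _ _ (SkF_isFun bot hp d) _ hq) (0, [])
    exact ⟨r, hr, w, ClosedUnder.mem (down_ClosedUnder _ _ _ hN _ (hr.trans hq))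
      (fun u hu => absurd hu (by simp)) h1⟩
  · intro n f us w
    refine mem_fimp.2 fun q hq ⟨h1, h2⟩ => ⟨q, le_rfl, ?_⟩
    obtain ⟨e, he⟩ := hd (Sum.inl ⟨n, f⟩)
    refine ClosedUnder.mem (down_ClosedUnder _ _ _ hN _ hq) (e := e) (ws := List.ofFn us) ?_ ?_
    · intro u hu
      obtain ⟨i, rfl⟩ := (List.mem_ofFn' _ _).1 hu
      exact h1 i
    · rw [he]
      exact meets_of_mem (Or.inl ⟨us, rfl, h2⟩)
  · intro n φ xs
    refine mem_fimp.2 fun q hq h1 => ⟨q, le_rfl, mem_fimp.2 fun r hr h2 => ⟨r, le_rfl, ?_⟩,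
      mem_fimp.2 fun r hr h2 => ⟨r, le_rfl, ?_⟩⟩
    · exact (satIn_iff bot hd hN φ xs r (hr.trans hq) fun i =>
        down_meets _ _ (h1 i) _ hr).1 h2
    · exact (satIn_iff bot hd hN φ xs r (hr.trans hq) fun i =>
        down_meets _ _ (h1 i) _ hr).2 h2

/-- enumerations of the codes -/
theorem exists_code (L : FirstOrder.Language.{0, 0}) [Countable L.Symbols] :
    ∃ d : ℕ → Code L, Function.Surjective d := by
  have h1 : Countable (Σ n, L.BoundedFormula Empty n) := inferInstance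
  have h2 : Countable (Σ n, L.BoundedFormula Empty (n + 1)) := by
    refine Function.Injective.countable
      (f := fun x : Σ n, L.BoundedFormula Empty (n + 1) =>
        (⟨x.1 + 1, x.2⟩ : Σ n, L.BoundedFormula Empty n)) ?_
    rintro ⟨n, φ⟩ ⟨m, ψ⟩ h
    simp only [Sigma.mk.injEq, Nat.add_right_cancel_iff] at h
    obtain ⟨rfl, h⟩ := h
    rw [eq_of_heq h]
  have h3 : Countable (Code L) := inferInstance
  have h4 : Nonempty (Code L) := ⟨Sum.inr ⟨0, .falsum⟩⟩
  exact exists_surjective_nat _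

end

end Pool.Agent.W2helper53.MS
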