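import Pool.Agent.W2helper53.MS.Tail3
import Pool.Agent.W2helper53.MS.Pos
import Pool.Agent.W2helper53.MS.Skol

/-!
# The cofinalities, the mixing of names, and the main theorem
-/

set_option linter.unusedSectionVars false

namespace Pool.Agent.W2helper53.MS

open Cardinal Set Pool.Agent.V11248.Pk Pool.Agent.Helper669.Forcing

/-! ### Mixing -/

section

variable {P : Type} [Preorder P]

theorem mix {X Y : Type} {p0 : P} (Ex : (X → Y → Set P) → Set P)
    (hloc : ∀ F F' r, r ∈ Ex F → (∀ s ≤ r, ∀ x y, s ∈ meets (F x y) ↔ s ∈ meets (F' x y)) →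
      r ∈ Ex F')
    (hdown : ∀ F, Down (Ex F))
    (h : ∀ F : X → Y → Set P, p0 ∈ IsFun F → ∃ q ≤ p0, q ∈ Ex F) :
    ∃ q ≤ p0, ∀ F : X → Y → Set P, q ∈ fimp (IsFun F) (Ex F) := by
  classical
  by_contra hcon
  push Not at hcon
  let E : Set P := {q | q ≤ p0 ∧ ∃ F : X → Y → Set P, q ∈ IsFun F ∧ ∀ r ≤ q, r ∉ Ex F}
  have hE : ∀ q ≤ p0, ∃ r ≤ q, r ∈ E := by
    intro q hq
    obtain ⟨F, hF⟩ := hcon q hq
    rw [mem_fimp] at hF
    push Not at hF
    obtain ⟨r, hr, h1, h2⟩ := hF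
    exact ⟨r, hr, hr.trans hq, F, h1, h2⟩
  -- a maximal antichain
  let AC : Set (Set P) := {W | W ⊆ E ∧ ∀ a ∈ W, ∀ b ∈ W, (∃ r, r ≤ a ∧ r ≤ b) → a = b}
  obtain ⟨W, hW⟩ : ∃ W, Maximal (· ∈ AC) W := by
    refine zorn_subset AC fun c hc hch => ⟨⋃₀ c, ⟨?_, ?_⟩, fun s hs => subset_sUnion_of_mem hs⟩
    · exact sUnion_subset fun s hs => (hc hs).1
    · rintro a ⟨s, hs, ha⟩ b ⟨t, ht, hb⟩ hab
      rcases hch.total hs ht with h1 | h1
      · exact (hc ht).2 a (h1 ha) b hb hab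
      · exact (hc hs).2 a ha b (h1 hb) hab
  have hWE := hW.prop.1
  have hWA := hW.prop.2
  have hWd : ∀ s ≤ p0, ∃ a ∈ W, ∃ r ≤ s, r ≤ a := by
    intro s hs
    obtain ⟨s', hs', h1⟩ := hE s hs
    by_contra hcon2
    push Not at hcon2
    have h2 : insert s' W ∈ AC := by
      refine ⟨insert_subset h1 hWE, ?_⟩
      rintro a (rfl | ha) b (rfl | hb) ⟨r, hra, hrb⟩
      · rfl
      · exact absurd hrb (hcon2 b hb r (hra.trans hs'))
      · exact absurd hra (hcon2 a ha r (hrb.trans hs'))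
      · exact hWA a ha b hb ⟨r, hra, hrb⟩
    have h3 : s' ∈ W := hW.le_of_ge h2 (subset_insert _ _) (mem_insert _ _)
    exact hcon2 s' h3 s' hs' le_rfl
  choose F hF1 hF2 using fun a : W => (hWE a.2).2
  let G : X → Y → Set P := fun x y => {r | ∃ a : W, r ≤ a ∧ r ∈ meets (F a x y)}
  have hG : ∀ (a : W) s, s ≤ (a : P) → ∀ x y, s ∈ meets (G x y) ↔ s ∈ meets (F a x y) := by
    intro a s hs x y
    constructor
    · intro h1
      refine meets_reg fun t ht => ?_
      obtain ⟨u, hu, v, ⟨b, hvb, hv⟩, huv⟩ := h1 t ht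
      have h2 : (a : P) = b := hWA a a.2 b b.2 ⟨u, hu.trans (ht.trans hs), huv.trans hvb⟩
      have h3 : a = b := Subtype.ext h2
      subst h3
      exact ⟨u, hu, down_meets _ _ hv _ huv⟩
    · intro h1 t ht
      exact ⟨t, le_rfl, t, ⟨a, ht.trans hs, down_meets _ _ h1 _ ht⟩, le_rfl⟩
  have hGF : p0 ∈ IsFun G := by
    refine ⟨fun x => mem_fex.2 fun s hs => ?_, fun x y y' => mem_fimp.2 fun s hs ⟨h1, h2⟩ => ?_⟩
    · obtain ⟨a, ha, r, hr, hra⟩ := hWd s hs
      obtain ⟨t, ht, y, h1⟩ := IsFun.total (down_IsFun _ _ (hF1 ⟨a, ha⟩) _ hra) x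
      exact ⟨t, ht.trans hr, y, (hG ⟨a, ha⟩ t (ht.trans hra) x y).2 h1⟩
    · obtain ⟨a, ha, r, hr, hra⟩ := hWd s hs
      refine ⟨r, hr, ?_⟩
      exact IsFun.unique (down_IsFun _ _ (hF1 ⟨a, ha⟩) _ hra)
        ((hG ⟨a, ha⟩ r hra x y).1 (down_meets _ _ h1 _ hr))
        ((hG ⟨a, ha⟩ r hra x y').1 (down_meets _ _ h2 _ hr))
  obtain ⟨q, hq, h1⟩ := h G hGF
  obtain ⟨a, ha, r, hr, hra⟩ := hWd q hq
  exact hF2 ⟨a, ha⟩ r hra (hloc G _ r (hdown _ _ h1 _ hr) fun s hs x y =>
    hG ⟨a, ha⟩ s (hs.trans hra) x y)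

variable {K : Type} [LinearOrder K]

theorem cofType_ground {N : K → Set P} {x z : K} {r : P} (v : Iio z → K) (hv : StrictMono v)
    (h1 : ∀ i, v i < x ∧ r ∈ meets (N (v i)))
    (h2 : ∀ w < x, ∀ s ≤ r, s ∈ meets (N w) → ∃ i, w < v i) : r ∈ CofType N x z := by
  have h0 : ∀ {a y : K} {s : P}, s ∈ meets {_p : P | ∃ h : a < z, v ⟨a, h⟩ = y} →
      ∃ h : a < z, v ⟨a, h⟩ = y := by
    intro a y s hs
    obtain ⟨_, _, _, h3, _⟩ := hs s le_rfl
    exact h3
  refine mem_fex_of_mem (fun a y => {_p : P | ∃ h : a < z, v ⟨a, h⟩ = y})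
    (down_fand (down_SingleValued _) (down_fand (down_fall fun _ => down_fall fun _ =>
      down_fex _) (down_fand (down_fall fun _ => down_fall fun _ => down_fall fun _ =>
        down_fimp _ _) (down_fand (down_fall fun _ => down_fall fun _ => down_fall fun _ =>
          down_fall fun _ => down_fall fun _ => down_fall fun _ => down_fimp _ _)
            (down_fall fun _ => down_fall fun _ => down_fimp _ _)))))
    ⟨?_, ?_, ?_, ?_, ?_⟩
  · intro a y y'
    refine mem_fimp.2 fun q _ ⟨h3, h4⟩ => ⟨q, le_rfl, ?_⟩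
    obtain ⟨_, h3⟩ := h0 h3
    obtain ⟨_, h4⟩ := h0 h4
    exact h3.symm.trans h4
  · intro a ha
    exact mem_fex_of_mem (v ⟨a, ha⟩) (down_meets _) (meets_of_mem ⟨ha, rfl⟩)
  · intro a ha y
    refine mem_fimp.2 fun q hq h3 => ⟨q, le_rfl, ?_⟩
    obtain ⟨_, rfl⟩ := h0 h3
    exact ⟨(h1 _).1, down_meets _ _ (h1 _).2 _ hq⟩
  · intro a a' haa ha' y y'
    refine mem_fimp.2 fun q _ ⟨h3, h4⟩ => ⟨q, le_rfl, ?_⟩
    obtain ⟨_, rfl⟩ := h0 h3
    obtain ⟨_, rfl⟩ := h0 h4
    exact hv (show (⟨a, _⟩ : Iio z) < ⟨a', _⟩ from haa)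
  · intro w hw
    refine mem_fimp.2 fun q hq h3 => ⟨q, le_rfl, ?_⟩
    obtain ⟨⟨a, ha⟩, h4⟩ := h2 w hw q hq h3
    refine mem_fex_of_mem a (down_fand (down_fground _) (down_fex _)) ⟨ha, ?_⟩
    exact mem_fex_of_mem (v ⟨a, ha⟩) (down_fand (down_meets _) (down_fground _))
      ⟨meets_of_mem ⟨ha, rfl⟩, h4⟩

theorem bddIn_ground {N : K → Set P} {x z : K} {r : P} (hx : Rg x) (hz : sz z < sz x)
    (v : Iio z → K) (h1 : ∀ i, v i < x)
    (h2 : ∀ w < x, ∀ s ≤ r, s ∈ meets (N w) → ∃ i, w < v i) : r ∈ BddIn N x := by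
  obtain ⟨δ, hδ, h3⟩ := hx (range v) (by rintro _ ⟨i, rfl⟩; exact h1 i)
    (mk_range_le.trans_lt hz)
  refine mem_fex_of_mem δ (down_fand (down_fground _) (down_fall fun _ => down_fall fun _ =>
    down_fimp _ _)) ⟨hδ, fun w hw => mem_fimp.2 fun q hq h4 => ⟨q, le_rfl, ?_⟩⟩
  obtain ⟨i, hi⟩ := h2 w hw q hq h4
  exact hi.trans (h3 _ ⟨i, rfl⟩)

end

section

variable {κ : Cardinal.{0}} {K : Type} [LinearOrder K] [WellFoundedLT K] {U : Ultrafilter K}
  {B : Set K} {bot : K}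

/-- the map from the natural numbers of the ground model, in the form of the predecessors of the
first infinite point -/
theorem exists_idx {z : K} (h1 : (Iio z).Infinite) (h2 : ∀ y < z, (Iio y).Finite) :
    ∃ f : Iio z → ℕ, StrictMono f ∧ ∀ k, ∃ i, k ≤ f i := by
  have h3 : ∀ i : Iio z, (Iio (i : K)).Finite := fun i => h2 i i.2
  have hm : StrictMono fun i : Iio z => (Iio (i : K)).ncard := by
    intro i j hij
    have h4 : (i : K) < j := hij
    exact ncard_lt_ncard ⟨Iio_subset_Iio h4.le, fun h5 => lt_irrefl _ (h5 h4)⟩ (h3 j)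
  refine ⟨_, hm, fun k => ?_⟩
  by_contra hcon
  push Not at hcon
  have h4 : Infinite (Iio z) := h1.to_subtype
  have h5 : (range fun i : Iio z => (Iio (i : K)).ncard).Finite :=
    (Set.finite_Iio k).subset (by rintro _ ⟨i, rfl⟩; exact hcon i)
  exact Set.infinite_range_of_injective hm.injective h5

theorem noMax_Iio {μ : K} (h : Rg μ) (h' : ℵ₀ ≤ sz μ) : NoMaxOrder (Iio μ) := by
  refine ⟨fun ⟨a, ha⟩ => ?_⟩
  obtain ⟨c, hc, h1⟩ := h {a} (by rintro x rfl; exact ha) (by
    rw [mk_singleton]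
    exact one_lt_aleph0.trans_le h')
  exact ⟨⟨c, hc⟩, h1 a rfl⟩

variable (S : Su κ U B bot) {p0 : Cond U B bot} {F : ℕ → List K → K → Set (Cond U B bot)}
  {hF : p0 ∈ IsFun fun x : ℕ × List K => F x.1 x.2}
  (D : Ch S p0 F hF (Iio (nu bot)))

include S D

theorem cofPattern {hΩ : #(Iio (nu bot)) < κ} {hΩB : ∀ y ∈ B, #(Iio (nu bot)) < sz y}
    (hl : p0.t.length = 1) : qq S D hΩ hΩB ∈ CofPattern (NN S D) := by
  have hN := S.hN
  have : Nonempty (Iio (nu bot)) := ⟨⟨bot, lt_nu hN bot⟩⟩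
  have : NoMaxOrder (Iio (nu bot)) := noMax_Iio (rg_nu hN bot) (inf_nu hN bot)
  have e : ∀ j, p0.t.length - 1 + j = j := fun j => by omega
  have hNN : ∀ {s : Cond U B bot} {w : K}, s ∈ meets (NN S D w) → ∃ t ≤ s, t ∈ NN S D w :=
    fun h => exists_of_meets (NN_down S D _) h
  intro n hn x
  refine mem_fimp.2 fun q hq hx => ?_
  obtain ⟨r, hr, hlr⟩ := exists_length S (n + 2) q
  have hrq := hr.trans hq
  have hx' := down_Aleph _ _ _ hx _ hr
  refine ⟨r, hr, ?_⟩
  have h1 : n = 3 * (n / 3) + n % 3 := (Nat.div_add_mod n 3).symm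
  have h2 : n % 3 < 3 := Nat.mod_lt _ (by norm_num)
  have h3 : n / 3 ≤ n := Nat.div_le_self _ _
  generalize n / 3 = m at h1 h3
  -- the statements on the points
  have hlt : pt r m < pt r (m + 1) := pt_lt (by omega) (by omega)
  have hg := S.good _ (pt_B S (p := r) (j := m + 1) (by omega) (by omega))
  have hnu : nu bot ≤ nu (pt r m) := nu_mono hN (S.hbot _)
  by_cases h4 : n % 3 = 2
  · have hx2 : x = pt r (m + 1) := by
      have h5 := aleph_pos2 S m r (by omega)
      rw [← h4, ← h1] at h5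
      exact Aleph.inj hx' h5
    subst hx2
    rw [if_pos h4]
    have hcof := cof_top S D (j := m) (hrq.trans le_rfl) (by omega)
    simp only [e] at hcof
    have hz0 := aleph_zero S r
    obtain ⟨f, hf1, hf2⟩ := exists_idx (z := suc (pt r 0)) hz0.1 hz0.2
    have hA : ∀ w < pt r (m + 1), ∀ s ≤ r, s ∈ meets (NN S D w) →
        ∃ i : Iio (suc (pt r 0)), w < D.a (pt r m) (f i) := by
      intro w hw s hs hsw
      obtain ⟨t, ht, h6⟩ := hNN hsw
      have htr := ht.trans hs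
      have hl2 := length_le htr
      have h7 := (cof_top S D (j := m) (htr.trans hrq) (by omega)).2 w
      simp only [e] at h7
      rw [pt_le htr (m := m) (by omega), pt_le htr (m := m + 1) (by omega)] at h7
      obtain ⟨k, hk⟩ := h7 hw h6
      obtain ⟨i, hi⟩ := hf2 k
      exact ⟨i, hk.trans_le ((strictMono_nat_of_lt_succ (D.amono (pt r m))).monotone hi)⟩
    refine ⟨bddIn_ground hg.rg ?_ (fun i => D.a (pt r m) (f i)) (fun i => (hcof.1 _).2) hA,
      fun z => mem_fimp.2 fun s hs hz => ⟨s, le_rfl, ?_⟩⟩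
    · refine hg.sz_lt hN (hg.lim _ ((pt_zero S r).symm ▸ ?_))
      exact (S.hbot _).trans_lt hlt
    · have hz2 : z = suc (pt r 0) := Aleph.inj hz (down_Aleph _ _ _ hz0 _ hs)
      subst hz2
      refine cofType_ground (fun i => D.a (pt r m) (f i)) (fun i j hij =>
        (strictMono_nat_of_lt_succ (D.amono (pt r m))) (hf1 hij)) (fun i => ⟨(hcof.1 _).2,
          meets_of_mem (NN_down S D _ _ (hcof.1 _).1 _ hs)⟩) fun w hw t ht => hA w hw t (ht.trans hs)
  · have hm1 : 1 ≤ m := by omega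
    rw [if_neg h4]
    have hz1 := (aleph_pos S 0 r (by omega)).2
    rw [pt_zero S r] at hz1
    have hcof := cof_suc S D (j := m) (hrq.trans le_rfl) hm1 (by omega)
    simp only [e] at hcof
    have hgm := S.good _ (pt_B S (p := r) (j := m) hm1 (by omega))
    have hnu2 : sz (nu bot) < sz (pt r m) := by
      refine hgm.sz_lt hN (hgm.nu ?_)
      exact (pt_zero S r).symm.trans_lt (pt_lt (by omega) (by omega))
    by_cases h5 : n % 3 = 0
    · have hx2 : x = suc (pt r m) := by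
        have h6 := (aleph_pos S m r (by omega)).1
        rw [h5, Nat.add_zero] at h1
        rw [← h1] at h6
        exact Aleph.inj hx' h6
      subst hx2
      have hA : ∀ w < suc (pt r m), ∀ s ≤ r, s ∈ meets (NN S D w) →
          ∃ i : Iio (nu bot), w < D.h i (pt r m) := by
        intro w hw s hs hsw
        obtain ⟨t, ht, h6⟩ := hNN hsw
        have htr := ht.trans hs
        have hl2 := length_le htr
        have h7 := (cof_suc S D (j := m) (htr.trans hrq) hm1 (by omega)).1.2.2 w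
        simp only [e] at h7
        rw [pt_le htr (m := m) (by omega)] at h7
        exact h7 hw h6
      refine ⟨bddIn_ground (rg_suc hN hgm.unc.le) (hnu2.trans (sz_lt_suc hN _))
        (fun i => D.h i (pt r m)) (fun i => (hcof.1.1 _).2) hA,
        fun z => mem_fimp.2 fun s hs hz => ⟨s, le_rfl, ?_⟩⟩
      have hz2 : z = nu bot := Aleph.inj hz (down_Aleph _ _ _ hz1 _ hs)
      subst hz2
      refine cofType_ground (fun i => D.h i (pt r m)) (fun i j hij => hcof.1.2.1 i j hij)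
        (fun i => ⟨(hcof.1.1 _).2, meets_of_mem (NN_down S D _ _ (hcof.1.1 _).1 _ hs)⟩)
        fun w hw t ht => hA w hw t (ht.trans hs)
    · have hx2 : x = nu (pt r m) := by
        have h6 := (aleph_pos S m r (by omega)).2
        have h7 : n % 3 = 1 := by omega
        rw [h7] at h1
        rw [← h1] at h6
        exact Aleph.inj hx' h6
      subst hx2
      have hA : ∀ w < nu (pt r m), ∀ s ≤ r, s ∈ meets (NN S D w) →
          ∃ i : Iio (nu bot), w < D.h' i (pt r m) := by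
        intro w hw s hs hsw
        obtain ⟨t, ht, h6⟩ := hNN hsw
        have htr := ht.trans hs
        have hl2 := length_le htr
        have h7 := (cof_suc S D (j := m) (htr.trans hrq) hm1 (by omega)).2.2.2 w
        simp only [e] at h7
        rw [pt_le htr (m := m) (by omega)] at h7
        exact h7 hw h6
      refine ⟨bddIn_ground (rg_nu hN _) ((hnu2.trans (sz_lt_suc hN _)).trans (sz_lt_suc hN _))
        (fun i => D.h' i (pt r m)) (fun i => (hcof.2.1 _).2) hA,
        fun z => mem_fimp.2 fun s hs hz => ⟨s, le_rfl, ?_⟩⟩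
      have hz2 : z = nu bot := Aleph.inj hz (down_Aleph _ _ _ hz1 _ hs)
      subst hz2
      refine cofType_ground (fun i => D.h' i (pt r m)) (fun i j hij => hcof.2.2.1 i j hij)
        (fun i => ⟨(hcof.2.1 _).2, meets_of_mem (NN_down S D _ _ (hcof.2.1 _).1 _ hs)⟩)
        fun w hw t ht => hA w hw t (ht.trans hs)

end

section

variable {κ : Cardinal.{0}} {K : Type} [LinearOrder K] [WellFoundedLT K] {U : Ultrafilter K}
  {B : Set K} {bot : K} (S : Su κ U B bot)

include S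

/-- every algebra has a subalgebra with the pattern of cofinalities -/
theorem exists_alg (p0 : Cond U B bot) (hl : p0.t.length = 1) :
    ∃ q ≤ p0, ∀ F : ℕ × List K → K → Set (Cond U B bot), q ∈ fimp (IsFun F)
      (fex fun N : K → Set (Cond U B bot) =>
        fand (ClosedUnder (fun e ws w => F (e, ws) w) N) (CofPattern N)) := by
  have hN := S.hN
  have hΩ : #(Iio (nu bot)) < κ := hN.small _
  have hΩB : ∀ y ∈ B, #(Iio (nu bot)) < sz y := by
    intro y hy
    refine (S.good y hy).sz_lt hN ((S.good y hy).nu ?_)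
    refine lt_of_le_of_ne (S.hbot _) ?_
    rintro rfl
    have h1 := (S.good _ hy).unc
    rw [sz_bot S] at h1
    exact absurd h1 (not_lt.2 zero_le)
  have : Nonempty (Iio (nu bot)) := ⟨⟨bot, lt_nu hN bot⟩⟩
  have : NoMaxOrder (Iio (nu bot)) := noMax_Iio (rg_nu hN bot) (inf_nu hN bot)
  refine mix (fun F => fex fun N : K → Set (Cond U B bot) =>
    fand (ClosedUnder (fun e ws w => F (e, ws) w) N) (CofPattern N)) ?_
    (fun F => down_fex _) ?_
  · intro F F' r hr h
    refine mem_fex.2 fun s hs => ?_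
    obtain ⟨t, ht, N, h1, h2⟩ := mem_fex.1 hr s hs
    refine ⟨t, ht, N, fun e ws w => ?_, h2⟩
    refine mem_fimp.2 fun u hu ⟨h3, h4⟩ => ?_
    exact mem_fimp.1 (h1 e ws w) u hu ⟨h3, (h u (hu.trans (ht.trans hs)) (e, ws) w).2 h4⟩
  · intro F hF
    have h1 : #(Iio (nu bot)) ≤ sz (nu (pt p0 (p0.t.length - 1))) := by
      rw [hl]
      exact sz_mono (nu_mono hN (S.hbot _))
    obtain ⟨D⟩ := exists_ch S (F := fun e ws w => F (e, ws) w) hF (Iio (nu bot)) h1
    refine ⟨qq S D hΩ hΩB, qq_le S D, mem_fex_of_mem (NN S D)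
      (down_fand (down_ClosedUnder _ _) (down_fall fun _ => down_fall fun _ =>
        down_fall fun _ => down_fimp _ _)) ⟨fun e ws w => ?_, cofPattern S D hl⟩⟩
    refine mem_fimp.2 fun q hq ⟨h2, h3⟩ => ?_
    -- pass to a condition in the names themselves
    have h4 : ∀ l : List K, (∀ u ∈ l, q ∈ meets (NN S D u)) →
        ∃ r ≤ q, ∀ u ∈ l, r ∈ NN S D u := by
      intro l
      induction l with
      | nil => exact fun _ => ⟨q, le_rfl, fun u hu => absurd hu (by simp)⟩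
      | cons a l ih =>
        intro hal
        obtain ⟨r, hr, h5⟩ := ih fun u hu => hal u (by simp [hu])
        obtain ⟨s, hs, h6⟩ := exists_of_meets (NN_down S D a)
          (down_meets _ _ (hal a (by simp)) _ hr)
        refine ⟨s, hs.trans hr, fun u hu => ?_⟩
        rcases List.mem_cons.1 hu with rfl | hu
        · exact h6
        · exact NN_down S D u _ (h5 u hu) _ hs
    obtain ⟨r, hr, h5⟩ := h4 ws h2
    exact ⟨r, hr, meets_of_mem (NN_closed S D (hr.trans hq) e ws w h5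
      (down_meets _ _ h3 _ hr))⟩

/-- mutual stationarity -/
theorem exists_mutStat (p0 : Cond U B bot) (hl : p0.t.length = 1) :
    ∃ q ≤ p0, ∀ (L : FirstOrder.Language.{0, 0}) [Countable L.Symbols],
      q ∈ MutStat (Cond U B bot) K L := by
  obtain ⟨q, hq, h⟩ := exists_alg S p0 hl
  refine ⟨q, hq, fun L _ M => mem_fimp.2 fun r hr hM => ?_⟩
  obtain ⟨d, hd⟩ := exists_code L
  obtain ⟨s, hs, h1⟩ := mem_fimp.1 (h fun x w => SkF M bot (d x.1) x.2 w) r hr
    (SkF_isFun bot hM d)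
  refine ⟨s, hs, mem_fex.2 fun t ht => ?_⟩
  obtain ⟨u, hu, N, h2, h3⟩ := mem_fex.1 h1 t ht
  exact ⟨u, hu, N, isElemSub bot (down_fall (fun _ => down_fall fun _ => down_IsFun _) _ hM _
    (hu.trans (ht.trans hs))) hd h2, h3⟩

end

end Pool.Agent.W2helper53.MS
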