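import Pool.Agent.W2helper53.MS.Cond
import Pool.Agent.W2helper53.MS.Closed

/-!
# The main lemma: names with few values are decided without new points
-/

set_option linter.unusedSectionVars false

namespace Pool.Agent.W2helper53.MS

open Cardinal Set Pool.Agent.V11248.Pk Pool.Agent.Helper669.Forcing

/-- A name for an element of `K`, possibly undefined: `v w` is the set of the conditions which
force the value to be `w`. -/
structure ON (P : Type) [Preorder P] (K : Type) where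
  v : K → Set P
  down : ∀ w, Down (v w)
  reg : ∀ w p, (∀ q ≤ p, ∃ r ≤ q, r ∈ v w) → p ∈ v w
  disj : ∀ w w' p, p ∈ v w → p ∈ v w' → w = w'

section

variable {P : Type} [Preorder P] {K : Type} [LinearOrder K]

/-- the name of the minimum of the value and `γ` -/
def ON.trunc (n : ON P K) (γ : K) : ON P K where
  v w := {p | (w < γ ∧ p ∈ n.v w) ∨ (w = γ ∧ ∀ u < γ, p ∈ fnot (n.v u))}
  down w p := by
    rintro (⟨h1, h2⟩ | ⟨h1, h2⟩) q hq
    · exact Or.inl ⟨h1, n.down w _ h2 _ hq⟩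
    · exact Or.inr ⟨h1, fun u hu => down_fnot _ _ (h2 u hu) _ hq⟩
  reg w p h := by
    rcases lt_trichotomy w γ with h1 | h1 | h1
    · refine Or.inl ⟨h1, n.reg w p fun q hq => ?_⟩
      obtain ⟨r, hr, h2 | h2⟩ := h q hq
      · exact ⟨r, hr, h2.2⟩
      · exact absurd h2.1 h1.ne
    · refine Or.inr ⟨h1, fun u hu q hq hqu => ?_⟩
      obtain ⟨r, hr, h2 | h2⟩ := h q hq
      · exact absurd h2.1 (by rw [h1]; exact lt_irrefl _)
      · exact h2.2 u hu r le_rfl (n.down u _ hqu _ hr)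
    · obtain ⟨r, _, h2 | h2⟩ := h p le_rfl
      · exact absurd h2.1 (not_lt.2 h1.le)
      · exact absurd h2.1 h1.ne'
  disj w w' p := by
    rintro (⟨h1, h2⟩ | ⟨h1, h2⟩) (⟨h3, h4⟩ | ⟨h3, h4⟩)
    · exact n.disj w w' p h2 h4
    · exact absurd h2 (h4 w h1 p le_rfl)
    · exact absurd h4 (h2 w' h3 p le_rfl)
    · rw [h1, h3]

theorem ON.trunc_of_lt {n : ON P K} {γ w : K} (h : w < γ) {p : P} :
    p ∈ (n.trunc γ).v w ↔ p ∈ n.v w := by
  constructor
  · rintro (h1 | h1)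
    · exact h1.2
    · exact absurd h1.1 h.ne
  · exact fun h1 => Or.inl ⟨h, h1⟩

theorem ON.trunc_le {n : ON P K} {γ w : K} {p : P} (h : p ∈ (n.trunc γ).v w) : w ≤ γ := by
  rcases h with h1 | h1
  · exact h1.1.le
  · exact h1.1.le

theorem ON.trunc_total (n : ON P K) (γ : K) (p : P) : ∃ r ≤ p, ∃ w, r ∈ (n.trunc γ).v w := by
  by_cases h : ∃ u < γ, ∃ r ≤ p, r ∈ n.v u
  · obtain ⟨u, hu, r, hr, h1⟩ := h
    exact ⟨r, hr, u, Or.inl ⟨hu, h1⟩⟩
  · push Not at h
    exact ⟨p, le_rfl, γ, Or.inr ⟨rfl, fun u hu r hr => h u hu r hr⟩⟩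

end

section

variable {κ : Cardinal.{0}} {K : Type} [LinearOrder K] [WellFoundedLT K]

/-- The functions assigning to every point a condition of the collapse, modulo the measure. -/
structure Up (U : Ultrafilter K) where
  c : K → C K
  col : ∀ x, IsCol (nu x) (c x)

instance (U : Ultrafilter K) : Preorder (Up U) where
  le c' c := {y | c.c y ⊆ c'.c y} ∈ U
  le_refl c := Filter.univ_mem' fun _ => Subset.rfl
  le_trans a b c h h' := Filter.mem_of_superset (Filter.inter_mem h h')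
    fun _ hy => Subset.trans hy.2 hy.1

/-- conditions of the collapse for `nu y` -/
structure Qc (y : K) where
  f : C K
  col : IsCol (nu y) f

instance (y : K) : Preorder (Qc y) where
  le g f := f.f ⊆ g.f
  le_refl f := Subset.rfl
  le_trans _ _ _ h h' := Subset.trans h' h

variable {U : Ultrafilter K} {B : Set K} {bot : K}

theorem closedQc (hN : Normal κ U) (y : K) : Closed (sz (suc y)) (Qc y) := by
  intro I _ _ f hI _ hf
  refine ⟨⟨⋃ i, (f i).f, isCol_iUnion hN (hI.trans_lt (sz_lt_suc hN _)) (fun i => (f i).col)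
    fun i j => ?_⟩, fun i => subset_iUnion (fun i => (f i).f) i⟩
  rcases le_total i j with h | h
  · exact ⟨j, hf i j h, Subset.rfl⟩
  · exact ⟨i, Subset.rfl, hf j i h⟩

theorem closedUp (hN : Normal κ U) : Closed κ (Up U) := by
  classical
  intro I _ _ f hI _ hf
  rw [← hN.card] at hI
  obtain ⟨e⟩ := hI
  have h1 : ∀ δ : K, #{i // e i ≤ δ} < κ := by
    intro δ
    refine lt_of_le_of_lt ?_ (hN.smallIic δ)
    exact mk_le_of_injective (f := fun i : {i // e i ≤ δ} => (⟨e i, i.2⟩ : Iic δ))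
      fun i j hij => Subtype.ext (e.injective (Subtype.mk.inj hij))
  have hG : {y : K | ∀ i j, e i < y → e j < y → i ≤ j → (f i).c y ⊆ (f j).c y} ∈ U := by
    have h2 := diag hN (S := I × I) (fun x δ => e x.1 ≤ δ ∧ e x.2 ≤ δ)
      (fun δ => mk_prod_small hN (fun i => e i ≤ δ) (fun i => e i ≤ δ) (h1 δ) (h1 δ))
      (fun x => {y | x.1 ≤ x.2 → (f x.1).c y ⊆ (f x.2).c y}) (by
        rintro ⟨i, j⟩ _
        by_cases h : i ≤ j
        · exact Filter.mem_of_superset (hf i j h) fun y hy _ => hy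
        · exact Filter.univ_mem' fun y h' => absurd h' h)
    refine Filter.mem_of_superset h2 fun y hy i j hi hj hij => ?_
    exact hy (max (e i) (e j)) (max_lt hi hj) (i, j) ⟨le_max_left _ _, le_max_right _ _⟩ hij
  refine ⟨⟨fun y => if ∀ i j, e i < y → e j < y → i ≤ j → (f i).c y ⊆ (f j).c y then
    ⋃ i : {i // e i < y}, (f i).c y else ∅, fun y => ?_⟩, fun i => ?_⟩
  · split_ifs with h
    · refine isCol_iUnion hN ?_ (fun i => (f i).col y) fun i j => ?_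
      · refine lt_of_le_of_lt ?_ ((sz_lt_suc hN y).trans (sz_lt_suc hN _))
        exact mk_le_of_injective (f := fun i : {i // e i < y} => (⟨e i, i.2⟩ : Iio y))
          fun i j hij => Subtype.ext (e.injective (Subtype.mk.inj hij))
      · rcases le_total i.1 j.1 with h' | h'
        · exact ⟨j, h i j i.2 j.2 h', Subset.rfl⟩
        · exact ⟨i, Subset.rfl, h j i j.2 i.2 h'⟩
    · exact isCol_empty hN y
  · refine Filter.mem_of_superset (Filter.inter_mem hG (hN.tail (e i))) ?_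
    rintro y ⟨h2, h3⟩
    change (f i).c y ⊆ if ∀ i j, e i < y → e j < y → i ≤ j → (f i).c y ⊆ (f j).c y then
      ⋃ i : {i // e i < y}, (f i).c y else ∅
    rw [if_pos (show ∀ i j, e i < y → e j < y → i ≤ j → (f i).c y ⊆ (f j).c y from h2)]
    exact subset_iUnion (fun i : {i // e i < y} => (f i).c y) ⟨i, h3⟩

theorem mk_exists_le (hN : Normal κ U) {T : Type} {bd : T → K → Prop}
    (h : ∀ δ, #{s // bd s δ} < κ) : #{s // ∃ δ, bd s δ} ≤ κ := by
  have h1 : {s : T | ∃ δ, bd s δ} ⊆ ⋃ δ : K, {s | bd s δ} := by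
    rintro s ⟨δ, hδ⟩
    exact mem_iUnion.2 ⟨δ, hδ⟩
  refine (mk_le_mk_of_subset h1).trans ((mk_iUnion_le_sum_mk).trans
    ((sum_le_mk_mul_iSup _).trans ?_))
  rw [hN.card]
  exact (mul_le_mul' le_rfl (ciSup_le' fun δ => (h δ).le)).trans (mul_eq_self hN.unc.le).le

theorem bdSt_mono {t : St K} {δ δ' : K} (h : bdSt t δ) (h' : δ ≤ δ') : bdSt t δ' := by
  intro a ha
  refine ⟨(h a ha).1.trans h', (h a ha).2.trans ?_⟩
  rintro e ⟨h1, h2, h3⟩
  exact ⟨h1.trans h', h2.trans h', h3.trans h'⟩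

variable (S : Su κ U B bot)

include S

theorem exists_bdSt {t : St K} (ht : IsStem B bot t) : ∃ δ, bdSt t δ := by
  obtain ⟨y, hy1, hy2⟩ := exU (Filter.inter_mem (S.above ht) (ae_good S.hN))
  obtain ⟨δ, _, h⟩ := Good.exists_bd hy2 ht.col hy1
  exact ⟨δ, h⟩

/-- All conditions whose upper part is below `A, c` decide the names `D x` without changing the
upper part and without new points. -/
def Key {T : Type} (bd : T → K → Prop) (D : T → ON (Cond U B bot) K) (A : Set K)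
    (c : K → C K) : Prop :=
  ∀ x (p : Cond U B bot), (∀ y ∈ p.A, y ∈ A ∧ (∃ δ < y, bd x δ) ∧ c y ⊆ p.c y) →
    ∀ r ≤ p, ∀ w, r ∈ (D x).v w → rst S r p ∈ (D x).v w

/-- the set of the points above the bound of `x` -/
def XX {T : Type} (bd : T → K → Prop) (x : T) : Set K := {z | ∃ δ < z, bd x δ}

omit S in
theorem XX_mem (hN : Normal κ U) {T : Type} {bd : T → K → Prop} {x : T} (h : ∃ δ, bd x δ) :
    XX bd x ∈ U := by
  obtain ⟨δ, hδ⟩ := h
  exact Filter.mem_of_superset (hN.tail δ) fun z hz => ⟨δ, hz, hδ⟩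

/-- a common extension of two conditions with the same stem -/
theorem common {q : Cond U B bot} {A : Set K} {hA : A ∈ U} {c : K → C K}
    {hc : ∀ x, IsCol (nu x) (c x)} (h : {y | c y ⊆ q.c y} ∈ U) :
    ∃ r ≤ q, r ≤ mkC S q.t q.stem A hA c hc := by
  refine ⟨mkC S q.t q.stem (q.A ∩ (A ∩ {y | c y ⊆ q.c y}))
    (Filter.inter_mem q.memU (Filter.inter_mem hA h)) q.c q.col, ⟨?_, ?_, fun y hy => hy.1.1,
      fun _ _ => Subset.rfl⟩, (le_mkC S).2 ⟨?_, ?_, fun y hy => hy.1.2.1, fun y hy => hy.1.2.2⟩⟩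
  · exact (List.take_length (l := q.t)).symm ▸ Rf.refl _
  · intro a ha
    exact absurd ha (by simp [mkC])
  · exact (List.take_length (l := q.t)).symm ▸ Rf.refl _
  · intro a ha
    exact absurd ha (by simp [mkC])

/-- changing the upper part and refining the stem -/
theorem mkC_le {t t' : St K} {ht : IsStem B bot t} {ht' : IsStem B bot t'} {A A' : Set K}
    {hA : A ∈ U} {hA' : A' ∈ U} {c c' : K → C K} {hc : ∀ x, IsCol (nu x) (c x)}
    {hc' : ∀ x, IsCol (nu x) (c' x)} (h : Rf t' t)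
    (hA'A : ∀ y ∈ A', y ∈ B → (∀ a ∈ t', Rel a y) → y ∈ A)
    (hcc : ∀ y ∈ A', y ∈ B → (∀ a ∈ t', Rel a y) → c y ⊆ c' y) :
    mkC S t' ht' A' hA' c' hc' ≤ mkC S t ht A hA c hc := by
  have hl := h.length
  refine (le_mkC S).2 ⟨?_, ?_, fun y hy => hA'A y hy.1 hy.2.1 hy.2.2,
    fun y hy => hcc y hy.1 hy.2.1 hy.2.2⟩
  · change Rf (t'.take t.length) t
    rw [← hl, List.take_length]
    exact h
  · intro a ha
    change a ∈ t'.drop t.length at ha
    rw [← hl, List.drop_length] at ha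
    exact absurd ha (by simp)

theorem key1 {T : Type} {bd : T → K → Prop} (hmono : ∀ x δ δ', bd x δ → δ ≤ δ' → bd x δ')
    (hbd : ∀ δ, #{x // bd x δ} < κ) (D : T → ON (Cond U B bot) K) (c0 : Up U) :
    ∃ c : Up U, c ≤ c0 ∧ ∃ A ∈ U, ∀ x, (∃ δ, bd x δ) → ∀ (q : Cond U B bot) (w : K),
      q ∈ (D x).v w → {y | c.c y ⊆ q.c y} ∈ U → ∀ hA : A ∩ XX bd x ∈ U,
        mkC S q.t q.stem (A ∩ XX bd x) hA c.c c.col ∈ (D x).v w := by
  classical
  have hN := S.hN
  let E1 : {x : T × St K // (∃ δ, bd x.1 δ) ∧ ∃ δ, bdSt x.2 δ} → Set (Up U) := fun x =>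
    {u | ∃ (ht : IsStem B bot x.1.2) (A : Set K) (hA : A ∈ U) (w : K),
      mkC S x.1.2 ht A hA u.c u.col ∈ (D x.1.1).v w}
  have hT1 : #{x : T × St K // (∃ δ, bd x.1 δ) ∧ ∃ δ, bdSt x.2 δ} ≤ κ := by
    have h1 : #{x : T × St K // (∃ δ, bd x.1 δ) ∧ ∃ δ, bdSt x.2 δ} ≤
        #({x : T // ∃ δ, bd x δ} × {t : St K // ∃ δ, bdSt t δ}) := by
      refine mk_le_of_injective (f := fun x => (⟨x.1.1, x.2.1⟩, ⟨x.1.2, x.2.2⟩)) ?_
      intro x y hxy
      simp only [Prod.mk.injEq, Subtype.mk.injEq] at hxy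
      exact Subtype.ext (Prod.ext hxy.1 hxy.2)
    refine h1.trans ?_
    rw [mk_prod, lift_id, lift_id]
    exact (mul_le_mul' (mk_exists_le hN hbd) (mk_exists_le hN (mk_bdSt hN))).trans
      (mul_eq_self hN.unc.le).le
  obtain ⟨c1, hc1, hE1⟩ := universal hT1 (closedUp hN) E1 (by
    rintro ⟨⟨x, t⟩, hx⟩ u ⟨ht, A, hA, w, hw⟩ v hv
    refine ⟨ht, A ∩ {y | u.c y ⊆ v.c y}, Filter.inter_mem hA hv, w, (D x).down w _ hw _ ?_⟩
    exact mkC_le S (Rf.refl _) (fun y hy _ _ => hy.1) fun y hy _ _ => hy.2) c0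
  have hA1 : ∀ x : T × St K, ∃ A ∈ U, ∀ (h : (∃ δ, bd x.1 δ) ∧ ∃ δ, bdSt x.2 δ), c1 ∈ E1 ⟨x, h⟩ →
      ∃ (ht : IsStem B bot x.2) (hA : A ∈ U) (w : K), mkC S x.2 ht A hA c1.c c1.col ∈ (D x.1).v w := by
    intro x
    by_cases h : ∃ h : (∃ δ, bd x.1 δ) ∧ ∃ δ, bdSt x.2 δ, c1 ∈ E1 ⟨x, h⟩
    · obtain ⟨h, ht, A, hA, w, hw⟩ := h
      exact ⟨A, hA, fun _ _ => ⟨ht, hA, w, hw⟩⟩
    · exact ⟨univ, Filter.univ_mem, fun h1 h2 => absurd ⟨h1, h2⟩ h⟩
  choose A1 hA1' hA1'' using hA1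
  refine ⟨c1, hc1, _, diag hN (S := T × St K) (fun x δ => bd x.1 δ ∧ bdSt x.2 δ)
    (fun δ => mk_prod_small hN (fun x => bd x δ) (fun t => bdSt t δ) (hbd δ) (mk_bdSt hN δ))
    A1 (fun x _ => hA1' x), ?_⟩
  intro x hx q w hq hcq hA
  have h1 : c1 ∈ E1 ⟨(x, q.t), hx, exists_bdSt S q.stem⟩ := by
    refine hE1 _ ⟨⟨q.c, q.col⟩, hcq, q.stem, q.A, q.memU, w, (D x).down w _ hq _ ?_⟩
    exact ⟨(List.take_length (l := q.t)).symm ▸ Rf.refl _, fun a ha => absurd ha (by simp [mkC]),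
      fun y hy => hy.1, fun _ _ => Subset.rfl⟩
  obtain ⟨ht, hA2, w', hw'⟩ := hA1'' (x, q.t) ⟨hx, exists_bdSt S q.stem⟩ h1
  have h2 : mkC S q.t q.stem _ hA c1.c c1.col ∈ (D x).v w' := by
    refine (D x).down w' _ hw' _ (mkC_le S (Rf.refl _) ?_ fun _ _ _ _ => Subset.rfl)
    rintro y ⟨hy1, δ, hδ, hxδ⟩ hyB hy2
    obtain ⟨δ', hδ', hb⟩ := Good.exists_bd (S.good y hyB) q.stem.col hy2
    exact hy1 (max δ δ') (max_lt hδ hδ') (x, q.t) ⟨hmono x _ _ hxδ (le_max_left _ _),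
      bdSt_mono hb (le_max_right _ _)⟩
  obtain ⟨r, hr1, hr2⟩ := common S (hA := hA) (hc := c1.col) hcq
  have h3 := (D x).disj w w' r ((D x).down _ _ hq _ hr1) ((D x).down _ _ h2 _ hr2)
  rw [h3]
  exact h2

theorem key2 {T : Type} {bd : T → K → Prop} (hmono : ∀ x δ δ', bd x δ → δ ≤ δ' → bd x δ')
    (hbd : ∀ δ, #{x // bd x δ} < κ) (D : T → ON (Cond U B bot) K) (c1 : Up U) (A1 : Set K) :
    ∃ c : Up U, (∀ y, c1.c y ⊆ c.c y) ∧ ∃ A ∈ U, ∀ x t (ht : IsStem B bot t), ∀ y ∈ A,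
      y ∈ XX bd x → y ∈ B → (∀ a ∈ t, Rel a y) → ∀ g, IsCol (nu y) g → c.c y ⊆ g → ∀ w,
        ∀ (ht1 : IsStem B bot (t ++ [(y, g)])) (ht2 : IsStem B bot (t ++ [(y, c.c y)]))
          (hA : A1 ∩ XX bd x ∈ U), mkC S _ ht1 _ hA c1.c c1.col ∈ (D x).v w →
            mkC S _ ht2 _ hA c1.c c1.col ∈ (D x).v w := by
  classical
  have hN := S.hN
  let Ty : K → Type := fun y => {x : T × St K // ∃ δ < y, bd x.1 δ ∧ bdSt x.2 δ}
  let E : ∀ y, Ty y → Set (Qc y) := fun y x => {g | ∃ (ht : IsStem B bot (x.1.2 ++ [(y, g.f)]))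
    (hA : A1 ∩ XX bd x.1.1 ∈ U) (w : K), mkC S _ ht _ hA c1.c c1.col ∈ (D x.1.1).v w}
  have h1 : ∀ y, ∃ g : Qc y, c1.c y ⊆ g.f ∧ (#(Ty y) ≤ sz y → ∀ x : Ty y,
      (∃ g' : Qc y, g.f ⊆ g'.f ∧ g' ∈ E y x) → g ∈ E y x) := by
    intro y
    by_cases hy : #(Ty y) ≤ sz y
    · obtain ⟨g, hg1, hg2⟩ := universal (hy.trans (sz_lt_suc hN y).le) (closedQc hN y) (E y) (by
        rintro ⟨⟨x, t⟩, hx⟩ u ⟨ht, hA, w, hw⟩ v hv
        have ht' : IsStem B bot (t ++ [(y, v.f)]) := by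
          refine ⟨?_, ?_, ?_, ?_⟩
          · obtain ⟨f, t', h2⟩ := ht.head
            cases t with
            | nil => 
              simp only [List.nil_append, List.cons.injEq, Prod.mk.injEq] at h2
              exact ⟨v.f, [], by rw [← h2.1.1]; simp⟩
            | cons a t =>
              simp only [List.cons_append, List.cons.injEq] at h2
              exact ⟨f, t ++ [(y, v.f)], by rw [← h2.1]; simp⟩
          · intro a ha
            rcases List.mem_append.1 ha with ha | ha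
            · exact ht.mem a (List.mem_append_left _ ha)
            · rw [List.mem_singleton.1 ha]
              exact ht.mem (y, u.f) (by simp)
          · have h3 := ht.pw
            rw [List.pairwise_append] at h3 ⊢
            refine ⟨h3.1, by simp, fun a ha b hb => ?_⟩
            rw [List.mem_singleton.1 hb]
            exact h3.2.2 a ha (y, u.f) (by simp)
          · intro a ha
            rcases List.mem_append.1 ha with ha | ha
            · exact ht.col a (List.mem_append_left _ ha)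
            · rw [List.mem_singleton.1 ha]
              exact v.col
        refine ⟨ht', hA, w, (D x).down w _ hw _ ?_⟩
        exact mkC_le S (Rf.append (Rf.refl _) (Rf.single ⟨rfl, hv⟩)) (fun y hy _ _ => hy)
          fun _ _ _ _ => Subset.rfl) ⟨c1.c y, c1.col y⟩
      exact ⟨g, hg1, fun _ x ⟨g', h2, h3⟩ => hg2 x ⟨g', h2, h3⟩⟩
    · exact ⟨⟨c1.c y, c1.col y⟩, Subset.rfl, fun h => absurd h hy⟩
  choose c2 hc2 hc2' using h1
  refine ⟨⟨fun y => (c2 y).f, fun y => (c2 y).col⟩, hc2, _, ae_count hN (S := T × St K)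
    (fun x δ => bd x.1 δ ∧ bdSt x.2 δ) (fun δ => mk_prod_small hN (fun x => bd x δ)
      (fun t => bdSt t δ) (hbd δ) (mk_bdSt hN δ)), ?_⟩
  rintro x t ht y hy1 ⟨δ, hδ, hxδ⟩ hyB hty g hg hcg w ht1 ht2 hA hw
  obtain ⟨δ', hδ', hb⟩ := Good.exists_bd (S.good y hyB) ht.col hty
  obtain ⟨ht3, hA3, w', hw'⟩ := hc2' y hy1 ⟨(x, t), max δ δ', max_lt hδ hδ',
    hmono x _ _ hxδ (le_max_left _ _), bdSt_mono hb (le_max_right _ _)⟩
    ⟨⟨g, hg⟩, hcg, ht1, hA, w, hw⟩
  have h2 : mkC S _ ht1 _ hA c1.c c1.col ≤ mkC S _ ht3 _ hA3 c1.c c1.col :=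
    mkC_le S (Rf.append (Rf.refl _) (Rf.single ⟨rfl, hcg⟩)) (fun y hy _ _ => hy)
          fun _ _ _ _ => Subset.rfl
  have h3 := (D x).disj w w' _ hw ((D x).down _ _ hw' _ h2)
  rw [h3]
  exact hw'

theorem key3 {T : Type} {bd : T → K → Prop} (hmono : ∀ x δ δ', bd x δ → δ ≤ δ' → bd x δ')
    (hbd : ∀ δ, #{x // bd x δ} < κ) (D : T → ON (Cond U B bot) K)
    (hcol : ∀ x, ∃ δ, ∀ w p, p ∈ (D x).v w → w < δ) (c1 c2 : Up U) (A1 : Set K) (hA1 : A1 ∈ U)
    (h12 : ∀ y, c1.c y ⊆ c2.c y) :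
    ∃ A ∈ U, A ⊆ A1 ∧ ∀ x t (ht : IsStem B bot t), ∀ y ∈ A,
      y ∈ XX bd x → y ∈ B → (∀ a ∈ t, Rel a y) → ∀ w,
        ∀ (ht2 : IsStem B bot (t ++ [(y, c2.c y)]))
          (hA1 : A1 ∩ XX bd x ∈ U), mkC S _ ht2 _ hA1 c1.c c1.col ∈ (D x).v w →
            ∀ hA : A ∩ XX bd x ∈ U, mkC S _ ht _ hA c2.c c2.col ∈ (D x).v w := by
  classical
  have hN := S.hN
  let H : T → St K → K → K → Prop := fun x t w y => ∃ (ht2 : IsStem B bot (t ++ [(y, c2.c y)]))
    (hA1 : A1 ∩ XX bd x ∈ U), mkC S _ ht2 _ hA1 c1.c c1.col ∈ (D x).v w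
  have hH : ∀ x t w w' y, H x t w y → H x t w' y → w = w' := by
    rintro x t w w' y ⟨h1, h2, h3⟩ ⟨_, _, h4⟩
    exact (D x).disj w w' _ h3 h4
  have hG : ∀ x t, ∃ G ∈ U, ∀ w, ∀ y ∈ G, H x t w y → ∀ z ∈ G, H x t w z := by
    intro x t
    by_cases h : ∃ w, {y | H x t w y} ∈ U
    · obtain ⟨w, hw⟩ := h
      refine ⟨_, hw, fun w' y hy hy' z hz => ?_⟩
      have h1 := hH x t w w' y hy hy'
      rw [← h1]
      exact hz
    · push Not at h
      obtain ⟨δ, hδ⟩ := hcol x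
      have h1 : {y | ∀ w : Iio δ, y ∈ {y | ¬ H x t w y}} ∈ U := by
        refine ae_all hN (hN.small δ) fun w => ?_
        rcases ae_or (U := U) {y | H x t w y} with h2 | h2
        · exact absurd h2 (h w)
        · exact h2
      refine ⟨_, h1, fun w y hy hy' => ?_⟩
      obtain ⟨h2, h3, h4⟩ := id hy'
      exact absurd hy' (hy ⟨w, hδ w _ h4⟩)
  choose G hG1 hG2 using hG
  refine ⟨_, Filter.inter_mem hA1 (diag hN (S := T × St K) (fun x δ => bd x.1 δ ∧ bdSt x.2 δ)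
    (fun δ => mk_prod_small hN (fun x => bd x δ) (fun t => bdSt t δ) (hbd δ) (mk_bdSt hN δ))
    (fun x => G x.1 x.2) (fun x _ => hG1 x.1 x.2)), inter_subset_left, ?_⟩
  have hGm : ∀ x t (ht : IsStem B bot t) y, (∀ δ < y, ∀ x : T × St K, bd x.1 δ ∧ bdSt x.2 δ →
      y ∈ G x.1 x.2) → y ∈ XX bd x → y ∈ B → (∀ a ∈ t, Rel a y) → y ∈ G x t := by
    rintro x t ht y hy ⟨δ, hδ, hxδ⟩ hyB hty
    obtain ⟨δ', hδ', hb⟩ := Good.exists_bd (S.good y hyB) ht.col hty
    exact hy (max δ δ') (max_lt hδ hδ') (x, t) ⟨hmono x _ _ hxδ (le_max_left _ _),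
      bdSt_mono hb (le_max_right _ _)⟩
  rintro x t ht y ⟨hy1, hy2⟩ hyx hyB hty w ht2 hA1' hw hA
  have h1 := hGm x t ht y hy2 hyx hyB hty
  refine (D x).reg w _ fun q hq => ?_
  obtain ⟨q', hq', hl⟩ := exists_length S t.length q
  refine ⟨q', hq', ?_⟩
  obtain ⟨h3, h4, h5, h6⟩ := (le_mkC S).1 (hq'.trans hq)
  obtain ⟨z, g, hzg⟩ : ∃ z g, q'.t[t.length] = (z, g) := ⟨_, _, rfl⟩
  have hmem : (z, g) ∈ q'.t.drop t.length := by
    have h8 : q'.t.drop t.length = q'.t[t.length] :: q'.t.drop (t.length + 1) :=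
      List.drop_eq_getElem_cons hl
    rw [h8, hzg]
    exact List.mem_cons_self
  obtain ⟨⟨⟨hz1, hz2⟩, hz3⟩, hz4⟩ := h4 _ hmem
  obtain ⟨hzB, hzr⟩ := q'.stem.pt_ne ht.pos hmem
  have hzt : ∀ a ∈ t, Rel a z := by
    intro a ha
    obtain ⟨b, hb, hr⟩ := h3.mem ha
    exact (hzr b hb).ref hr
  obtain ⟨ht4, hA4, h7⟩ := hG2 x t w y h1 ⟨ht2, hA1', hw⟩ z (hGm x t ht z hz2 hz3 hzB hzt)
  refine (D x).down w _ h7 _ ((le_mkC S).2 ⟨?_, ?_, ?_, ?_⟩)
  · rw [List.length_append, List.length_singleton, List.take_succ_eq_append_getElem hl, hzg]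
    exact Rf.append h3 (Rf.single ⟨rfl, hz4⟩)
  · intro a ha
    rw [List.length_append, List.length_singleton] at ha
    have ha' : a ∈ q'.t.drop t.length := by
      rw [List.drop_eq_getElem_cons hl]
      exact List.mem_cons_of_mem _ ha
    obtain ⟨⟨⟨h8, _⟩, h9⟩, h10⟩ := h4 a ha'
    exact ⟨⟨h8, h9⟩, (h12 _).trans h10⟩
  · exact fun u hu => ⟨(h5 hu).1.1, (h5 hu).2⟩
  · exact fun u hu => (h12 u).trans (h6 u hu)

theorem key {T : Type} {bd : T → K → Prop} (hmono : ∀ x δ δ', bd x δ → δ ≤ δ' → bd x δ')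
    (hbd : ∀ δ, #{x // bd x δ} < κ) (D : T → ON (Cond U B bot) K)
    (hcol : ∀ x, ∃ δ, ∀ w p, p ∈ (D x).v w → w < δ) (c0 : Up U) :
    ∃ c : Up U, c ≤ c0 ∧ ∃ A ∈ U, Key S bd D A c.c := by
  obtain ⟨c1, hc1, A1, hA1, h1⟩ := key1 S hmono hbd D c0
  obtain ⟨c2, h12, A2, hA2, h2⟩ := key2 S hmono hbd D c1 A1
  obtain ⟨A3, hA3, h31, h3⟩ := key3 S hmono hbd D hcol c1 c2 A1 hA1 h12
  have hc2 : c2 ≤ c0 := by
    refine le_trans (b := c1) ?_ hc1
    exact Filter.univ_mem' h12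
  have main : ∀ (x : T) (hx : ∃ δ, bd x δ) (hA : A2 ∩ A3 ∩ XX bd x ∈ U) (w : K) (n : ℕ) (t : St K)
      (ht : IsStem B bot t) (r : Cond U B bot), r.t.length = t.length + n →
      r ≤ mkC S t ht _ hA c2.c c2.col → r ∈ (D x).v w →
        mkC S (r.t.take t.length) (r.stem.take ht.pos) _ hA c2.c c2.col ∈ (D x).v w := by
    intro x hx hA w n
    have hA1x : A1 ∩ XX bd x ∈ U := Filter.inter_mem hA1 (XX_mem S.hN hx)
    have hA3x : A3 ∩ XX bd x ∈ U := Filter.inter_mem hA3 (XX_mem S.hN hx)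
    have hc1r : ∀ t (ht : IsStem B bot t) (r : Cond U B bot), r ≤ mkC S t ht _ hA c2.c c2.col →
        {y | c1.c y ⊆ r.c y} ∈ U := by
      intro t ht r hr
      refine Filter.mem_of_superset r.memU fun y hy => ?_
      exact (h12 y).trans (((le_mkC S).1 hr).2.2.2 y hy)
    induction n with
    | zero =>
      intro t ht r hl hr hw
      have h4 : r.t.take t.length = r.t := by
        rw [List.take_of_length_le (by omega)]
      have h5 := h1 x hx r w hw (hc1r t ht r hr) hA1x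
      refine (D x).down w _ h5 _ (mkC_le S (by rw [h4]; exact Rf.refl _) ?_ fun y _ _ _ => h12 y)
      rintro y ⟨⟨_, h6⟩, h7⟩ _ _
      exact ⟨h31 h6, h7⟩
    | succ n ih =>
      intro t ht r hl hr hw
      obtain ⟨t1, y, g, hr1⟩ : ∃ t1 y g, r.t = t1 ++ [(y, g)] := by
        rcases List.eq_nil_or_concat r.t with h | ⟨t1, a, h⟩
        · rw [h] at hl
          simp at hl
        · exact ⟨t1, a.1, a.2, by rw [h, List.concat_eq_append]⟩
      have hl1 : t1.length = t.length + n := by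
        rw [hr1] at hl
        simp at hl
        omega
      have ht1 : IsStem B bot t1 := by
        have h4 := r.stem.take (n := t1.length) (by have := ht.pos; omega)
        rwa [hr1, List.take_left] at h4
      obtain ⟨h5, h6, h7, h8⟩ := (le_mkC S).1 hr
      have hmem1 : (y, g) ∈ r.t.drop t1.length := by
        rw [hr1, List.drop_left]
        simp
      have hdrop : r.t.drop t1.length ⊆ r.t.drop t.length := by
        rw [hl1, ← List.drop_drop]
        exact (List.drop_sublist _ _).subset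
      obtain ⟨⟨⟨hy2, hy3⟩, hyx⟩, hyg⟩ := h6 _ (hdrop hmem1)
      obtain ⟨hyB, hyr⟩ := r.stem.pt_ne ht1.pos hmem1
      rw [hr1, List.take_left] at hyr
      have hyt : ∀ a ∈ t1, Rel a y := hyr
      have hg : IsCol (nu y) g := r.stem.col (y, g) (List.mem_of_mem_drop hmem1)
      have hst := r.stem
      rw [hr1] at hst
      have hst2 := isStem_snoc S ht1 hyB hyt (c2.col y)
      -- change the upper part
      have h9 : mkC S (t1 ++ [(y, g)]) hst _ hA1x c1.c c1.col ∈ (D x).v w := by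
        have h10 := h1 x hx r w hw (hc1r t ht r hr) hA1x
        have h11 : ∀ (t' : St K) (ht' : IsStem B bot t') (ht'' : IsStem B bot (t1 ++ [(y, g)])),
            t' = t1 ++ [(y, g)] → mkC S t' ht' _ hA1x c1.c c1.col ∈ (D x).v w →
              mkC S (t1 ++ [(y, g)]) ht'' _ hA1x c1.c c1.col ∈ (D x).v w := by
          rintro t' ht' ht'' rfl h
          exact h
        exact h11 r.t r.stem hst hr1 h10
      have h10 := h2 x t1 ht1 y hy2 hyx hyB hyt g hg hyg w hst hst2 hA1x h9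
      have h11 := h3 x t1 ht1 y hy3 hyx hyB hyt w hst2 hA1x h10 hA3x
      have h12' : mkC S t1 ht1 _ hA c2.c c2.col ∈ (D x).v w :=
        (D x).down w _ h11 _ (mkC_le S (Rf.refl _) (fun y hy _ _ => ⟨hy.1.2, hy.2⟩)
          fun _ _ _ _ => Subset.rfl)
      have htk : t1.take t.length = r.t.take t.length := by
        rw [hr1, List.take_append_of_le_length (by omega)]
      have h13 : mkC S t1 ht1 _ hA c2.c c2.col ≤ mkC S t ht _ hA c2.c c2.col := by
        refine (le_mkC S).2 ⟨?_, ?_, fun y hy => hy.1, fun _ _ => Subset.rfl⟩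
        · change Rf (t1.take t.length) t
          rw [htk]
          exact h5
        · intro a ha
          change a ∈ t1.drop t.length at ha
          refine h6 a ?_
          rw [hr1, List.drop_append_of_le_length (by omega)]
          exact List.mem_append_left _ ha
      have h14 := ih t ht _ hl1 h13 h12'
      refine (D x).down w _ h14 _ (mkC_le S ?_ (fun y hy _ _ => hy) fun _ _ _ _ => Subset.rfl)
      change Rf (r.t.take t.length) (t1.take t.length)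
      rw [htk]
      exact Rf.refl _
  refine ⟨c2, hc2, A2 ∩ A3, Filter.inter_mem hA2 hA3, ?_⟩
  intro x p hp r hr w hw
  obtain ⟨y0, hy0⟩ := exU p.memU
  obtain ⟨δ, _, hδ⟩ := (hp y0 hy0).2.1
  have hx : ∃ δ, bd x δ := ⟨δ, hδ⟩
  have hA : A2 ∩ A3 ∩ XX bd x ∈ U :=
    Filter.inter_mem (Filter.inter_mem hA2 hA3) (XX_mem S.hN hx)
  have h4 : p ≤ mkC S p.t p.stem _ hA c2.c c2.col := by
    refine (le_mkC S).2 ⟨(List.take_length (l := p.t)).symm ▸ Rf.refl _, fun a ha =>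
      absurd ha (by simp), fun y hy => ⟨(hp y hy).1, (hp y hy).2.1⟩, fun y hy => (hp y hy).2.2⟩
  have h5 := main x hx hA w (r.t.length - p.t.length) p.t p.stem r (by
    have := length_le hr
    omega) (hr.trans h4) hw
  refine (D x).down w _ h5 _ (mkC_le S (Rf.refl _) (fun y hy _ _ => ?_) fun y hy _ _ =>
    (hp y hy).2.2)
  exact ⟨(hp y hy).1, (hp y hy).2.1⟩

end

end Pool.Agent.W2helper53.MS
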