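import Pool.Agent.W2helper53.MS.Chain

/-!
# The data for the tail theorem: the chain of names and the sequences of virtual points
-/

set_option linter.unusedSectionVars false

namespace Pool.Agent.W2helper53.MS

open Cardinal Set Pool.Agent.V11248.Pk Pool.Agent.Helper669.Forcing

section

variable {κ : Cardinal.{0}} {K : Type} [LinearOrder K] [WellFoundedLT K] {U : Ultrafilter K}
  {B : Set K} {bot : K}

theorem ae_seq (hN : Normal κ U) {φ : ℕ → List K → Prop} (hφ : ∀ k, AE U k (φ k))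
    {ψ : List K → K → Prop} (hψ : ∀ b, {x | ψ b x} ∈ U) :
    ∃ a : ℕ → K, ∀ k, φ k ((List.range k).map a) ∧ ψ ((List.range k).map a) (a k) := by
  classical
  let Gd : List K → Prop := fun b => ∀ k, AE U k fun l => φ (b.length + k) (b ++ l)
  have h0 : Gd [] := by
    intro k
    simpa using hφ k
  have hs : ∀ b, ∃ x, Gd b → Gd (b ++ [x]) ∧ ψ b x := by
    intro b
    by_cases hb : Gd b
    · have h1 : {x | ∀ k, x ∈ {x | AE U k fun l => φ (b.length + (k + 1)) (b ++ x :: l)}} ∈ U :=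
        ae_all hN (by rw [mk_nat]; exact hN.unc) fun k => hb (k + 1)
      obtain ⟨x, hx1, hx2⟩ := exU (Filter.inter_mem h1 (hψ b))
      refine ⟨x, fun _ => ⟨fun k => ?_, hx2⟩⟩
      have h2 := hx1 k
      refine AE.mono h2 fun l hl => ?_
      have h3 : (b ++ [x]).length + k = b.length + (k + 1) := by
        rw [List.length_append, List.length_singleton]
        omega
      have h4 : b ++ [x] ++ l = b ++ x :: l := by simp
      rw [h3, h4]
      exact hl
    · obtain ⟨x, _⟩ := exU (hψ b)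
      exact ⟨x, fun h => absurd h hb⟩
  choose nx hnx using hs
  let sq : ℕ → List K := fun k => Nat.rec [] (fun _ b => b ++ [nx b]) k
  have hsq : ∀ k, sq (k + 1) = sq k ++ [nx (sq k)] := fun k => rfl
  have hG : ∀ k, Gd (sq k) := by
    intro k
    induction k with
    | zero => exact h0
    | succ k ih => rw [hsq]; exact (hnx _ ih).1
  have hm : ∀ k, (List.range k).map (fun k => nx (sq k)) = sq k := by
    intro k
    induction k with
    | zero => rfl
    | succ k ih => rw [List.range_succ, List.map_append, ih, hsq]; rfl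
  have hl : ∀ k, (sq k).length = k := by
    intro k
    rw [← hm]
    simp
  refine ⟨fun k => nx (sq k), fun k => ?_⟩
  rw [hm]
  refine ⟨?_, (hnx _ (hG k)).2⟩
  have h1 : φ ((sq k).length + 0) (sq k ++ []) := hG k 0
  rwa [hl, List.append_nil, Nat.add_zero] at h1

theorem isStem_repl {l : St K} {α : K} {f g : C K} (h : IsStem B bot (l ++ [(α, f)]))
    (hg : IsCol (nu α) g) : IsStem B bot (l ++ [(α, g)]) := by
  refine ⟨?_, ?_, ?_, ?_⟩
  · obtain ⟨f', t', h2⟩ := h.head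
    cases l with
    | nil =>
      simp only [List.nil_append, List.cons.injEq, Prod.mk.injEq] at h2
      exact ⟨g, [], by rw [← h2.1.1]; simp⟩
    | cons a t =>
      simp only [List.cons_append, List.cons.injEq] at h2
      exact ⟨f', t ++ [(α, g)], by rw [← h2.1]; simp⟩
  · intro a ha
    rcases List.mem_append.1 ha with ha | ha
    · exact h.mem a (List.mem_append_left _ ha)
    · rw [List.mem_singleton.1 ha]
      exact h.mem (α, f) (by simp)
  · have h3 := h.pw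
    rw [List.pairwise_append] at h3 ⊢
    refine ⟨h3.1, by simp, fun a ha b hb => ?_⟩
    rw [List.mem_singleton.1 hb]
    exact h3.2.2 a ha (α, f) (by simp)
  · intro a ha
    rcases List.mem_append.1 ha with ha | ha
    · exact h.col a (List.mem_append_left _ ha)
    · rw [List.mem_singleton.1 ha]
      exact hg

theorem stem_last {l : St K} {α : K} {f : C K} (h : IsStem B bot (l ++ [(α, f)])) :
    ∀ a ∈ l, Rel a α := by
  have h6 := h.pw
  rw [List.pairwise_append] at h6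
  exact fun a ha => h6.2.2 a ha (α, f) (by simp)

/-- the data -/
structure Ch (S : Su κ U B bot) (p0 : Cond U B bot) (F : ℕ → List K → K → Set (Cond U B bot))
    (hF : p0 ∈ IsFun fun x : ℕ × List K => F x.1 x.2) (Ω : Type) [LinearOrder Ω] where
  T : Ω → Ts U
  Z : Ω → Set (Nm U B bot)
  A : Ω → Set K
  A' : Ω → Set K
  h : Ω → K → K
  h' : Ω → K → K
  a : K → ℕ → K
  hs : ∀ i, Stg S (Z i) (T i) (A i) (A' i) (h i) (h' i)
  ltT : ∀ i j, i < j → T j ≤ T i
  ltZ : ∀ i j, i < j →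
    Zp S F p0 hF (p0.t.length - 1) (Z i) (T i) (A i) (hs i).memU (h i) (h' i) ⊆ Z j
  cst : ∀ i, ∀ ξ < nu (pt p0 (p0.t.length - 1)), (fun _ => ON.const _ ξ) ∈ Z i
  prj : ∀ i m k, (fun X : List (List K) => ON.const _ ((X.getD m []).getD k bot)) ∈ Z i
  p0c : ∀ i, {y | p0.c y ⊆ (T i).T y []} ∈ U
  amono : ∀ α k, a α k < a α (k + 1)
  acoh : ∀ i α k, (T i).T α ((List.range k).map (a α)) ⊆ (T i).T α ((List.range (k + 1)).map (a α))
  aB : ∀ i α k, ∀ g ∈ Z i, ∀ X0 l w, bdLL X0 α → bdSt l α →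
    (∃ f, IsCol (nu α) f ∧ ∃ A', Fc S (l ++ [(α, f)]) A' (T i).c
      (g (X0 ++ [(List.range k).map (a α)])) w) → w < a α k
  adec : ∀ α, (∀ i, α ∈ A' i) → ∀ i k, ∀ g ∈ Z i, ∀ (X0 : List (List K)) (l : St K),
    (∃ δ < α, bdLL X0 δ) → IsStem B bot l → (∀ a ∈ l, Rel a α) →
      ∃ l', Rf l' l ∧ ∃ w, Fc S (l' ++ [(α, (T i).T α ((List.range k).map (a α)))])
        (A i ∩ Ab (X0 ++ [(List.range k).map (a α)]) (nu α)) (T i).c
        ((g (X0 ++ [(List.range k).map (a α)])).trunc (nu α)) w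
  abnd : ∀ α, (∀ i, α ∈ A' i) → ∀ i k, ∀ g ∈ Z i, ∀ (X0 : List (List K)) (l : St K) (w : K),
    0 < l.length → (∃ δ < α, bdLL X0 δ) →
      Fa S (T i) (A i) α ((List.range k).map (a α)) g X0 l w →
        (w < suc α → w < h i α) ∧ (w < nu α → w < h' i α)
  ahom : ∀ α, (∀ i, α ∈ A' i) → ∀ i k, ∀ g ∈ Z i, ∀ (X0 : List (List K)) (l : St K) (w : K),
    0 < l.length → (∃ δ < α, bdLL X0 δ) → w < α →
      Fa S (T i) (A i) α ((List.range k).map (a α)) g X0 l w →
        {α' | AE U k fun b' => Fa S (T i) (A i) α' b' g X0 l w} ∈ U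

variable (S : Su κ U B bot)

include S

theorem mk_W {ρ : Cardinal.{0}} (hρ' : ρ < κ) {Ω : Type} (hΩ : #Ω ≤ ρ) {T : Ω → Ts U}
    {Z : Ω → Set (Nm U B bot)} (hZ : ∀ i, #(Z i) ≤ ρ) (α : K) (b : List K) :
    {x | ∀ i, ∀ g ∈ Z i, ∀ X0 l w, bdLL X0 α → bdSt l α →
      (∃ f, IsCol (nu α) f ∧ ∃ A', Fc S (l ++ [(α, f)]) A' (T i).c (g (X0 ++ [b])) w) → w < x}
      ∈ U := by
  have hN := S.hN
  let W : (Σ i : Ω, Z i) × {X0 : List (List K) // bdLL X0 α} × {l : St K // bdSt l α} → Set K :=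
    fun y => {w | ∃ f, IsCol (nu α) f ∧ ∃ A', Fc S (y.2.2.1 ++ [(α, f)]) A' (T y.1.1).c
      (y.1.2.1 (y.2.1.1 ++ [b])) w}
  have h1 : #((Σ i : Ω, Z i) × {X0 : List (List K) // bdLL X0 α} × {l : St K // bdSt l α}) < κ := by
    simp only [mk_prod, lift_id]
    exact mul_lt_of_lt hN.unc.le (mk_sigma_lt hN (hΩ.trans_lt hρ') fun i => (hZ i).trans_lt hρ')
      (mul_lt_of_lt hN.unc.le (mk_bdLL hN α) (mk_bdSt hN α))
  have h2 : ∀ y, #(W y) < κ := by
    rintro ⟨⟨i, g, hg⟩, ⟨X0, hX⟩, l, hl⟩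
    refine phi_form (γ := nu α) (Q := fun _ => True) (fun W h1 h2 => kcc hN W (fun f hf =>
      (h1 f hf).1) h2) (fun f w => IsCol (nu α) f ∧ ∃ A', Fc S (l ++ [(α, f)]) A' (T i).c
      (g (X0 ++ [b])) w) (fun f w h => ⟨h.1, trivial⟩) ?_
    rintro f f' w w' ⟨hf, A1, h3⟩ ⟨hf', A2, h4⟩ hff
    obtain ⟨ht1, hA1, _⟩ := id h3
    obtain ⟨ht2, hA2, _⟩ := id h4
    have ht := isStem_repl ht1 hff
    have h5 : Fc S (l ++ [(α, f ∪ f')]) (A1 ∩ A2) (T i).c (g (X0 ++ [b])) w :=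
      h3.mono S (Rf.append (Rf.refl _) (Rf.single ⟨rfl, subset_union_left⟩)) ht
        (Filter.inter_mem hA1 hA2) inter_subset_left fun _ _ => Subset.rfl
    have h6 : Fc S (l ++ [(α, f ∪ f')]) (A1 ∩ A2) (T i).c (g (X0 ++ [b])) w' :=
      h4.mono S (Rf.append (Rf.refl _) (Rf.single ⟨rfl, subset_union_right⟩)) ht
        (Filter.inter_mem hA1 hA2) inter_subset_right fun _ _ => Subset.rfl
    exact Fc.disj S h5 h6
  obtain ⟨c, hc⟩ := hN.bdd _ (mk_iUnion_lt hN h1 h2)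
  refine Filter.mem_of_superset (hN.tail c) fun x hx i g hg X0 l w hX hl hw => ?_
  exact (hc w (mem_iUnion.2 ⟨(⟨i, g, hg⟩, ⟨X0, hX⟩, ⟨l, hl⟩), hw⟩)).trans hx

theorem exists_ch {p0 : Cond U B bot} {F : ℕ → List K → K → Set (Cond U B bot)}
    (hF : p0 ∈ IsFun fun x : ℕ × List K => F x.1 x.2) (Ω : Type) [LinearOrder Ω]
    [WellFoundedLT Ω] (hΩ : #Ω ≤ sz (nu (pt p0 (p0.t.length - 1)))) : Nonempty (Ch S p0 F hF Ω) := by
  classical
  have hN := S.hN
  let ρ := sz (nu (pt p0 (p0.t.length - 1)))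
  have hρ : ℵ₀ ≤ ρ := inf_nu hN _
  have hρ' : ρ < κ := hN.small _
  -- the starting system
  have hT0 : ∀ y, ∃ T, IsSys U y T ∧ (∀ l, (∅ : C K) ⊆ T l) ∧ T [] = p0.c y := fun y =>
    (isSys_empty hN y).lift hN (p0.col y) (empty_subset _)
  choose T0 hT01 hT02 hT03 using hT0
  let Z0 : Set (Nm U B bot) := range (fun (ξ : Iio (nu (pt p0 (p0.t.length - 1))))
    (_ : List (List K)) => ON.const (Cond U B bot) (ξ : K)) ∪
      range (fun (x : ℕ × ℕ) (X : List (List K)) =>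
        ON.const (Cond U B bot) ((X.getD x.1 []).getD x.2 bot))
  have hZ0 : #Z0 ≤ ρ := by
    refine (mk_union_le _ _).trans (add_le_of_le hρ mk_range_le (mk_range_le.trans ?_))
    simp only [mk_prod, lift_id, mk_nat]
    rw [aleph0_mul_aleph0]
    exact hρ
  obtain ⟨T, Z, A, A', h, h', hs, hch⟩ := chain S hF (p0.t.length - 1) hρ hρ' Ω hΩ Z0 hZ0 ⟨T0, hT01⟩
  have hΩκ : #Ω < κ := hΩ.trans_lt hρ'
  -- the sequences
  let φ : K → ℕ → List K → Prop := fun α k b => (∀ i, α ∈ A' i) → ∀ i,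
    (∀ g ∈ Z i, ∀ (X0 : List (List K)) (l : St K), (∃ δ < α, bdLL X0 δ) → IsStem B bot l →
      (∀ a ∈ l, Rel a α) → ∃ l', Rf l' l ∧ ∃ w, Fc S (l' ++ [(α, (T i).T α b)])
        (A i ∩ Ab (X0 ++ [b]) (nu α)) (T i).c ((g (X0 ++ [b])).trunc (nu α)) w) ∧
    (∀ g ∈ Z i, ∀ (X0 : List (List K)) (l : St K) (w : K), 0 < l.length → (∃ δ < α, bdLL X0 δ) →
      Fa S (T i) (A i) α b g X0 l w → (w < suc α → w < h i α) ∧ (w < nu α → w < h' i α)) ∧
    (∀ g ∈ Z i, ∀ (X0 : List (List K)) (l : St K) (w : K), 0 < l.length → (∃ δ < α, bdLL X0 δ) →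
      w < α → Fa S (T i) (A i) α b g X0 l w →
        {α' | AE U k fun b' => Fa S (T i) (A i) α' b' g X0 l w} ∈ U)
  have hφ : ∀ α k, AE U k (φ α k) := by
    intro α k
    by_cases hα : ∀ i, α ∈ A' i
    · refine (AE_all hN hΩκ (k := k) fun i => ((hs i).dec α (hα i) k).and
        ((((hs i).bnd α (hα i)).2.2 k).and ((hs i).hom α (hα i) k))).mono ?_
      intro b hb _ i
      exact hb i
    · exact AE.univ fun b h1 => absurd h1 hα
  let ψ : K → List K → K → Prop := fun α b x => ((∀ z ∈ b, z < x) ∧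
    (∀ i, (T i).T α b ⊆ (T i).T α (b ++ [x]))) ∧ ∀ i, ∀ g ∈ Z i, ∀ X0 l w, bdLL X0 α → bdSt l α →
      (∃ f, IsCol (nu α) f ∧ ∃ A', Fc S (l ++ [(α, f)]) A' (T i).c (g (X0 ++ [b])) w) → w < x
  have hψ : ∀ α b, {x | ψ α b x} ∈ U := by
    intro α b
    refine Filter.inter_mem (Filter.inter_mem ?_ ?_) (mk_W S hρ' hΩ (fun i => (hch i).1) α b)
    · have : Nonempty K := ⟨bot⟩
      obtain ⟨δ, hδ⟩ := exists_bdL b
      exact Filter.mem_of_superset (hN.tail δ) fun x hx z hz => (hδ z hz).trans_lt hx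
    · refine ae_all hN hΩκ (A := fun i => {x | (T i).T α b ⊆ (T i).T α (b ++ [x])}) fun i => ?_
      refine Filter.mem_of_superset (((T i).sys α).coh b) fun x hx => ?_
      have hx' : res ((T i).T α (b ++ [x])) x = (T i).T α b := hx
      change (T i).T α b ⊆ (T i).T α (b ++ [x])
      rw [← hx']
      exact res_subset _ _
  choose a ha using fun α => ae_seq hN (hφ α) (hψ α)
  refine ⟨⟨T, Z, A, A', h, h', a, hs, fun i j hij => ((hch j).2.2.2 i hij).1,
    fun i j hij => ((hch j).2.2.2 i hij).2, fun i ξ hξ => (hch i).2.1 (Or.inl ⟨⟨ξ, hξ⟩, rfl⟩),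
    fun i m k => (hch i).2.1 (Or.inr ⟨(m, k), rfl⟩), fun i => ?_, fun α k => ?_, fun i α k => ?_,
    fun i α k => ((ha α k).2.2 i), fun α hα i k => ((ha α k).1 hα i).1,
    fun α hα i k => ((ha α k).1 hα i).2.1, fun α hα i k => ((ha α k).1 hα i).2.2⟩⟩
  · refine Filter.mem_of_superset (hch i).2.2.1 fun y hy => ?_
    have h1 := hy []
    change p0.c y ⊆ _
    rw [← hT03 y]
    exact h1
  · refine (ha α (k + 1)).2.1.1 _ ?_
    rw [List.range_succ, List.map_append]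
    simp
  · have h1 := (ha α k).2.1.2 i
    rw [List.range_succ, List.map_append]
    exact h1

end

end Pool.Agent.W2helper53.MS
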