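import Pool.Agent.W2helper53.MS.Sys

/-!
# One stage of the construction
-/

set_option linter.unusedSectionVars false

namespace Pool.Agent.W2helper53.MS

open Cardinal Set Pool.Agent.V11248.Pk Pool.Agent.Helper669.Forcing

section

variable {κ : Cardinal.{0}} {K : Type} [LinearOrder K] [WellFoundedLT K] {U : Ultrafilter K}

/-- coherent systems for all points, modulo the measure -/
structure Ts (U : Ultrafilter K) where
  T : K → List K → C K
  sys : ∀ a, IsSys U a (T a)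

instance : Preorder (Ts U) where
  le T' T := {a | ∀ l, T.T a l ⊆ T'.T a l} ∈ U
  le_refl T := Filter.univ_mem' fun _ _ => Subset.rfl
  le_trans a b c h h' := Filter.mem_of_superset (Filter.inter_mem h h')
    fun _ hy l => Subset.trans (hy.2 l) (hy.1 l)

/-- the conditions at the empty sequence -/
def Ts.c (T : Ts U) : Up U := ⟨fun y => T.T y [], fun y => (T.sys y).col []⟩

theorem closedTs (hN : Normal κ U) : Closed κ (Ts U) := by
  classical
  intro I _ _ f hI _ hf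
  rw [← hN.card] at hI
  obtain ⟨e⟩ := hI
  have h1 : ∀ δ : K, #{i // e i ≤ δ} < κ := by
    intro δ
    refine lt_of_le_of_lt ?_ (hN.smallIic δ)
    exact mk_le_of_injective (f := fun i : {i // e i ≤ δ} => (⟨e i, i.2⟩ : Iic δ))
      fun i j hij => Subtype.ext (e.injective (Subtype.mk.inj hij))
  have hG : {y : K | ∀ i j, e i < y → e j < y → i ≤ j → ∀ l, (f i).T y l ⊆ (f j).T y l} ∈ U := by
    have h2 := diag hN (S := I × I) (fun x δ => e x.1 ≤ δ ∧ e x.2 ≤ δ)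
      (fun δ => mk_prod_small hN (fun i => e i ≤ δ) (fun i => e i ≤ δ) (h1 δ) (h1 δ))
      (fun x => {y | x.1 ≤ x.2 → ∀ l, (f x.1).T y l ⊆ (f x.2).T y l}) (by
        rintro ⟨i, j⟩ _
        by_cases h : i ≤ j
        · exact Filter.mem_of_superset (hf i j h) fun y hy _ => hy
        · exact Filter.univ_mem' fun y h' => absurd h' h)
    refine Filter.mem_of_superset h2 fun y hy i j hi hj hij => ?_
    exact hy (max (e i) (e j)) (max_lt hi hj) (i, j) ⟨le_max_left _ _, le_max_right _ _⟩ hij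
  have hex : ∀ y : K, ∃ T : List K → C K, IsSys U y T ∧
      ((∀ i j, e i < y → e j < y → i ≤ j → ∀ l, (f i).T y l ⊆ (f j).T y l) →
        ∀ i, e i < y → ∀ l, (f i).T y l ⊆ T l) := by
    intro y
    by_cases h : ∀ i j, e i < y → e j < y → i ≤ j → ∀ l, (f i).T y l ⊆ (f j).T y l
    · refine ⟨fun l => ⋃ i : {i // e i < y}, (f i).T y l, sys_union hN ?_
        (fun i => (f i).sys y) fun i j => ?_, fun _ i hi l =>
          subset_iUnion (fun i : {i // e i < y} => (f i).T y l) ⟨i, hi⟩⟩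
      · refine lt_of_le_of_lt ?_ ((sz_lt_suc hN y).trans (sz_lt_suc hN _))
        exact mk_le_of_injective (f := fun i : {i // e i < y} => (⟨e i, i.2⟩ : Iio y))
          fun i j hij => Subtype.ext (e.injective (Subtype.mk.inj hij))
      · rcases le_total i.1 j.1 with h' | h'
        · exact ⟨j, fun l => ⟨h i j i.2 j.2 h' l, Subset.rfl⟩⟩
        · exact ⟨i, fun l => ⟨Subset.rfl, h j i j.2 i.2 h' l⟩⟩
    · exact ⟨fun _ => ∅, isSys_empty hN y, fun h' => absurd h' h⟩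
  choose T hT1 hT2 using hex
  refine ⟨⟨T, hT1⟩, fun i => ?_⟩
  refine Filter.mem_of_superset (Filter.inter_mem hG (hN.tail (e i))) ?_
  rintro y ⟨h2, h3⟩ l
  exact hT2 y h2 i h3 l

/-- names for functions on finite sequences of blocks of points -/
abbrev Nm (U : Ultrafilter K) (B : Set K) (bot : K) := List (List K) → ON (Cond U B bot) K

variable {B : Set K} {bot : K}

def bdG (x : Nm U B bot × List (List K) × K) (δ : K) : Prop := bdLL x.2.1 δ ∧ x.2.2 ≤ δ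

/-- the points above all elements of `X` and above `γ` -/
def Ab (X : List (List K)) (γ : K) : Set K := {z | ∃ δ < z, bdLL X δ ∧ γ ≤ δ}

theorem bdL_mono {l : List K} {δ δ' : K} (h : bdL l δ) (h' : δ ≤ δ') : bdL l δ' :=
  fun z hz => (h z hz).trans h'

theorem bdLL_mono {X : List (List K)} {δ δ' : K} (h : bdLL X δ) (h' : δ ≤ δ') : bdLL X δ' :=
  fun l hl => bdL_mono (h l hl) h'

theorem exists_bdL [Nonempty K] (l : List K) : ∃ δ, bdL l δ := by
  induction l with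
  | nil => exact ⟨Classical.arbitrary K, fun z hz => absurd hz (by simp)⟩
  | cons a l ih =>
    obtain ⟨δ, hδ⟩ := ih
    refine ⟨max a δ, fun z hz => ?_⟩
    rcases List.mem_cons.1 hz with rfl | hz
    · exact le_max_left _ _
    · exact (hδ z hz).trans (le_max_right _ _)

theorem exists_bdLL [Nonempty K] (X : List (List K)) : ∃ δ, bdLL X δ := by
  induction X with
  | nil => exact ⟨Classical.arbitrary K, fun z hz => absurd hz (by simp)⟩
  | cons a l ih =>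
    obtain ⟨δ, hδ⟩ := ih
    obtain ⟨δ', hδ'⟩ := exists_bdL a
    refine ⟨max δ' δ, fun z hz => ?_⟩
    rcases List.mem_cons.1 hz with rfl | hz
    · exact bdL_mono hδ' (le_max_left _ _)
    · exact bdL_mono (hδ z hz) (le_max_right _ _)

theorem Ab_mem (hN : Normal κ U) (X : List (List K)) (γ : K) : Ab X γ ∈ U := by
  have : Nonempty K := ⟨γ⟩
  obtain ⟨δ, hδ⟩ := exists_bdLL X
  exact Filter.mem_of_superset (hN.tail (max δ γ)) fun z hz =>
    ⟨max δ γ, hz, bdLL_mono hδ (le_max_left _ _), le_max_right _ _⟩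

variable (S : Su κ U B bot)

include S

/-- the condition with stem `t` and upper part `A, c` forces that the value of `n` is `w` -/
def Fc (t : St K) (A : Set K) (c : Up U) (n : ON (Cond U B bot) K) (w : K) : Prop :=
  ∃ (ht : IsStem B bot t) (hA : A ∈ U), mkC S t ht A hA c.c c.col ∈ n.v w

theorem Fc.mono {t t' : St K} {A A' : Set K} {c c' : Up U} {n : ON (Cond U B bot) K} {w : K}
    (h : Fc S t A c n w) (h1 : Rf t' t) (ht' : IsStem B bot t') (hA : A' ∈ U) (h2 : A' ⊆ A)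
    (h3 : ∀ y ∈ A', c.c y ⊆ c'.c y) : Fc S t' A' c' n w := by
  obtain ⟨ht, hA0, h4⟩ := h
  exact ⟨ht', hA, n.down w _ h4 _ (mkC_le S h1 (fun y hy _ _ => h2 hy) fun y hy _ _ => h3 y hy)⟩

theorem Fc.disj {t : St K} {A : Set K} {c : Up U} {n : ON (Cond U B bot) K} {w w' : K}
    (h : Fc S t A c n w) (h' : Fc S t A c n w') : w = w' := by
  obtain ⟨_, _, h⟩ := h
  obtain ⟨_, _, h'⟩ := h'
  exact n.disj _ _ _ h h'

theorem Key.mono {T : Type} {bd : T → K → Prop} {D : T → ON (Cond U B bot) K} {A A' : Set K}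
    {c c' : K → C K} (h : Key S bd D A c) (hA : A' ⊆ A) (hc : ∀ y ∈ A', c y ⊆ c' y) :
    Key S bd D A' c' := by
  intro x p hp r hr w hw
  exact h x p (fun y hy => ⟨hA (hp y hy).1, (hp y hy).2.1, (hc y (hp y hy).1).trans (hp y hy).2.2⟩)
    r hr w hw

/-- the family of the truncations of the names in `Z` -/
def DZ (Z : Set (Nm U B bot)) (x : Z × List (List K) × K) : ON (Cond U B bot) K :=
  (x.1.1 x.2.1).trunc x.2.2

def bdZ (Z : Set (Nm U B bot)) (x : Z × List (List K) × K) (δ : K) : Prop :=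
  bdLL x.2.1 δ ∧ x.2.2 ≤ δ

/-- the statement that the stem `l`, followed by the point `α` with the condition `T α b` forces
that the value of `g` at `X₀ ++ [b]` is `w` -/
def Fa (T : Ts U) (A : Set K) (α : K) (b : List K) (g : Nm U B bot) (X0 : List (List K))
    (l : St K) (w : K) : Prop :=
  Fc S (l ++ [(α, T.T α b)]) (A ∩ Ab (X0 ++ [b]) (nu α)) T.c (g (X0 ++ [b])) w

/-- The properties achieved by a stage for the names in `Z`. -/
structure Stg (Z : Set (Nm U B bot)) (T : Ts U) (A A' : Set K) (h h' : K → K) : Prop where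
  memU : A ∈ U
  memU' : A' ∈ U
  sub : A ⊆ B
  sub' : A' ⊆ A
  key : Key S (bdZ Z) (DZ Z) A T.c.c
  dec : ∀ α ∈ A', ∀ k, AE U k fun b => ∀ g ∈ Z, ∀ (X0 : List (List K)) (l : St K),
    (∃ δ < α, bdLL X0 δ) → IsStem B bot l → (∀ a ∈ l, Rel a α) →
      ∃ l', Rf l' l ∧ ∃ w, Fc S (l' ++ [(α, T.T α b)]) (A ∩ Ab (X0 ++ [b]) (nu α)) T.c
        ((g (X0 ++ [b])).trunc (nu α)) w
  bnd : ∀ α ∈ A', h α < suc α ∧ h' α < nu α ∧ ∀ k, AE U k fun b => ∀ g ∈ Z,
    ∀ (X0 : List (List K)) (l : St K) (w : K), 0 < l.length → (∃ δ < α, bdLL X0 δ) →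
      Fa S T A α b g X0 l w → (w < suc α → w < h α) ∧ (w < nu α → w < h' α)
  hom : ∀ α ∈ A', ∀ k, AE U k fun b => ∀ g ∈ Z,
    ∀ (X0 : List (List K)) (l : St K) (w : K), 0 < l.length → (∃ δ < α, bdLL X0 δ) → w < α →
      Fa S T A α b g X0 l w → {α' | AE U k fun b' => Fa S T A α' b' g X0 l w} ∈ U

theorem key_fc {T : Type} {bd : T → K → Prop} {D : T → ON (Cond U B bot) K} {A : Set K}
    {c : Up U} (h : Key S bd D A c.c) {x : T} {t : St K} {ht : IsStem B bot t} {A' : Set K}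
    {hA' : A' ∈ U} (h1 : A' ⊆ A) (h2 : A' ⊆ XX bd x) {r : Cond U B bot}
    (hr : r ≤ mkC S t ht A' hA' c.c c.col) {w : K} (hw : r ∈ (D x).v w) :
    Fc S (r.t.take t.length) A' c (D x) w := by
  have h3 := h x (mkC S t ht A' hA' c.c c.col)
    (fun y hy => ⟨h1 hy.1, h2 hy.1, Subset.rfl⟩) r hr w hw
  refine ⟨r.stem.take ht.pos, hA', (D x).down w _ h3 _ (mkC_le S (Rf.refl _) ?_
    fun _ _ _ _ => Subset.rfl)⟩
  intro y hy hyB hyr
  refine ⟨hy, hyB, fun a ha => ?_⟩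
  obtain ⟨b, hb, hab⟩ := ((le_mkC S).1 hr).1.mem ha
  exact (hyr b hb).ref hab

omit S in
theorem rf_snoc {t l : St K} {α : K} {f : C K} (h : Rf t (l ++ [(α, f)])) :
    ∃ l' g, t = l' ++ [(α, g)] ∧ Rf l' l ∧ f ⊆ g := by
  have h1 := h.take l.length
  have h2 := h.drop l.length
  rw [List.take_left] at h1
  rw [List.drop_left] at h2
  unfold Rf at h2
  rw [List.forall₂_cons_right_iff] at h2
  obtain ⟨a, u, h3, h4, h5⟩ := h2
  rw [List.forall₂_nil_right_iff] at h4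
  subst h4
  refine ⟨t.take l.length, a.2, ?_, h1, h3.2⟩
  have h6 : a = (α, a.2) := Prod.ext h3.1 rfl
  rw [← h6, ← h5, List.take_append_drop]

theorem mk_bdZ {Z : Set (Nm U B bot)} (hZ : #Z < κ) (δ : K) :
    #{x : Z × List (List K) × K // bdZ Z x δ} < κ := by
  have hN := S.hN
  have h1 := mk_prod_small hN (S := Z) (T := List (List K) × K) (fun _ => True)
    (fun x => bdLL x.1 δ ∧ x.2 ≤ δ) (by
      refine lt_of_le_of_lt ?_ hZ
      exact mk_subtype_le _)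
    (mk_prod_small hN (fun X => bdLL X δ) (fun γ => γ ≤ δ) (mk_bdLL hN δ) (hN.smallIic δ))
  refine lt_of_le_of_lt (mk_le_of_injective (f := fun x => ⟨x.1, trivial, x.2.1, x.2.2⟩) ?_) h1
  intro x y hxy
  exact Subtype.ext (Subtype.mk.inj hxy)

theorem stage_key {Z : Set (Nm U B bot)} (hZ : #Z < κ) (T0 : Ts U) :
    ∃ T : Ts U, T ≤ T0 ∧ ∃ A ∈ U, A ⊆ B ∧ Key S (bdZ Z) (DZ Z) A T.c.c := by
  classical
  have hN := S.hN
  obtain ⟨c, hc, A, hA, hk⟩ := key S (bd := bdZ Z) (D := DZ Z)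
    (fun x δ δ' h h' => ⟨bdLL_mono h.1 h', h.2.trans h'⟩) (mk_bdZ S hZ) (by
      intro x
      have := hN.noMax
      obtain ⟨δ, hδ⟩ := exists_gt x.2.2
      exact ⟨δ, fun w p hw => (ON.trunc_le hw).trans_lt hδ⟩) T0.c
  have h1 : ∀ y, ∃ T, IsSys U y T ∧ (∀ l, T0.T y l ⊆ T l) ∧ (T0.T y [] ⊆ c.c y → T [] = c.c y) := by
    intro y
    by_cases hy : T0.T y [] ⊆ c.c y
    · obtain ⟨T', h1, h2, h3⟩ := (T0.sys y).lift hN (c.col y) hy
      exact ⟨T', h1, h2, fun _ => h3⟩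
    · exact ⟨T0.T y, T0.sys y, fun _ => Subset.rfl, fun h => absurd h hy⟩
  choose T hT1 hT2 hT3 using h1
  refine ⟨⟨T, hT1⟩, Filter.univ_mem' hT2, A ∩ (B ∩ {y | T0.T y [] ⊆ c.c y}),
    Filter.inter_mem hA (Filter.inter_mem S.hB hc), fun y hy => hy.2.1, ?_⟩
  refine Key.mono S hk inter_subset_left fun y hy => ?_
  exact (hT3 y hy.2.2).ge

/-- the tasks at the point `α` -/
def Tk (Z : Set (Nm U B bot)) (α : K) : Type :=
  {x : Z × List (List K) × St K // ∃ δ < α, bdLL x.2.1 δ ∧ bdSt x.2.2 δ}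

theorem mk_tk {Z : Set (Nm U B bot)} (hZ : #Z < κ) (δ : K) :
    #{x : Z × List (List K) × St K // bdLL x.2.1 δ ∧ bdSt x.2.2 δ} < κ := by
  have hN := S.hN
  have h1 := mk_prod_small hN (S := Z) (T := List (List K) × St K) (fun _ => True)
    (fun x => bdLL x.1 δ ∧ bdSt x.2 δ) (by
      refine lt_of_le_of_lt ?_ hZ
      exact mk_subtype_le _)
    (mk_prod_small hN (fun X => bdLL X δ) (fun t => bdSt t δ) (mk_bdLL hN δ) (mk_bdSt hN δ))
  refine lt_of_le_of_lt (mk_le_of_injective (f := fun x => ⟨x.1, trivial, x.2.1, x.2.2⟩) ?_) h1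
  intro x y hxy
  exact Subtype.ext (Subtype.mk.inj hxy)

theorem stage_dec {Z : Set (Nm U B bot)} (hZ : #Z < κ) {T0 : Ts U} {A : Set K} (hA : A ∈ U)
    (hAB : A ⊆ B) (hk : Key S (bdZ Z) (DZ Z) A T0.c.c) :
    ∃ T : Ts U, (∀ α l, T0.T α l ⊆ T.T α l) ∧ ∃ A' ∈ U, A' ⊆ A ∧ (∀ α ∈ A', #(Tk Z α) ≤ sz α) ∧
      ∀ α ∈ A', ∀ k, AE U k fun b => ∀ g ∈ Z, ∀ (X0 : List (List K)) (l : St K),
        (∃ δ < α, bdLL X0 δ) → IsStem B bot l → (∀ a ∈ l, Rel a α) →
      ∃ l', Rf l' l ∧ ∃ w, Fc S (l' ++ [(α, T.T α b)]) (A ∩ Ab (X0 ++ [b]) (nu α)) T.c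
        ((g (X0 ++ [b])).trunc (nu α)) w := by
  classical
  have hN := S.hN
  let E : ∀ α : K, Tk Z α × ℕ → List K → Set (C K) := fun α s b => {f |
    IsStem B bot s.1.1.2.2 → (∀ a ∈ s.1.1.2.2, Rel a α) →
      ∃ l', Rf l' s.1.1.2.2 ∧ ∃ w, Fc S (l' ++ [(α, f)]) (A ∩ Ab (s.1.1.2.1 ++ [b]) (nu α)) T0.c
        ((s.1.1.1.1 (s.1.1.2.1 ++ [b])).trunc (nu α)) w}
  have h1 : ∀ α : K, ∃ T, IsSys U α T ∧ (∀ l, T0.T α l ⊆ T l) ∧ (α ∈ A → #(Tk Z α) ≤ sz α →
      ∀ s : Tk Z α × ℕ, AE U s.2 fun b => T b ∈ E α s b) := by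
    intro α
    by_cases hα : α ∈ A ∧ #(Tk Z α) ≤ sz α
    · obtain ⟨hα, hc⟩ := hα
      have hR : #(Tk Z α × ℕ) ≤ sz (suc α) := by
        rw [mk_prod, lift_id, lift_id, mk_nat]
        exact (mul_le_mul' (hc.trans (sz_lt_suc hN α).le) (inf_suc hN α)).trans
          (mul_eq_self (inf_suc hN α)).le
      have hE1 : ∀ s l f, IsCol (nu α) f → ∃ g, IsCol (nu α) g ∧ f ⊆ g ∧ g ∈ E α s l := by
        rintro ⟨⟨⟨g, X0, l⟩, hx⟩, k⟩ b f hf
        by_cases hl : IsStem B bot l ∧ ∀ a ∈ l, Rel a α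
        · obtain ⟨hl, hlα⟩ := hl
          have ht := isStem_snoc S hl (hAB hα) hlα hf
          have hA' : A ∩ Ab (X0 ++ [b]) (nu α) ∈ U := Filter.inter_mem hA (Ab_mem hN _ _)
          obtain ⟨r, hr, w, hw⟩ := (g.1 (X0 ++ [b])).trunc_total (nu α)
            (mkC S _ ht _ hA' T0.c.c T0.c.col)
          have h2 := key_fc S hk (x := (g, X0 ++ [b], nu α)) inter_subset_left inter_subset_right
            hr hw
          have h3 := ((le_mkC S).1 hr).1
          obtain ⟨l', f', h4, h5, h6⟩ := rf_snoc h3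
          rw [h4] at h2
          obtain ⟨hst, _, _⟩ := id h2
          exact ⟨f', hst.col (α, f') (by simp), h6, fun _ _ => ⟨l', h5, w, h2⟩⟩
        · exact ⟨f, hf, Subset.rfl, fun h1 h2 => absurd ⟨h1, h2⟩ hl⟩
      have hE2 : ∀ s l f g, f ∈ E α s l → IsCol (nu α) g → f ⊆ g → g ∈ E α s l := by
        rintro ⟨⟨⟨g, X0, l⟩, hx⟩, k⟩ b f f' hf hf' hff' hl hlα
        obtain ⟨l', h2, w, h3⟩ := hf hl hlα
        obtain ⟨hst, hA', _⟩ := id h3
        have hst' : IsStem B bot (l' ++ [(α, f')]) := by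
          have h4 : IsStem B bot l' := by
            have h5 := hst.take (n := l'.length) (by rw [h2.length]; exact hl.pos)
            rwa [List.take_left] at h5
          refine isStem_snoc S h4 (hAB hα) ?_ hf'
          have h6 := hst.pw
          rw [List.pairwise_append] at h6
          exact fun a ha => h6.2.2 a ha (α, f) (by simp)
        exact ⟨l', h2, w, h3.mono S (Rf.append (Rf.refl _) (Rf.single ⟨rfl, hff'⟩)) hst' hA'
          Subset.rfl fun _ _ => Subset.rfl⟩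
      obtain ⟨T, hT1, hT2, hT3⟩ := (T0.sys α).meet hN hR (fun s => s.2) (E α) hE1 hE2
      exact ⟨T, hT1, hT2, fun _ _ => hT3⟩
    · exact ⟨T0.T α, T0.sys α, fun _ => Subset.rfl, fun h1 h2 => absurd ⟨h1, h2⟩ hα⟩
  choose T hT1 hT2 hT3 using h1
  refine ⟨⟨T, hT1⟩, hT2, A ∩ {α | #(Tk Z α) ≤ sz α}, Filter.inter_mem hA
    (ae_count hN (S := Z × List (List K) × St K) (fun x δ => bdLL x.2.1 δ ∧ bdSt x.2.2 δ)
      (mk_tk S hZ)), inter_subset_left,
      fun α hα => hα.2, ?_⟩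
  rintro α ⟨hα, hc⟩ k
  have h2 : #(Tk Z α) < κ := lt_of_le_of_lt hc (hN.small α)
  refine (AE_all hN h2 (k := k) fun s => hT3 α hα hc (s, k)).mono ?_
  rintro b hb g hg X0 l ⟨δ, hδ, hX⟩ hl hlα
  obtain ⟨δ', hδ', hlδ⟩ := Good.exists_bd (S.good α (hAB hα)) hl.col hlα
  obtain ⟨l', h3, w, h4⟩ := hb ⟨(⟨g, hg⟩, X0, l), max δ δ', max_lt hδ hδ',
    bdLL_mono hX (le_max_left _ _), bdSt_mono hlδ (le_max_right _ _)⟩ hl hlα
  obtain ⟨hst, hA', _⟩ := id h4
  exact ⟨l', h3, w, h4.mono S (Rf.refl _) hst hA' Subset.rfl fun y _ => hT2 y []⟩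

theorem mk_ex_lt {T : Type} {bd : T → K → Prop} (h : ∀ δ, #{s // bd s δ} < κ) (α : K) :
    #{s // ∃ δ < α, bd s δ} < κ := by
  have h1 : {s : T | ∃ δ < α, bd s δ} ⊆ ⋃ δ : Iio α, {s | bd s δ} := by
    rintro s ⟨δ, hδ, hs⟩
    exact mem_iUnion.2 ⟨⟨δ, hδ⟩, hs⟩
  exact (mk_le_mk_of_subset h1).trans_lt (mk_iUnion_lt S.hN (S.hN.small α) fun δ => h δ)

/-- the stem in the statement `Fa` is bounded below `α` -/
theorem Fa.bd {T : Ts U} {A : Set K} {α : K} {b : List K} {g : Nm U B bot} {X0 : List (List K)}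
    {l : St K} {w : K} (hα : α ∈ B) (hl : 0 < l.length) (h : Fa S T A α b g X0 l w) :
    IsStem B bot l ∧ (∀ a ∈ l, Rel a α) ∧ ∃ δ < α, bdSt l δ := by
  obtain ⟨ht, _, _⟩ := h
  have h1 : IsStem B bot l := by
    have h5 := ht.take (n := l.length) hl
    rwa [List.take_left] at h5
  have h2 : ∀ a ∈ l, Rel a α := by
    have h6 := ht.pw
    rw [List.pairwise_append] at h6
    exact fun a ha => h6.2.2 a ha (α, T.T α b) (by simp)
  exact ⟨h1, h2, Good.exists_bd (S.good α hα) h1.col h2⟩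

theorem stage_bnd {Z : Set (Nm U B bot)} {T : Ts U} {A : Set K} {α μ : K} (hα : α ∈ B)
    (hT : #(Tk Z α) < sz μ) (hμ : Rg μ) (hμ' : ℵ₀ < sz μ) :
    ∃ h < μ, ∀ k, AE U k fun b => ∀ g ∈ Z, ∀ (X0 : List (List K)) (l : St K) (w : K),
      0 < l.length → (∃ δ < α, bdLL X0 δ) → Fa S T A α b g X0 l w → w < μ → w < h := by
  classical
  have hN := S.hN
  have h1 : ∀ b : List K, ∃ v < μ, ∀ w, w < μ →
      (∃ x : Tk Z α, Fa S T A α b x.1.1.1 x.1.2.1 x.1.2.2 w) → w < v := by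
    intro b
    obtain ⟨v, hv, hv'⟩ := hμ {w | w < μ ∧ ∃ x : Tk Z α, Fa S T A α b x.1.1.1 x.1.2.1 x.1.2.2 w}
      (fun w hw => hw.1) (by
        refine lt_of_le_of_lt ?_ hT
        choose x hx using fun w : {w | w < μ ∧ ∃ x : Tk Z α,
          Fa S T A α b x.1.1.1 x.1.2.1 x.1.2.2 w} => w.2.2
        refine mk_le_of_injective (f := x) fun w w' hw => Subtype.ext ?_
        have h2 := hx w
        rw [hw] at h2
        exact Fc.disj S h2 (hx w'))
    exact ⟨v, hv, fun w hw hx => hv' w ⟨hw, hx⟩⟩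
  choose F hF1 hF2 using h1
  have h2 : ∀ k : ℕ, ∃ v ∈ Iio μ, AE U k fun b => F b = v := fun k =>
    AE_const hN (hN.small μ) hF1
  choose v hv hv' using h2
  obtain ⟨h, hh, hh'⟩ := hμ (range v) (by rintro _ ⟨k, rfl⟩; exact hv k)
    (lt_of_le_of_lt mk_range_le (by rw [mk_nat]; exact hμ'))
  refine ⟨h, hh, fun k => (hv' k).mono ?_⟩
  rintro b hb g hg X0 l w hl ⟨δ, hδ, hX⟩ hFa hw
  obtain ⟨_, _, δ', hδ', hlδ⟩ := Fa.bd S hα hl hFa
  have h3 := hF2 b w hw ⟨⟨(⟨g, hg⟩, X0, l), max δ δ', max_lt hδ hδ',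
    bdLL_mono hX (le_max_left _ _), bdSt_mono hlδ (le_max_right _ _)⟩, hFa⟩
  rw [hb] at h3
  exact h3.trans (hh' _ ⟨k, rfl⟩)

def bdH (Z : Set (Nm U B bot)) (x : Z × List (List K) × St K × K) (δ : K) : Prop :=
  bdLL x.2.1 δ ∧ bdSt x.2.2.1 δ ∧ x.2.2.2 ≤ δ

theorem mk_bdH {Z : Set (Nm U B bot)} (hZ : #Z < κ) (δ : K) :
    #{x : Z × List (List K) × St K × K // bdH Z x δ} < κ := by
  have hN := S.hN
  have h1 := mk_prod_small hN (S := Z) (T := List (List K) × St K × K) (fun _ => True)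
    (fun x => bdLL x.1 δ ∧ bdSt x.2.1 δ ∧ x.2.2 ≤ δ) (by
      refine lt_of_le_of_lt ?_ hZ
      exact mk_subtype_le _)
    (mk_prod_small hN (T := St K × K) (fun X => bdLL X δ) (fun x => bdSt x.1 δ ∧ x.2 ≤ δ)
      (mk_bdLL hN δ) (mk_prod_small hN (fun t => bdSt t δ) (fun w => w ≤ δ) (mk_bdSt hN δ)
        (hN.smallIic δ)))
  refine lt_of_le_of_lt (mk_le_of_injective (f := fun x => ⟨x.1, trivial, x.2.1, x.2.2.1,
    x.2.2.2⟩) ?_) h1
  intro x y hxy
  exact Subtype.ext (Subtype.mk.inj hxy)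

theorem stage {Z : Set (Nm U B bot)} (hZ : #Z < κ) (T0 : Ts U) :
    ∃ T : Ts U, T ≤ T0 ∧ ∃ A A' h h', Stg S Z T A A' h h' := by
  classical
  have hN := S.hN
  obtain ⟨T1, hT1, A1, hA1, hA1B, hk⟩ := stage_key S hZ T0
  obtain ⟨T, hT, A2, hA2, hA21, hcnt, hdec⟩ := stage_dec S hZ hA1 hA1B hk
  have hk' : Key S (bdZ Z) (DZ Z) A1 T.c.c := Key.mono S hk Subset.rfl fun y _ => hT y []
  have hb : ∀ α, ∃ h h', α ∈ A2 → h < suc α ∧ h' < nu α ∧ ∀ k, AE U k fun b => ∀ g ∈ Z,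
      ∀ (X0 : List (List K)) (l : St K) (w : K), 0 < l.length → (∃ δ < α, bdLL X0 δ) →
        Fa S T A1 α b g X0 l w → (w < suc α → w < h) ∧ (w < nu α → w < h') := by
    intro α
    by_cases hα : α ∈ A2
    · have hαB := hA1B (hA21 hα)
      have hinf := (S.good α hαB).unc
      have h1 := hcnt α hα
      have h2 := sz_lt_suc hN α
      obtain ⟨h, hh, hh'⟩ := stage_bnd S (Z := Z) (T := T) (A := A1) (μ := suc α) hαB
        (h1.trans_lt h2) (rg_suc hN hinf.le) (hinf.trans h2)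
      obtain ⟨h', hh2, hh2'⟩ := stage_bnd S (Z := Z) (T := T) (A := A1) (μ := nu α) hαB
        (h1.trans_lt (h2.trans (sz_lt_suc hN _))) (rg_nu hN α) (aleph0_lt_nu hN α)
      refine ⟨h, h', fun _ => ⟨hh, hh2, fun k => ((hh' k).and (hh2' k)).mono ?_⟩⟩
      rintro b ⟨h3, h4⟩ g hg X0 l w hl hX hFa
      exact ⟨h3 g hg X0 l w hl hX hFa, h4 g hg X0 l w hl hX hFa⟩
    · exact ⟨α, α, fun h => absurd h hα⟩
  choose h h' hh using hb
  let H : (Z × List (List K) × St K × K) → ℕ → K → Prop := fun x k α =>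
    AE U k fun b => Fa S T A1 α b x.1.1 x.2.1 x.2.2.1 x.2.2.2
  have hG : ∀ x k, ∃ G ∈ U, ∀ α ∈ G, H x k α → {α | H x k α} ∈ U := by
    intro x k
    rcases ae_or (U := U) {α | H x k α} with h1 | h1
    · exact ⟨_, h1, fun _ _ _ => h1⟩
    · exact ⟨_, h1, fun α hα hα' => absurd hα' hα⟩
  choose G hG1 hG2 using hG
  refine ⟨T, le_trans (b := T1) (Filter.univ_mem' hT) hT1, A1, A2 ∩ {α | ∀ δ < α,
    ∀ x : Z × List (List K) × St K × K, bdH Z x δ → α ∈ {α | ∀ k, α ∈ G x k}}, h, h', ?_⟩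
  constructor
  · exact hA1
  · exact Filter.inter_mem hA2 (diag hN (bdH Z) (mk_bdH S hZ) _ fun x _ =>
      ae_all hN (by rw [mk_nat]; exact hN.unc) fun k => hG1 x k)
  · exact hA1B
  · exact fun α hα => hA21 hα.1
  · exact hk'
  · exact fun α hα => hdec α hα.1
  · exact fun α hα => hh α hα.1
  · rintro α ⟨hα, hα'⟩ k
    have hαB := hA1B (hA21 hα)
    refine (AE_all hN (mk_ex_lt S (mk_bdH S hZ) α) (k := k)
      (φ := fun x b => Fa S T A1 α b x.1.1.1 x.1.2.1 x.1.2.2.1 x.1.2.2.2 → H x.1 k α)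
      fun x => ?_).mono ?_
    · rcases AE_or (U := U) k fun b => Fa S T A1 α b x.1.1.1 x.1.2.1 x.1.2.2.1 x.1.2.2.2
        with h1 | h1
      · exact AE.univ fun _ _ => h1
      · exact h1.mono fun b hb hb' => absurd hb' hb
    · rintro b hb g hg X0 l w hl ⟨δ, hδ, hX⟩ hw hFa
      obtain ⟨_, _, δ', hδ', hlδ⟩ := Fa.bd S hαB hl hFa
      have hx : bdH Z (⟨g, hg⟩, X0, l, w) (max w (max δ δ')) :=
        ⟨bdLL_mono hX ((le_max_left _ _).trans (le_max_right _ _)),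
          bdSt_mono hlδ ((le_max_right _ _).trans (le_max_right _ _)), le_max_left _ _⟩
      have hlt : max w (max δ δ') < α := max_lt hw (max_lt hδ hδ')
      exact hG2 _ _ α (hα' _ hlt (⟨g, hg⟩, X0, l, w) hx k) (hb ⟨_, _, hlt, hx⟩ hFa)

end

end Pool.Agent.W2helper53.MS
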