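import Pool.Agent.W2helper53.MS.Key

/-!
# Coherent systems of conditions of a collapse, indexed by finite sequences of points
-/

set_option linter.unusedSectionVars false

namespace Pool.Agent.W2helper53.MS

open Cardinal Set Pool.Agent.V11248.Pk Pool.Agent.Helper669.Forcing

section

variable {κ : Cardinal.{0}} {K : Type} [LinearOrder K] [WellFoundedLT K] {U : Ultrafilter K}

/-- for almost all sequences of length `k` -/
def AE (U : Ultrafilter K) : ℕ → (List K → Prop) → Prop
  | 0, φ => φ []
  | k + 1, φ => {b | AE U k fun l => φ (b :: l)} ∈ U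

theorem AE.mono {k : ℕ} {φ ψ : List K → Prop} (h : AE U k φ) (hi : ∀ l, φ l → ψ l) : AE U k ψ := by
  induction k generalizing φ ψ with
  | zero => exact hi _ h
  | succ k ih =>
    exact Filter.mem_of_superset h fun b hb => ih hb fun l hl => hi _ hl

theorem AE.univ {k : ℕ} {φ : List K → Prop} (h : ∀ l, φ l) : AE U k φ := by
  induction k generalizing φ with
  | zero => exact h _
  | succ k ih => exact Filter.univ_mem' fun b => ih fun l => h _

theorem AE_all (hN : Normal κ U) {ι : Type} (hι : #ι < κ) {k : ℕ} {φ : ι → List K → Prop}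
    (h : ∀ i, AE U k (φ i)) : AE U k fun l => ∀ i, φ i l := by
  induction k generalizing φ with
  | zero => exact h
  | succ k ih => exact Filter.mem_of_superset (ae_all hN hι h) fun b hb => ih hb

theorem AE.and {k : ℕ} {φ ψ : List K → Prop} (h : AE U k φ) (h' : AE U k ψ) :
    AE U k fun l => φ l ∧ ψ l := by
  induction k generalizing φ ψ with
  | zero => exact ⟨h, h'⟩
  | succ k ih => exact Filter.mem_of_superset (Filter.inter_mem h h') fun b hb => ih hb.1 hb.2

theorem AE_or (k : ℕ) (φ : List K → Prop) : AE U k φ ∨ AE U k fun l => ¬ φ l := by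
  induction k generalizing φ with
  | zero => exact em _
  | succ k ih =>
    rcases ae_or (U := U) {b | AE U k fun l => φ (b :: l)} with h | h
    · exact Or.inl h
    · refine Or.inr (Filter.mem_of_superset h fun b hb => ?_)
      rcases ih (fun l => φ (b :: l)) with h1 | h1
      · exact absurd h1 hb
      · exact h1

theorem AE.exists {k : ℕ} {φ : List K → Prop} (h : AE U k φ) : ∃ l, l.length = k ∧ φ l := by
  induction k generalizing φ with
  | zero => exact ⟨[], rfl, h⟩
  | succ k ih =>
    obtain ⟨b, hb⟩ := exU h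
    obtain ⟨l, hl, hl'⟩ := ih hb
    exact ⟨b :: l, by simp [hl], hl'⟩

theorem AE.length {k : ℕ} {φ : List K → Prop} (h : AE U k φ) :
    AE U k fun l => l.length = k ∧ φ l := by
  induction k generalizing φ with
  | zero => exact ⟨rfl, h⟩
  | succ k ih =>
    refine Filter.mem_of_superset h fun b hb => (ih hb).mono ?_
    rintro l ⟨h1, h2⟩
    exact ⟨by simp [h1], h2⟩

theorem AE_const (hN : Normal κ U) {X : Type} {k : ℕ} {F : List K → X} {W : Set X} (hW : #W < κ)
    (h : ∀ l, F l ∈ W) : ∃ v ∈ W, AE U k fun l => F l = v := by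
  induction k generalizing F with
  | zero => exact ⟨F [], h _, rfl⟩
  | succ k ih =>
    choose v hv hv' using fun b => ih (F := fun l => F (b :: l)) fun l => h _
    obtain ⟨w, hw, hw'⟩ := ae_const hN hW (F := v) (Filter.univ_mem' hv)
    refine ⟨w, hw, Filter.mem_of_superset hw' fun b hb => (hv' b).mono fun l hl => ?_⟩
    exact hl.trans hb

/-- Coherent systems of conditions of the collapse for `nu a`. -/
structure IsSys (U : Ultrafilter K) (a : K) (T : List K → C K) : Prop where
  col : ∀ l, IsCol (nu a) (T l)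
  coh : ∀ l, {b | res (T (l ++ [b])) b = T l} ∈ U

theorem IsSys.shift {a : K} {T : List K → C K} (h : IsSys U a T) (x : K) :
    IsSys U a fun l => T (x :: l) :=
  ⟨fun l => h.col _, fun l => h.coh (x :: l)⟩

/-- the empty system -/
theorem isSys_empty (hN : Normal κ U) (a : K) : IsSys U a fun _ => ∅ :=
  ⟨fun _ => isCol_empty hN a, fun _ => Filter.univ_mem' fun _ =>
    Subset.antisymm (fun _ he => he.1) (empty_subset _)⟩

/-- strengthening a system at the empty sequence -/
theorem IsSys.lift (hN : Normal κ U) {a : K} {T : List K → C K} (h : IsSys U a T) {f : C K}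
    (hf : IsCol (nu a) f) (hT : T [] ⊆ f) :
    ∃ T', IsSys U a T' ∧ (∀ l, T l ⊆ T' l) ∧ T' [] = f := by
  classical
  let cp : List K → Prop := fun l => ∀ x i b c, (x, i, b) ∈ T l → (x, i, c) ∈ f → b = c
  have h0 : ∀ l, {b | Bel f b ∧ res (T (l ++ [b])) b = T l} ∈ U := fun l =>
    Filter.inter_mem (ae_bel hN (hf.lt hN)) (h.coh l)
  refine ⟨fun l => if cp l then T l ∪ f else T l, ⟨fun l => ?_, fun l => ?_⟩, fun l => ?_, ?_⟩
  · split_ifs with h1
    · exact isCol_union hN (h.col l) hf h1
    · exact h.col l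
  · refine Filter.mem_of_superset (h0 l) ?_
    rintro b ⟨hb1, hb2⟩
    change res (if cp (l ++ [b]) then T (l ++ [b]) ∪ f else T (l ++ [b])) b =
      if cp l then T l ∪ f else T l
    by_cases h1 : cp l
    · have h2 : cp (l ++ [b]) := by
        intro x i u v hu hv
        refine h1 x i u v ?_ hv
        rw [← hb2]
        exact ⟨hu, hb1 (x, i, v) hv⟩
      rw [if_pos h1, if_pos h2]
      ext e
      constructor
      · rintro ⟨he | he, he'⟩
        · rw [← hb2]
          exact Or.inl ⟨he, he'⟩
        · exact Or.inr he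
      · rintro (he | he)
        · rw [← hb2] at he
          exact ⟨Or.inl he.1, he.2⟩
        · exact ⟨Or.inr he, hb1 _ he⟩
    · have h2 : ¬ cp (l ++ [b]) := by
        intro h2
        apply h1
        intro x i u v hu hv
        refine h2 x i u v ?_ hv
        rw [← hb2] at hu
        exact hu.1
      rw [if_neg h1, if_neg h2]
      exact hb2
  · dsimp only
    split_ifs
    · exact subset_union_left
    · exact Subset.rfl
  · have h1 : cp [] := fun x i b c hb hc => hf.fn x i b c (hT hb) hc
    dsimp only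
    rw [if_pos h1]
    exact union_eq_self_of_subset_left hT

/-- density of the decision of open dense sets at sequences of length `k` -/
theorem IsSys.dense (hN : Normal κ U) {a : K} {T : List K → C K} (h : IsSys U a T) (k : ℕ)
    (E : List K → Set (C K))
    (hE : ∀ l f, IsCol (nu a) f → ∃ g, IsCol (nu a) g ∧ f ⊆ g ∧ g ∈ E l)
    (hE' : ∀ l f g, f ∈ E l → IsCol (nu a) g → f ⊆ g → g ∈ E l) :
    ∃ T', IsSys U a T' ∧ (∀ l, T l ⊆ T' l) ∧ AE U k fun l => T' l ∈ E l := by
  induction k generalizing T E with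
  | zero =>
    obtain ⟨g, hg1, hg2, hg3⟩ := hE [] (T []) (h.col [])
    obtain ⟨T', h1, h2, h3⟩ := h.lift hN hg1 hg2
    refine ⟨T', h1, h2, ?_⟩
    change T' [] ∈ E []
    rw [h3]
    exact hg3
  | succ k ih =>
    choose Tx h1 h2 h3 using fun x : K => ih (h.shift x) (E := fun l => E (x :: l))
      (fun l f => hE _ f) (fun l f g => hE' _ f g)
    obtain ⟨f, hf, hf'⟩ := press hN (a := a) (h := fun x => Tx x []) fun x => (h1 x).col []
    refine ⟨fun l => match l with
      | [] => f
      | x :: l => Tx x l, ⟨fun l => ?_, fun l => ?_⟩, fun l => ?_, ?_⟩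
    · cases l with
      | nil => exact hf
      | cons x l => exact (h1 x).col l
    · cases l with
      | nil => exact hf'
      | cons x l => exact (h1 x).coh l
    · cases l with
      | nil =>
        obtain ⟨x, hx1, hx2⟩ := exU (Filter.inter_mem hf' (h.coh []))
        have hx1' : res (Tx x []) x = f := hx1
        have hx2' : res (T [x]) x = T [] := hx2
        change T [] ⊆ f
        rw [← hx1', ← hx2']
        exact res_mono (h2 x []) x
      | cons x l => exact h2 x l
    · exact Filter.univ_mem' h3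

/-- systems, ordered by pointwise strength -/
structure Sy (U : Ultrafilter K) (a : K) where
  T : List K → C K
  sys : IsSys U a T

instance (a : K) : Preorder (Sy U a) where
  le T' T := ∀ l, T.T l ⊆ T'.T l
  le_refl T l := Subset.rfl
  le_trans _ _ _ h h' l := Subset.trans (h' l) (h l)

theorem sys_union (hN : Normal κ U) {a : K} {ι : Type} (hι : #ι < sz (nu a))
    {T : ι → List K → C K} (hT : ∀ i, IsSys U a (T i))
    (hd : ∀ i j, ∃ k, ∀ l, T i l ⊆ T k l ∧ T j l ⊆ T k l) :
    IsSys U a fun l => ⋃ i, T i l := by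
  refine ⟨fun l => isCol_iUnion hN hι (fun i => (hT i).col l) fun i j => ?_, fun l => ?_⟩
  · obtain ⟨k, hk⟩ := hd i j
    exact ⟨k, hk l⟩
  · refine Filter.mem_of_superset (ae_all hN (hι.trans (hN.small _)) fun i => (hT i).coh l) ?_
    intro b hb
    change res (⋃ i, T i (l ++ [b])) b = ⋃ i, T i l
    ext e
    simp only [mem_iUnion]
    constructor
    · rintro ⟨he, he'⟩
      obtain ⟨i, hi⟩ := mem_iUnion.1 he
      refine ⟨i, ?_⟩
      have h1 : res (T i (l ++ [b])) b = T i l := hb i
      rw [← h1]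
      exact ⟨hi, he'⟩
    · rintro ⟨i, hi⟩
      have h1 : res (T i (l ++ [b])) b = T i l := hb i
      rw [← h1] at hi
      exact ⟨mem_iUnion.2 ⟨i, hi.1⟩, hi.2⟩

theorem closedSy (hN : Normal κ U) (a : K) : Closed (sz (suc a)) (Sy U a) := by
  intro I _ _ f hI _ hf
  refine ⟨⟨fun l => ⋃ i, (f i).T l, sys_union hN (hI.trans_lt (sz_lt_suc hN _))
    (fun i => (f i).sys) fun i j => ?_⟩, fun i l => subset_iUnion (fun i => (f i).T l) i⟩
  rcases le_total i j with h | h
  · exact ⟨j, fun l => ⟨hf i j h l, Subset.rfl⟩⟩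
  · exact ⟨i, fun l => ⟨Subset.rfl, hf j i h l⟩⟩

/-- meeting few families of dense open sets -/
theorem IsSys.meet (hN : Normal κ U) {a : K} {T : List K → C K} (h : IsSys U a T) {R : Type}
    (hR : #R ≤ sz (suc a)) (k : R → ℕ) (E : R → List K → Set (C K))
    (hE : ∀ s l f, IsCol (nu a) f → ∃ g, IsCol (nu a) g ∧ f ⊆ g ∧ g ∈ E s l)
    (hE' : ∀ s l f g, f ∈ E s l → IsCol (nu a) g → f ⊆ g → g ∈ E s l) :
    ∃ T', IsSys U a T' ∧ (∀ l, T l ⊆ T' l) ∧ ∀ s, AE U (k s) fun l => T' l ∈ E s l := by
  obtain ⟨v, hv, hv'⟩ := universal hR (closedSy hN a)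
    (fun s => {T : Sy U a | AE U (k s) fun l => T.T l ∈ E s l}) (by
      intro s u hu v hv
      exact AE.mono hu fun l hl => hE' s l _ _ hl (v.sys.col l) (hv l)) ⟨T, h⟩
  refine ⟨v.T, v.sys, hv, fun s => hv' s ?_⟩
  obtain ⟨T', h1, h2, h3⟩ := v.sys.dense hN (k s) (E s) (hE s) (hE' s)
  exact ⟨⟨T', h1⟩, h2, h3⟩

end

end Pool.Agent.W2helper53.MS
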