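import Pool.Agent.W2helper53.MS.Seq

/-!
# The tail theorem
-/

set_option linter.unusedSectionVars false

namespace Pool.Agent.W2helper53.MS

open Cardinal Set Pool.Agent.V11248.Pk Pool.Agent.Helper669.Forcing

section

variable {κ : Cardinal.{0}} {K : Type} [LinearOrder K] [WellFoundedLT K] {U : Ultrafilter K}
  {B : Set K} {bot : K}

theorem exists_bdL_lt {l : List K} {y : K} (h : ∀ z ∈ l, z < y) (h0 : ∃ z, z < y) :
    ∃ δ < y, bdL l δ := by
  induction l with
  | nil =>
    obtain ⟨z, hz⟩ := h0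
    exact ⟨z, hz, fun z hz => absurd hz (by simp)⟩
  | cons a l ih =>
    obtain ⟨δ, hδ, h1⟩ := ih fun z hz => h z (by simp [hz])
    refine ⟨max a δ, max_lt (h a (by simp)) hδ, fun z hz => ?_⟩
    rcases List.mem_cons.1 hz with rfl | hz
    · exact le_max_left _ _
    · exact (h1 z hz).trans (le_max_right _ _)

theorem exists_bdLL_lt {X : List (List K)} {y : K} (h : ∀ l ∈ X, ∀ z ∈ l, z < y)
    (h0 : ∃ z, z < y) : ∃ δ < y, bdLL X δ := by
  induction X with
  | nil =>
    obtain ⟨z, hz⟩ := h0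
    exact ⟨z, hz, fun z hz => absurd hz (by simp)⟩
  | cons a l ih =>
    obtain ⟨δ, hδ, h1⟩ := ih fun z hz => h z (by simp [hz])
    obtain ⟨δ', hδ', h2⟩ := exists_bdL_lt (h a (by simp)) h0
    refine ⟨max δ' δ, max_lt hδ' hδ, fun z hz => ?_⟩
    rcases List.mem_cons.1 hz with rfl | hz
    · exact bdL_mono h2 (le_max_left _ _)
    · exact bdL_mono (h1 z hz) (le_max_right _ _)

theorem bdLL_append {X : List (List K)} {b : List K} {δ : K} (h : bdLL X δ) (h' : bdL b δ) :
    bdLL (X ++ [b]) δ := by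
  intro l hl
  rcases List.mem_append.1 hl with hl | hl
  · exact h l hl
  · rw [List.mem_singleton.1 hl]
    exact h'

/-- initial block of virtual points -/
def blk (a : K → ℕ → K) (k : ℕ) (α : K) : List K := (List.range k).map (a α)

/-- the first `m` blocks, starting at the position `n0` -/
def Xp (a : K → ℕ → K) (n0 : ℕ) (p : Cond U B bot) (k m : ℕ) : List (List K) :=
  (List.range m).map fun i => blk a k (pt p (n0 + i))

theorem Xp_succ (a : K → ℕ → K) (n0 : ℕ) (p : Cond U B bot) (k m : ℕ) :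
    Xp a n0 p k (m + 1) = Xp a n0 p k m ++ [blk a k (pt p (n0 + m))] := by
  unfold Xp
  rw [List.range_succ, List.map_append]
  rfl

theorem Xp_length (a : K → ℕ → K) (n0 : ℕ) (p : Cond U B bot) (k m : ℕ) :
    (Xp a n0 p k m).length = m := by
  unfold Xp
  simp

theorem Xp_le {a : K → ℕ → K} {n0 : ℕ} {r p : Cond U B bot} (h : r ≤ p) {k m : ℕ}
    (hm : n0 + m ≤ p.t.length) : Xp a n0 r k m = Xp a n0 p k m := by
  unfold Xp
  refine List.map_congr_left fun i hi => ?_
  rw [pt_le h (by have := List.mem_range.1 hi; omega)]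

theorem cut_Xp {a : K → ℕ → K} {n0 : ℕ} {p : Cond U B bot} {k k' m m' : ℕ} (hk : k ≤ k')
    (hm : m ≤ m') : cut k m (Xp a n0 p k' m') = Xp a n0 p k m := by
  unfold cut Xp blk
  rw [← List.map_take, List.take_range, List.map_map, min_eq_left hm]
  refine List.map_congr_left fun i _ => ?_
  simp only [Function.comp]
  rw [← List.map_take, List.take_range, min_eq_left hk]

theorem mem_Xp {a : K → ℕ → K} {n0 : ℕ} {p : Cond U B bot} {k m : ℕ} {l : List K}
    (hl : l ∈ Xp a n0 p k m) {z : K} (hz : z ∈ l) : ∃ i < m, ∃ k' < k, z = a (pt p (n0 + i)) k' := by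
  unfold Xp at hl
  obtain ⟨i, hi, rfl⟩ := List.mem_map.1 hl
  obtain ⟨k', hk', rfl⟩ := List.mem_map.1 hz
  exact ⟨i, List.mem_range.1 hi, k', List.mem_range.1 hk', rfl⟩

theorem pt_lt {p : Cond U B bot} {i j : ℕ} (hij : i < j) (hj : j < p.t.length) :
    pt p i < pt p j := by
  rw [pt_eq hj, pt_eq (hij.trans hj)]
  have h := p.stem.pw
  rw [List.pairwise_iff_getElem] at h
  exact (h i j (hij.trans hj) hj hij).1

variable (S : Su κ U B bot) {p0 : Cond U B bot} {F : ℕ → List K → K → Set (Cond U B bot)}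
  {hF : p0 ∈ IsFun fun x : ℕ × List K => F x.1 x.2} {Ω : Type} [LinearOrder Ω]
  (D : Ch S p0 F hF Ω)

include S D

/-- the good points for the data -/
def AA : Set K := {y | (∀ i, y ∈ D.A' i) ∧ (∀ i j, i ≤ j → ∀ l, (D.T i).T y l ⊆ (D.T j).T y l) ∧
  (∀ i, p0.c y ⊆ (D.T i).T y []) ∧ y ∈ p0.A ∧ ∀ α < y, ∀ k, D.a α k < y}

theorem AA_mem (hΩ : #Ω < κ) : AA S D ∈ U := by
  have hN := S.hN
  refine Filter.inter_mem (ae_all hN hΩ fun i => (D.hs i).memU') (Filter.inter_mem ?_
    (Filter.inter_mem (ae_all hN hΩ D.p0c) (Filter.inter_mem p0.memU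
      (hN.normal (fun α => {y | ∀ k, D.a α k < y}) fun α =>
        ae_all hN (by rw [mk_nat]; exact hN.unc) fun k => hN.tail _))))
  have h1 := ae_all hN hΩ (A := fun i => {y | ∀ j, i ≤ j → ∀ l, (D.T i).T y l ⊆ (D.T j).T y l})
    fun i => ae_all hN hΩ (A := fun j => {y | i ≤ j → ∀ l, (D.T i).T y l ⊆ (D.T j).T y l})
      fun j => by
        rcases lt_trichotomy i j with h | h | h
        · exact Filter.mem_of_superset (D.ltT i j h) fun y hy _ => hy
        · subst h
          exact Filter.univ_mem' fun y _ l => Subset.rfl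
        · exact Filter.univ_mem' fun y h' => absurd h' (not_le.2 h)
  exact h1

open Classical in
/-- the guiding function -/
noncomputable def cc (y : K) : C K :=
  if y ∈ AA S D then ⋃ x : Ω × ℕ, (D.T x.1).T y (blk D.a x.2 y) else p0.c y

theorem coh_le {i : Ω} {y : K} {k k' : ℕ} (h : k ≤ k') :
    (D.T i).T y (blk D.a k y) ⊆ (D.T i).T y (blk D.a k' y) := by
  induction h with
  | refl => exact Subset.rfl
  | step _ ih => exact ih.trans (D.acoh i y _)

theorem cc_col (hΩ : ∀ y ∈ B, #Ω < sz y) (y : K) : IsCol (nu y) (cc S D y) := by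
  classical
  unfold cc
  by_cases hΩ0 : Nonempty Ω
  · split_ifs with h
    · have hyB : y ∈ B := p0.sub h.2.2.2.1
      refine isCol_iUnion S.hN ?_ (fun x => ((D.T x.1).sys y).col _) ?_
      · rw [mk_prod, lift_id, lift_id, mk_nat]
        exact (mul_lt_of_lt (S.good y hyB).unc.le (hΩ y hyB) (S.good y hyB).unc).trans
          ((sz_lt_suc S.hN y).trans (sz_lt_suc S.hN _))
      · rintro ⟨i, k⟩ ⟨j, k'⟩
        refine ⟨(max i j, max k k'), ?_, ?_⟩
        · exact (h.2.1 i _ (le_max_left _ _) _).trans (coh_le S D (le_max_left _ _))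
        · exact (h.2.1 j _ (le_max_right _ _) _).trans (coh_le S D (le_max_right _ _))
    · exact p0.col y
  · split_ifs with h
    · have : IsEmpty (Ω × ℕ) := ⟨fun x => hΩ0 ⟨x.1⟩⟩
      rw [iUnion_of_empty]
      exact isCol_empty S.hN y
    · exact p0.col y

theorem le_cc {y : K} (hy : y ∈ AA S D) (i : Ω) (k : ℕ) :
    (D.T i).T y (blk D.a k y) ⊆ cc S D y := by
  classical
  unfold cc
  rw [if_pos hy]
  exact subset_iUnion (fun x : Ω × ℕ => (D.T x.1).T y (blk D.a x.2 y)) (i, k)

end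

end Pool.Agent.W2helper53.MS
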