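import Pool.Agent.W2helper53.MS.Tail

/-!
# The tail theorem: the final condition and the lemmas on the values of the names
-/

set_option linter.unusedSectionVars false

namespace Pool.Agent.W2helper53.MS

open Cardinal Set Pool.Agent.V11248.Pk Pool.Agent.Helper669.Forcing

section

variable {κ : Cardinal.{0}} {K : Type} [LinearOrder K] [WellFoundedLT K] {U : Ultrafilter K}
  {B : Set K} {bot : K}

theorem isStem_low {t l' : St K} (ht : IsStem B bot t) (hl : IsStem B bot l') {j : ℕ}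
    (h : ∀ b ∈ t.drop j, ∀ a ∈ l', Rel a b.1) : IsStem B bot (l' ++ t.drop j) := by
  refine ⟨?_, ?_, ?_, ?_⟩
  · obtain ⟨f, t', h1⟩ := hl.head
    exact ⟨f, t' ++ t.drop j, by rw [h1]; simp⟩
  · intro a ha
    rcases List.mem_append.1 ha with ha | ha
    · exact hl.mem a ha
    · exact ht.mem a (List.mem_of_mem_drop ha)
  · rw [List.pairwise_append]
    exact ⟨hl.pw, ht.pw.sublist (List.drop_sublist _ _), fun a ha b hb => h b hb a ha⟩
  · intro a ha
    rcases List.mem_append.1 ha with ha | ha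
    · exact hl.col a ha
    · exact ht.col a (List.mem_of_mem_drop ha)

theorem drop_eq {r : Cond U B bot} {j : ℕ} (hj : j < r.t.length) :
    ∃ f, r.t[j] = (pt r j, f) ∧ r.t.drop j = (pt r j, f) :: r.t.drop (j + 1) ∧
      r.t.take (j + 1) = r.t.take j ++ [(pt r j, f)] := by
  refine ⟨(r.t[j]).2, ?_, ?_, ?_⟩
  · rw [pt_eq hj]
  · rw [pt_eq hj]
    exact List.drop_eq_getElem_cons hj
  · rw [pt_eq hj]
    exact List.take_succ_eq_append_getElem hj

/-- later points of the stem -/
theorem drop_gt {r : Cond U B bot} {j : ℕ} (hj : j < r.t.length) {a : K × C K}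
    (ha : a ∈ r.t.drop (j + 1)) : pt r j < a.1 := by
  obtain ⟨f, _, h1, _⟩ := drop_eq hj
  have h2 := r.stem.pw.sublist (List.drop_sublist j _)
  rw [h1, List.pairwise_cons] at h2
  exact (h2.1 a ha).1

theorem fc_trunc (S : Su κ U B bot) {t : St K} {A : Set K} {c : Up U}
    {n : ON (Cond U B bot) K} {w γ : K} (hw : w < γ) :
    Fc S t A c (n.trunc γ) w ↔ Fc S t A c n w := by
  constructor
  · rintro ⟨h1, h2, h3⟩
    exact ⟨h1, h2, (ON.trunc_of_lt hw).1 h3⟩
  · rintro ⟨h1, h2, h3⟩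
    exact ⟨h1, h2, (ON.trunc_of_lt hw).2 h3⟩

variable (S : Su κ U B bot) {p0 : Cond U B bot} {F : ℕ → List K → K → Set (Cond U B bot)}
  {hF : p0 ∈ IsFun fun x : ℕ × List K => F x.1 x.2} {Ω : Type} [LinearOrder Ω]
  (D : Ch S p0 F hF Ω)

include S D

/-- the final condition -/
noncomputable def qq (hΩ : #Ω < κ) (hΩB : ∀ y ∈ B, #Ω < sz y) : Cond U B bot :=
  mkC S p0.t p0.stem (AA S D) (AA_mem S D hΩ) (cc S D) (cc_col S D hΩB)

variable {hΩ : #Ω < κ} {hΩB : ∀ y ∈ B, #Ω < sz y} {r : Cond U B bot} (hr : r ≤ qq S D hΩ hΩB)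

include hr

theorem len_le : p0.t.length ≤ r.t.length :=
  show (qq S D hΩ hΩB).t.length ≤ _ from length_le hr

theorem mem_AA {a : K × C K} (ha : a ∈ r.t.drop p0.t.length) :
    a.1 ∈ AA S D ∧ cc S D a.1 ⊆ a.2 := ((le_mkC S).1 hr).2.1 a ha

theorem pt_mem {j : ℕ} (h1 : p0.t.length ≤ j) (h2 : j < r.t.length) : pt r j ∈ AA S D := by
  obtain ⟨f, _, h3, _⟩ := drop_eq h2
  have h4 : (pt r j, f) ∈ r.t.drop p0.t.length := by
    have h5 : (pt r j, f) ∈ r.t.drop j := by
      rw [h3]
      simp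
    have h6 : r.t.drop j = (r.t.drop p0.t.length).drop (j - p0.t.length) := by
      rw [List.drop_drop]
      congr 1
      omega
    rw [h6] at h5
    exact List.mem_of_mem_drop h5
  exact (mem_AA S D hr h4).1

theorem drop_AA {j : ℕ} (h1 : p0.t.length ≤ j) {a : K × C K} (ha : a ∈ r.t.drop j) :
    a.1 ∈ AA S D ∧ cc S D a.1 ⊆ a.2 := by
  have h6 : r.t.drop j = (r.t.drop p0.t.length).drop (j - p0.t.length) := by
    rw [List.drop_drop]
    congr 1
    omega
  rw [h6] at ha
  exact mem_AA S D hr (List.mem_of_mem_drop ha)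

theorem A_AA {y : K} (hy : y ∈ r.A) : y ∈ AA S D ∧ cc S D y ⊆ r.c y :=
  ⟨((le_mkC S).1 hr).2.2.1 hy, ((le_mkC S).1 hr).2.2.2 y hy⟩

omit hr in
theorem AA_B {y : K} (hy : y ∈ AA S D) : y ∈ B := p0.sub hy.2.2.2.1

/-- the elements of the blocks are below later points -/
theorem Xp_bd {y : K} (hy : y ∈ AA S D) {k m : ℕ} (h : ∀ i < m, pt r (p0.t.length - 1 + i) < y) :
    ∃ δ < y, bdLL (Xp D.a (p0.t.length - 1) r k m) δ := by
  refine exists_bdLL_lt (fun l hl z hz => ?_) ?_
  · obtain ⟨i, hi, k', _, rfl⟩ := mem_Xp hl hz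
    exact hy.2.2.2.2 _ (h i hi) k'
  · have h1 := (S.good y (AA_B S D hy)).unc
    obtain ⟨⟨z, hz⟩⟩ := mk_ne_zero_iff.1 (aleph0_pos.trans h1).ne'
    exact ⟨z, hz⟩

omit hr in
/-- the part of the condition after the position `j` is above `α`, `nu α`, and all elements
of a block for `α` -/
theorem Ab_of {y α γ : K} (hy : y ∈ AA S D) {X0 : List (List K)} {k : ℕ} (hα : α < y)
    (hX : ∃ δ < y, bdLL X0 δ) (hγ : γ < y) : y ∈ Ab (X0 ++ [blk D.a k α]) γ := by
  obtain ⟨δ, hδ, h1⟩ := hX
  have h0 : ∃ z, z < y := ⟨α, hα⟩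
  obtain ⟨δ', hδ', h2⟩ := exists_bdL_lt (l := blk D.a k α) (y := y) (by
    intro z hz
    obtain ⟨k', _, rfl⟩ := List.mem_map.1 hz
    exact hy.2.2.2.2 α hα k') h0
  refine ⟨max γ (max δ δ'), max_lt hγ (max_lt hδ hδ'), bdLL_append (bdLL_mono h1 ?_)
    (bdL_mono h2 ?_), le_max_left _ _⟩
  · exact (le_max_left _ _).trans (le_max_right _ _)
  · exact (le_max_right _ _).trans (le_max_right _ _)

theorem decide [Nonempty Ω] {i : Ω} {g : Nm U B bot} (hg : g ∈ D.Z i) {k j : ℕ}
    (hj : p0.t.length ≤ j) (hj' : j < r.t.length) {X0 : List (List K)}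
    (hX : ∃ δ < pt r j, bdLL X0 δ) {w : K} (hw : w < nu (pt r j))
    (hrw : r ∈ (g (X0 ++ [blk D.a k (pt r j)])).v w) :
    ∃ l', Rf l' (r.t.take j) ∧ IsStem B bot l' ∧ ∃ r' ≤ r, r'.t = l' ++ r.t.drop j ∧
      Fa S (D.T i) (D.A i) (pt r j) (blk D.a k (pt r j)) g X0 l' w := by
  have hN := S.hN
  have hα := pt_mem S D hr hj hj'
  have hαB := AA_B S D hα
  have hj0 : 0 < j := by
    have := p0.stem.pos
    omega
  obtain ⟨f, hf1, hf2, hf3⟩ := drop_eq hj'
  have hlr : ∀ a ∈ r.t.take j, Rel a (pt r j) :=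
    (r.stem.pt_ne hj0 (a := (pt r j, f)) (by rw [hf2]; simp)).2
  obtain ⟨l', hl', w', hw'⟩ := D.adec _ hα.1 i k g hg X0 (r.t.take j) hX (r.stem.take hj0) hlr
  obtain ⟨hst, hA, hw''⟩ := id hw'
  have hl'len : l'.length = j := by
    rw [hl'.length, List.length_take]
    omega
  have hst' : IsStem B bot l' := by
    have h5 := hst.take (n := l'.length) (by omega)
    rwa [List.take_left] at h5
  have hlα := stem_last hst
  have hst2 : IsStem B bot (l' ++ r.t.drop j) := by
    refine isStem_low r.stem hst' fun b hb a ha => ?_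
    rw [hf2] at hb
    rcases List.mem_cons.1 hb with rfl | hb
    · exact hlα a ha
    · have h1 := drop_gt hj' hb
      exact ⟨(hlα a ha).1.trans h1, (hlα a ha).2.mono h1.le⟩
  have hler : mkC S (l' ++ r.t.drop j) hst2 r.A r.memU r.c r.col ≤ r := by
    refine ⟨?_, ?_, fun y hy => hy.1, fun _ _ => Subset.rfl⟩
    · change Rf ((l' ++ r.t.drop j).take r.t.length) r.t
      have h1 : (l' ++ r.t.drop j).length = r.t.length := by
        rw [List.length_append, List.length_drop]
        omega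
      rw [← h1, List.take_length]
      have h2 := Rf.append hl' (Rf.refl (r.t.drop j))
      rwa [List.take_append_drop] at h2
    · intro a ha
      change a ∈ (l' ++ r.t.drop j).drop r.t.length at ha
      rw [List.drop_eq_nil_of_le (by rw [List.length_append, List.length_drop]; omega)] at ha
      exact absurd ha (by simp)
  refine ⟨l', hl', hst', mkC S (l' ++ r.t.drop j) hst2 r.A r.memU r.c r.col, hler, rfl, ?_⟩
  · -- the stronger condition decides the truncated name
    have hle : mkC S (l' ++ r.t.drop j) hst2 r.A r.memU r.c r.col ≤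
        mkC S (l' ++ [(pt r j, (D.T i).T (pt r j) (blk D.a k (pt r j)))]) hst _ hA
          (D.T i).c.c (D.T i).c.col := by
      refine (le_mkC S).2 ⟨?_, ?_, ?_, ?_⟩
      · change Rf ((l' ++ r.t.drop j).take _) _
        rw [List.length_append, List.length_singleton, List.take_append, hf2]
        have h1 : l'.take (l'.length + 1) = l' := List.take_of_length_le (by omega)
        have h2 : l'.length + 1 - l'.length = 1 := by omega
        rw [h1, h2]
        refine Rf.append (Rf.refl _) (Rf.single ⟨rfl, ?_⟩)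
        refine (le_cc S D hα i k).trans ?_
        exact (drop_AA S D hr hj (a := (pt r j, f)) (by rw [hf2]; simp)).2
      · intro a ha
        change a ∈ (l' ++ r.t.drop j).drop _ at ha
        rw [List.length_append, List.length_singleton, List.drop_append, hf2] at ha
        have h1 : l'.drop (l'.length + 1) = [] := List.drop_eq_nil_of_le (by omega)
        have h2 : l'.length + 1 - l'.length = 1 := by omega
        rw [h1, h2, List.nil_append] at ha
        change a ∈ r.t.drop (j + 1) at ha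
        obtain ⟨h3, h4⟩ := drop_AA S D hr (by omega) ha
        have h5 := drop_gt hj' ha
        obtain ⟨δ, hδ, hδ'⟩ := hX
        exact ⟨⟨(D.hs i).sub' (h3.1 i), Ab_of S D h3 h5 ⟨δ, hδ.trans h5, hδ'⟩
          ((S.good _ (AA_B S D h3)).nu h5)⟩, (le_cc S D h3 i 0).trans h4⟩
      · intro y hy
        obtain ⟨h3, h4⟩ := A_AA S D hr hy.1
        have h5 : pt r j < y := by
          have := (r.above _ (List.getElem_mem hj') y hy.1).1
          rwa [← pt_eq hj'] at this
        obtain ⟨δ, hδ, hδ'⟩ := hX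
        exact ⟨(D.hs i).sub' (h3.1 i), Ab_of S D h3 h5 ⟨δ, hδ.trans h5, hδ'⟩
          ((S.good _ (AA_B S D h3)).nu h5)⟩
      · intro y hy
        obtain ⟨h3, h4⟩ := A_AA S D hr hy.1
        exact (le_cc S D h3 i 0).trans h4
    have h1 := ON.disj _ w w' _ ((ON.trunc_of_lt hw).2 (ON.down _ _ _ hrw _ hler))
      (ON.down _ _ _ hw'' _ hle)
    rw [← h1] at hw'
    exact (fc_trunc S hw).1 hw'

/-- integrating out the last block -/
theorem star [Nonempty Ω] {i : Ω} {g : Nm U B bot} (hg : g ∈ D.Z i) {k m : ℕ} (hm : 1 ≤ m)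
    (hm' : p0.t.length - 1 + m < r.t.length) {w : K} (hw : w < pt r (p0.t.length - 1 + m))
    (hrw : r ∈ (g (Xp D.a (p0.t.length - 1) r k (m + 1))).v w) :
    r ∈ (integ S (p0.t.length - 1) (D.T i) (D.A i) (D.hs i).memU g k
      (Xp D.a (p0.t.length - 1) r k m)).v w := by
  have h0 := p0.stem.pos
  intro r1 hr1
  have hr1q := hr1.trans hr
  have hlen := length_le hr1
  have hX1 : Xp D.a (p0.t.length - 1) r1 k (m + 1) = Xp D.a (p0.t.length - 1) r k (m + 1) :=
    Xp_le hr1 (by omega)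
  have hX2 : Xp D.a (p0.t.length - 1) r1 k m = Xp D.a (p0.t.length - 1) r k m :=
    Xp_le hr1 (by omega)
  have hpt := pt_le hr1 hm'
  have hr1w := ON.down _ _ _ hrw _ hr1
  rw [← hX1, Xp_succ] at hr1w
  have hα := pt_mem S D hr1q (j := p0.t.length - 1 + m) (by omega) (by omega)
  have hX : ∃ δ < pt r1 (p0.t.length - 1 + m), bdLL (Xp D.a (p0.t.length - 1) r1 k m) δ :=
    Xp_bd S D hr1q hα fun i hi => pt_lt (by omega) (by omega)
  have hw1 : w < pt r1 (p0.t.length - 1 + m) := by rw [hpt]; exact hw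
  obtain ⟨l', hl1, hl2, r2, hr2, hr2t, hFa⟩ := decide S D hr1q hg (by omega) (by omega) hX
    (hw1.trans (lt_nu S.hN _)) hr1w
  have h1 := D.ahom _ hα.1 i k g hg _ l' w hl2.pos hX hw1 hFa
  have hl'len : l'.length = p0.t.length - 1 + m := by
    rw [hl1.length, List.length_take]
    omega
  refine ⟨r2, hr2, mkC S l' hl2 _ (AA_mem S D hΩ) _ (cc_col S D hΩB), ⟨?_, ?_⟩, ?_⟩
  · rw [Xp_length]
    exact hl'len
  · rw [← hX2]
    exact h1
  · refine (le_mkC S).2 ⟨?_, ?_, fun y hy => ?_, fun y hy => ?_⟩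
    · rw [hr2t, List.take_left]
      exact Rf.refl _
    · intro a ha
      rw [hr2t, List.drop_left] at ha
      exact drop_AA S D hr1q (by omega) ha
    · exact (A_AA S D (hr2.trans hr1q) hy).1
    · exact (A_AA S D (hr2.trans hr1q) hy).2

/-- bounds on the values below `suc α` and `nu α` -/
theorem bndm [Nonempty Ω] {i : Ω} {g : Nm U B bot} (hg : g ∈ D.Z i) {k m : ℕ} (hm : 1 ≤ m)
    (hm' : p0.t.length - 1 + m < r.t.length) {w : K}
    (hrw : r ∈ (g (Xp D.a (p0.t.length - 1) r k (m + 1))).v w) :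
    (w < suc (pt r (p0.t.length - 1 + m)) → w < D.h i (pt r (p0.t.length - 1 + m))) ∧
      (w < nu (pt r (p0.t.length - 1 + m)) → w < D.h' i (pt r (p0.t.length - 1 + m))) := by
  have h0 := p0.stem.pos
  have hα := pt_mem S D hr (j := p0.t.length - 1 + m) (by omega) (by omega)
  have hX : ∃ δ < pt r (p0.t.length - 1 + m), bdLL (Xp D.a (p0.t.length - 1) r k m) δ :=
    Xp_bd S D hr hα fun i hi => pt_lt (by omega) (by omega)
  rw [Xp_succ] at hrw
  have key : w < nu (pt r (p0.t.length - 1 + m)) →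
    (w < suc (pt r (p0.t.length - 1 + m)) → w < D.h i (pt r (p0.t.length - 1 + m))) ∧
      (w < nu (pt r (p0.t.length - 1 + m)) → w < D.h' i (pt r (p0.t.length - 1 + m))) := by
    intro hw
    obtain ⟨l', hl1, hl2, r2, hr2, hr2t, hFa⟩ := decide S D hr hg (by omega) (by omega) hX hw hrw
    exact D.abnd _ hα.1 i k g hg _ l' w hl2.pos hX hFa
  exact ⟨fun h => (key (h.trans (lt_suc S.hN _))).1 h, fun h => (key h).2 h⟩

/-- bounds on the values below the next point -/
theorem top {i : Ω} {g : Nm U B bot} (hg : g ∈ D.Z i) {k m : ℕ}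
    (hm' : p0.t.length - 1 + m + 1 < r.t.length) {w : K}
    (hw : w < pt r (p0.t.length - 1 + m + 1))
    (hrw : r ∈ (g (Xp D.a (p0.t.length - 1) r k (m + 1))).v w) :
    w < D.a (pt r (p0.t.length - 1 + m)) k := by
  have hN := S.hN
  have h0 := p0.stem.pos
  have hj : p0.t.length - 1 + m < r.t.length := by omega
  obtain ⟨f, hf1, hf2, hf3⟩ := drop_eq hj
  have hst := r.stem.take (n := p0.t.length - 1 + m + 1) (by omega)
  rw [hf3] at hst
  have hltp : pt r (p0.t.length - 1 + m) < pt r (p0.t.length - 1 + m + 1) := pt_lt (by omega) hm'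
  -- later points
  have hgen : ∀ y ∈ AA S D, pt r (p0.t.length - 1 + m + 1) ≤ y →
      y ∈ Ab (Xp D.a (p0.t.length - 1) r k (m + 1)) (suc w) := by
    intro y hy hle
    rw [Xp_succ]
    refine Ab_of S D hy (hltp.trans_le hle) (Xp_bd S D hr hy fun i hi =>
      (pt_lt (show p0.t.length - 1 + i < p0.t.length - 1 + m + 1 by omega) hm').trans_le hle) ?_
    exact (S.good y (AA_B S D hy)).lim w (hw.trans_le hle)
  have hA : D.A i ∩ Ab (Xp D.a (p0.t.length - 1) r k (m + 1)) (suc w) ∈ U :=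
    Filter.inter_mem (D.hs i).memU (Ab_mem hN _ _)
  have hle : r ≤ mkC S _ hst _ hA (D.T i).c.c (D.T i).c.col := by
    refine (le_mkC S).2 ⟨?_, ?_, fun y hy => ?_, fun y hy => ?_⟩
    · have h1 : (r.t.take (p0.t.length - 1 + m) ++ [(pt r (p0.t.length - 1 + m), f)]).length =
          p0.t.length - 1 + m + 1 := by
        rw [← hf3, List.length_take]
        omega
      rw [h1, hf3]
      exact Rf.refl _
    · intro a ha
      have h1 : (r.t.take (p0.t.length - 1 + m) ++ [(pt r (p0.t.length - 1 + m), f)]).length =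
          p0.t.length - 1 + m + 1 := by
        rw [← hf3, List.length_take]
        omega
      rw [h1] at ha
      obtain ⟨h3, h4⟩ := drop_AA S D hr (by omega) ha
      have h5 : pt r (p0.t.length - 1 + m + 1) ≤ a.1 := by
        obtain ⟨f', _, hf2', _⟩ := drop_eq hm'
        rw [hf2'] at ha
        rcases List.mem_cons.1 ha with rfl | ha
        · exact le_rfl
        · exact (drop_gt hm' ha).le
      exact ⟨⟨(D.hs i).sub' (h3.1 i), hgen _ h3 h5⟩, (le_cc S D h3 i 0).trans h4⟩
    · obtain ⟨h3, h4⟩ := A_AA S D hr hy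
      have h5 : pt r (p0.t.length - 1 + m + 1) < y := by
        have := (r.above _ (List.getElem_mem hm') y hy).1
        rwa [← pt_eq hm'] at this
      exact ⟨(D.hs i).sub' (h3.1 i), hgen _ h3 h5.le⟩
    · obtain ⟨h3, h4⟩ := A_AA S D hr hy
      exact (le_cc S D h3 i 0).trans h4
  have hlt : w < suc w := lt_suc hN w
  have h2 := key_fc S (D.hs i).key (x := (⟨g, hg⟩, Xp D.a (p0.t.length - 1) r k (m + 1), suc w))
    (A' := D.A i ∩ Ab (Xp D.a (p0.t.length - 1) r k (m + 1)) (suc w)) (hA' := hA)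
    inter_subset_left inter_subset_right hle (w := w) ((ON.trunc_of_lt hlt).2 hrw)
  have h3 := (fc_trunc S hlt).1 h2
  have h1 : (r.t.take (p0.t.length - 1 + m) ++ [(pt r (p0.t.length - 1 + m), f)]).length =
      p0.t.length - 1 + m + 1 := by
    rw [← hf3, List.length_take]
    omega
  rw [h1, hf3] at h3
  have h3' : Fc S (r.t.take (p0.t.length - 1 + m) ++ [(pt r (p0.t.length - 1 + m), f)])
      (D.A i ∩ Ab (Xp D.a (p0.t.length - 1) r k (m + 1)) (suc w)) (D.T i).c
      (g (Xp D.a (p0.t.length - 1) r k m ++ [blk D.a k (pt r (p0.t.length - 1 + m))])) w := by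
    rw [← Xp_succ]
    exact h3
  refine D.aB i _ k g hg _ (r.t.take (p0.t.length - 1 + m)) w ?_ ?_
    ⟨f, hst.col (_, f) (List.mem_append_right _ (List.mem_singleton.2 rfl)), _, h3'⟩
  · rcases Nat.eq_zero_or_pos m with rfl | hm0
    · intro l hl
      exact absurd hl (by simp [Xp])
    · obtain ⟨δ, hδ, h4⟩ := Xp_bd S D hr (k := k) (m := m)
        (pt_mem S D hr (j := p0.t.length - 1 + m) (by omega) hj) fun i hi => pt_lt (by omega) hj
      exact bdLL_mono h4 hδ.le
  · intro a ha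
    have h4 := stem_last hst a ha
    have h5 : pt r (p0.t.length - 1 + m) ∈ B := by
      rcases hst.mem (pt r (p0.t.length - 1 + m), f)
          (List.mem_append_right _ (List.mem_singleton.2 rfl)) with h6 | h6
      · have h7 : pt r (p0.t.length - 1 + m) = bot := h6
        rw [h7] at h4
        exact absurd h4.1 (not_lt.2 (S.hbot _))
      · exact h6
    refine ⟨h4.1.le, ?_⟩
    rintro ⟨x, i', c⟩ he
    have h6 : x < pt r (p0.t.length - 1 + m) := h4.2 _ he
    obtain ⟨h7, h8⟩ := (hst.col a (List.mem_append_left _ ha)).dom x i' c he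
    exact ⟨h6.le, (h7.trans ((S.good _ h5).nu h4.1)).le, (h8.trans h6).le⟩

end

end Pool.Agent.W2helper53.MS
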