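import Pool.Agent.W2helper53.MS.Tail2

/-!
# The tail theorem: the set closed under the functions
-/

set_option linter.unusedSectionVars false

namespace Pool.Agent.W2helper53.MS

open Cardinal Set Pool.Agent.V11248.Pk Pool.Agent.Helper669.Forcing

section

variable {κ : Cardinal.{0}} {K : Type} [LinearOrder K] [WellFoundedLT K] {U : Ultrafilter K}
  {B : Set K} {bot : K}

theorem forall2_imp_mem {α β : Type} {R R' : α → β → Prop} {l : List α} {u : List β}
    (h : List.Forall₂ R l u) (hR : ∀ a ∈ l, ∀ x, R a x → R' a x) : List.Forall₂ R' l u := by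
  induction h with
  | nil => exact List.Forall₂.nil
  | cons h1 h2 ih =>
    exact List.Forall₂.cons (hR _ (by simp) _ h1) (ih fun a ha => hR a (by simp [ha]))

theorem exists_max {α : Type} (f : α → ℕ) (l : List α) {N : ℕ} (h : ∀ a ∈ l, f a ≤ N) :
    ∃ k ≤ N, ∀ a ∈ l, f a ≤ k := ⟨N, le_rfl, h⟩

theorem exists_ub {α : Type} (f : α → ℕ) (l : List α) : ∃ k, ∀ a ∈ l, f a ≤ k := by
  induction l with
  | nil => exact ⟨0, fun a ha => absurd ha (by simp)⟩
  | cons a l ih =>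
    obtain ⟨k, hk⟩ := ih
    refine ⟨max (f a) k, fun b hb => ?_⟩
    rcases List.mem_cons.1 hb with rfl | hb
    · exact le_max_left _ _
    · exact (hk b hb).trans (le_max_right _ _)

variable (S : Su κ U B bot) {p0 : Cond U B bot} {F : ℕ → List K → K → Set (Cond U B bot)}
  {hF : p0 ∈ IsFun fun x : ℕ × List K => F x.1 x.2} {Ω : Type} [LinearOrder Ω]
  (D : Ch S p0 F hF Ω)

include S D

/-- the name of the set closed under the functions -/
def NN (w : K) : Set (Cond U B bot) := {p | ∃ i, ∃ g ∈ D.Z i, ∃ k m,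
  p0.t.length - 1 + m ≤ p.t.length ∧ p ∈ (g (Xp D.a (p0.t.length - 1) p k m)).v w}

theorem NN_down (w : K) : Down (NN S D w) := by
  rintro p ⟨i, g, hg, k, m, hm, h⟩ q hq
  refine ⟨i, g, hg, k, m, hm.trans (length_le hq), ?_⟩
  rw [Xp_le hq hm]
  exact ON.down _ _ _ h _ hq

theorem Z_mono {i j : Ω} (h : i ≤ j) : D.Z i ⊆ D.Z j := by
  rcases eq_or_lt_of_le h with rfl | h
  · exact Subset.rfl
  · exact fun g hg => D.ltZ i j h (Or.inl hg)

variable {hΩ : #Ω < κ} {hΩB : ∀ y ∈ B, #Ω < sz y}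

theorem qq_le [Nonempty Ω] : qq S D hΩ hΩB ≤ p0 := by
  obtain ⟨i⟩ := ‹Nonempty Ω›
  refine ⟨?_, ?_, fun y hy => hy.1.2.2.2.1,
    fun y hy => (hy.1.2.2.1 i).trans (le_cc S D hy.1 i 0)⟩
  · change Rf (p0.t.take p0.t.length) p0.t
    rw [List.take_length]
    exact Rf.refl _
  · intro a ha
    change a ∈ p0.t.drop p0.t.length at ha
    simp at ha

variable {r : Cond U B bot}

theorem NN_args [Nonempty Ω] (ws : List K) (h : ∀ u ∈ ws, r ∈ NN S D u) :
    ∃ i, ∃ args : List (Nm U B bot × ℕ × ℕ), (∀ a ∈ args, a.1 ∈ D.Z i ∧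
      p0.t.length - 1 + a.2.2 ≤ r.t.length) ∧
      List.Forall₂ (fun a u => r ∈ (a.1 (Xp D.a (p0.t.length - 1) r a.2.1 a.2.2)).v u)
        args ws := by
  induction ws with
  | nil => exact ⟨Classical.arbitrary Ω, [], fun a ha => absurd ha (by simp), List.Forall₂.nil⟩
  | cons u ws ih =>
    obtain ⟨i, args, h1, h2⟩ := ih fun u hu => h u (by simp [hu])
    obtain ⟨j, g, hg, k, m, hm, h3⟩ := h u (by simp)
    refine ⟨max i j, (g, k, m) :: args, fun a ha => ?_, List.Forall₂.cons h3 h2⟩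
    rcases List.mem_cons.1 ha with rfl | ha
    · exact ⟨Z_mono S D (le_max_right _ _) hg, hm⟩
    · exact ⟨Z_mono S D (le_max_left _ _) (h1 a ha).1, (h1 a ha).2⟩

variable (hr : r ≤ qq S D hΩ hΩB)

include hr

theorem NN_closed [Nonempty Ω] [NoMaxOrder Ω] (e : ℕ) (ws : List K) (w : K)
    (h : ∀ u ∈ ws, r ∈ NN S D u) (hw : r ∈ meets (F e ws w)) : r ∈ NN S D w := by
  obtain ⟨i, args, h1, h2⟩ := NN_args S D ws h
  obtain ⟨j, hj⟩ := exists_gt i
  obtain ⟨k, hk⟩ := exists_ub (fun a : Nm U B bot × ℕ × ℕ => a.2.1) args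
  have hl := len_le S D hr
  have h0 := p0.stem.pos
  obtain ⟨m, hm, hm'⟩ := exists_max (fun a : Nm U B bot × ℕ × ℕ => a.2.2) args
    (N := r.t.length - (p0.t.length - 1)) fun a ha => by
      have := (h1 a ha).2
      omega
  refine ⟨j, comp F p0 hF e args, D.ltZ i j hj (Or.inr (Or.inl ⟨(e, args.pmap
    (fun a ha => (⟨a.1, ha⟩, a.2.1, a.2.2)) fun a ha => (h1 a ha).1), ?_⟩)), k, m, by omega, ?_⟩
  · have h3 : ((args.pmap (fun a (ha : a.1 ∈ D.Z i) => ((⟨a.1, ha⟩ : D.Z i), a.2.1, a.2.2))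
        fun a ha => (h1 a ha).1).map fun a => (a.1.1, a.2.1, a.2.2)) = args := by
      rw [List.map_pmap]
      simp
    change comp F p0 hF e _ = _
    rw [h3]
  · refine meets_of_mem ⟨hr.trans (qq_le S D), ws, ?_, hw⟩
    refine forall2_imp_mem h2 fun a ha u hu => ?_
    rw [cut_Xp (hk a ha) (hm' a ha)]
    exact hu

theorem NN_norm [Nonempty Ω] [NoMaxOrder Ω] {j : ℕ} (hj : p0.t.length - 1 + (j + 1) < r.t.length)
    {w : K} (hw : w < pt r (p0.t.length - 1 + (j + 1))) (h : r ∈ NN S D w) :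
    ∃ i, ∃ g ∈ D.Z i, ∃ k, r ∈ (g (Xp D.a (p0.t.length - 1) r k (j + 1))).v w := by
  obtain ⟨i, g, hg, k, m, hm, h⟩ := h
  induction m generalizing i g with
  | zero =>
    obtain ⟨i', hi'⟩ := exists_gt i
    refine ⟨i', _, D.ltZ i i' hi' (Or.inr (Or.inr (Or.inr (Or.inr (Or.inr
      ⟨(⟨g, hg⟩, k, 0), rfl⟩))))), k, ?_⟩
    change r ∈ (g (cut k 0 (Xp D.a (p0.t.length - 1) r k (j + 1)))).v w
    rw [cut_Xp le_rfl (by omega)]
    exact h
  | succ m ih =>
    obtain ⟨i', hi'⟩ := exists_gt i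
    by_cases hmj : m + 1 ≤ j + 1
    · refine ⟨i', _, D.ltZ i i' hi' (Or.inr (Or.inr (Or.inr (Or.inr (Or.inr
        ⟨(⟨g, hg⟩, k, m + 1), rfl⟩))))), k, ?_⟩
      change r ∈ (g (cut k (m + 1) (Xp D.a (p0.t.length - 1) r k (j + 1)))).v w
      rw [cut_Xp le_rfl hmj]
      exact h
    · refine ih i' _ (D.ltZ i i' hi' (Or.inr (Or.inr (Or.inl ⟨(⟨g, hg⟩, k), rfl⟩)))) (by omega) ?_
      refine star S D hr hg (by omega) (by omega) (hw.trans_le ?_) h
      rcases Nat.lt_or_ge (j + 1) m with h1 | h1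
      · exact (pt_lt (by omega) (by omega)).le
      · have h2 : m = j + 1 := by omega
        rw [h2]

/-- the virtual points are in the set -/
theorem NN_a {j : ℕ} (hj : p0.t.length - 1 + j < r.t.length) (i : Ω) (k : ℕ) :
    r ∈ NN S D (D.a (pt r (p0.t.length - 1 + j)) k) := by
  refine ⟨i, _, D.prj i j k, k + 1, j + 1, by omega, ?_⟩
  change D.a _ k = ((Xp D.a (p0.t.length - 1) r (k + 1) (j + 1)).getD j []).getD k bot
  have h1 : (Xp D.a (p0.t.length - 1) r (k + 1) (j + 1)).getD j [] =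
      blk D.a (k + 1) (pt r (p0.t.length - 1 + j)) := by
    rw [Xp_succ, List.getD_append_right _ _ _ _ (by rw [Xp_length]), Xp_length]
    simp
  rw [h1]
  unfold blk
  rw [List.getD_eq_getElem _ _ (by simp)]
  simp

theorem NN_eta [NoMaxOrder Ω] {j : ℕ} (hj : p0.t.length - 1 + j < r.t.length) (i : Ω)
    {v : K → K} (hv : v = D.h i ∨ v = D.h' i) {i' : Ω} (hi : i < i') :
    (eta v (p0.t.length - 1 + j) : Nm U B bot) ∈ D.Z i' ∧ ∀ X,
      r ∈ ((eta v (p0.t.length - 1 + j) : Nm U B bot) X).v (v (pt r (p0.t.length - 1 + j))) := by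
  refine ⟨?_, fun X => ?_⟩
  · rcases hv with rfl | rfl
    · exact D.ltZ i i' hi (Or.inr (Or.inr (Or.inr (Or.inl ⟨_, rfl⟩))))
    · exact D.ltZ i i' hi (Or.inr (Or.inr (Or.inr (Or.inr (Or.inl ⟨_, rfl⟩)))))
  · exact meets_of_mem ⟨hj, rfl⟩

/-- the cofinality of the set below the points of the stem -/
theorem cof_top [Nonempty Ω] [NoMaxOrder Ω] {j : ℕ}
    (hj : p0.t.length - 1 + (j + 1) < r.t.length) :
    (∀ k, r ∈ NN S D (D.a (pt r (p0.t.length - 1 + j)) k) ∧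
      D.a (pt r (p0.t.length - 1 + j)) k < pt r (p0.t.length - 1 + (j + 1))) ∧
    ∀ w < pt r (p0.t.length - 1 + (j + 1)), r ∈ NN S D w →
      ∃ k, w < D.a (pt r (p0.t.length - 1 + j)) k := by
  have h0 := p0.stem.pos
  refine ⟨fun k => ⟨NN_a S D hr (by omega) (Classical.arbitrary Ω) k, ?_⟩, fun w hw h => ?_⟩
  · exact (pt_mem S D hr (by omega) hj).2.2.2.2 _ (pt_lt (by omega) hj) k
  · obtain ⟨i, g, hg, k, h1⟩ := NN_norm S D hr hj hw h
    exact ⟨k, top S D hr hg hj hw h1⟩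

/-- the cofinality of the set below the successors of the points of the stem -/
theorem cof_suc [Nonempty Ω] [NoMaxOrder Ω] {j : ℕ} (hj0 : 1 ≤ j)
    (hj : p0.t.length - 1 + (j + 1) < r.t.length) :
    ((∀ i, r ∈ NN S D (D.h i (pt r (p0.t.length - 1 + j))) ∧
        D.h i (pt r (p0.t.length - 1 + j)) < suc (pt r (p0.t.length - 1 + j))) ∧
      (∀ i i', i < i' → D.h i (pt r (p0.t.length - 1 + j)) <
        D.h i' (pt r (p0.t.length - 1 + j))) ∧
      ∀ w < suc (pt r (p0.t.length - 1 + j)), r ∈ NN S D w →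
        ∃ i, w < D.h i (pt r (p0.t.length - 1 + j))) ∧
    ((∀ i, r ∈ NN S D (D.h' i (pt r (p0.t.length - 1 + j))) ∧
        D.h' i (pt r (p0.t.length - 1 + j)) < nu (pt r (p0.t.length - 1 + j))) ∧
      (∀ i i', i < i' → D.h' i (pt r (p0.t.length - 1 + j)) <
        D.h' i' (pt r (p0.t.length - 1 + j))) ∧
      ∀ w < nu (pt r (p0.t.length - 1 + j)), r ∈ NN S D w →
        ∃ i, w < D.h' i (pt r (p0.t.length - 1 + j))) := by
  have h0 := p0.stem.pos
  have hα := pt_mem S D hr (j := p0.t.length - 1 + j) (by omega) (by omega)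
  have hα1 := pt_mem S D hr (j := p0.t.length - 1 + (j + 1)) (by omega) (by omega)
  have hlt : nu (pt r (p0.t.length - 1 + j)) < pt r (p0.t.length - 1 + (j + 1)) :=
    (S.good _ (AA_B S D hα1)).nu (pt_lt (by omega) hj)
  have hb : ∀ i, _ := fun i => (D.hs i).bnd _ (hα.1 i)
  have hin : ∀ (i : Ω) {v : K → K}, (v = D.h i ∨ v = D.h' i) →
      r ∈ NN S D (v (pt r (p0.t.length - 1 + j))) := by
    intro i v hv
    obtain ⟨i', hi'⟩ := exists_gt i
    obtain ⟨h1, h2⟩ := NN_eta S D hr (j := j) (by omega) i hv hi'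
    exact ⟨i', _, h1, 0, 0, by omega, h2 _⟩
  refine ⟨⟨fun i => ⟨hin i (Or.inl rfl), (hb i).1⟩, fun i i' hi => ?_, fun w hw h => ?_⟩,
    ⟨fun i => ⟨hin i (Or.inr rfl), (hb i).2.1⟩, fun i i' hi => ?_, fun w hw h => ?_⟩⟩
  · obtain ⟨h1, h2⟩ := NN_eta S D hr (j := j) (by omega) i (Or.inl rfl) hi
    exact (bndm S D hr h1 (k := 0) hj0 (by omega) (h2 _)).1 (hb i).1
  · obtain ⟨i, g, hg, k, h1⟩ := NN_norm S D hr hj
      (hw.trans ((lt_suc S.hN _).trans hlt)) h
    exact ⟨i, (bndm S D hr hg hj0 (by omega) h1).1 hw⟩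
  · obtain ⟨h1, h2⟩ := NN_eta S D hr (j := j) (by omega) i (Or.inr rfl) hi
    exact (bndm S D hr h1 (k := 0) hj0 (by omega) (h2 _)).2 (hb i).2.1
  · obtain ⟨i, g, hg, k, h1⟩ := NN_norm S D hr hj (hw.trans hlt) h
    exact ⟨i, (bndm S D hr hg hj0 (by omega) h1).2 hw⟩

end

end Pool.Agent.W2helper53.MS
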