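import Pool.Agent.W2helper53.MS.Chain

/-!
# Deciding few names by the lower part of the stem
-/

set_option linter.unusedSectionVars false

namespace Pool.Agent.W2helper53.MS

open Cardinal Set Pool.Agent.V11248.Pk Pool.Agent.Helper669.Forcing

section

variable {κ : Cardinal.{0}} {K : Type} [LinearOrder K] [WellFoundedLT K] {U : Ultrafilter K}
  {B : Set K} {bot : K}

/-- the list `u` with the conditions given by `g` -/
def rep (u : St K) (g : K → C K) : St K := u.map fun a => (a.1, g a.1)

theorem exists_rep {u : St K} (hu : u.Pairwise fun a b => a.1 < b.1) (g0 : K → C K) :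
    ∃ g : K → C K, (∀ a ∈ u, g a.1 = a.2) ∧ ∀ y, (∀ a ∈ u, a.1 ≠ y) → g y = g0 y := by
  classical
  induction u with
  | nil => exact ⟨g0, fun a ha => absurd ha (by simp), fun _ _ => rfl⟩
  | cons a u ih =>
    rw [List.pairwise_cons] at hu
    obtain ⟨g, h1, h2⟩ := ih hu.2
    refine ⟨Function.update g a.1 a.2, fun b hb => ?_, fun y hy => ?_⟩
    · rcases List.mem_cons.1 hb with rfl | hb
      · exact Function.update_self _ _ _
      · rw [Function.update_of_ne (hu.1 b hb).ne', h1 b hb]
    · rw [Function.update_of_ne (fun h => hy a (by simp) h.symm)]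
      exact h2 y fun b hb => hy b (by simp [hb])

theorem rep_self {u : St K} {g : K → C K} (h : ∀ a ∈ u, g a.1 = a.2) : rep u g = u := by
  unfold rep
  conv_rhs => rw [← List.map_id u]
  exact List.map_congr_left fun a ha => Prod.ext rfl (h a ha)

theorem rep_rf {u v : St K} (h : Rf v u) (g : K → C K) : rep v g = rep u g := by
  unfold Rf at h
  induction h with
  | nil => rfl
  | cons h1 h2 ih =>
    unfold rep at ih ⊢
    rw [List.map_cons, List.map_cons, ih, h1.1]

theorem rf_rep {u : St K} {g g' : K → C K} (h : ∀ a ∈ u, g a.1 ⊆ g' a.1) :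
    Rf (rep u g') (rep u g) := by
  induction u with
  | nil => exact List.Forall₂.nil
  | cons a u ih =>
    exact List.Forall₂.cons ⟨rfl, h a (by simp)⟩ (ih fun b hb => h b (by simp [hb]))

theorem IsStem.lt_pw {t : St K} (h : IsStem B bot t) : t.Pairwise fun a b => a.1 < b.1 :=
  h.pw.imp fun h => h.1

theorem isStem_rep {l u : St K} {g g' : K → C K} (h : IsStem B bot (l ++ rep u g))
    (h1 : ∀ y, IsCol (nu y) (g' y)) (h2 : u.Pairwise fun a b => Rel (a.1, g' a.1) b.1) :
    IsStem B bot (l ++ rep u g') := by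
  refine ⟨?_, ?_, ?_, ?_⟩
  · obtain ⟨f, t', h3⟩ := h.head
    cases l with
    | nil =>
      cases u with
      | nil => simp [rep] at h3
      | cons a u =>
        simp only [rep, List.nil_append, List.map_cons, List.cons.injEq, Prod.mk.injEq] at h3
        exact ⟨g' bot, rep u g', by simp [rep, h3.1.1]⟩
    | cons a l =>
      simp only [List.cons_append, List.cons.injEq] at h3
      exact ⟨f, l ++ rep u g', by rw [← h3.1]; simp⟩
  · intro a ha
    rcases List.mem_append.1 ha with ha | ha
    · exact h.mem a (List.mem_append_left _ ha)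
    · obtain ⟨b, hb, rfl⟩ := List.mem_map.1 ha
      exact h.mem (b.1, g b.1) (List.mem_append_right _ (List.mem_map.2 ⟨b, hb, rfl⟩))
  · have h3 := h.pw
    rw [List.pairwise_append] at h3 ⊢
    refine ⟨h3.1, List.pairwise_map.2 h2, fun a ha b hb => ?_⟩
    obtain ⟨b', hb', rfl⟩ := List.mem_map.1 hb
    exact h3.2.2 a ha (b'.1, g b'.1) (List.mem_map.2 ⟨b', hb', rfl⟩)
  · intro a ha
    rcases List.mem_append.1 ha with ha | ha
    · exact h.col a (List.mem_append_left _ ha)
    · obtain ⟨b, hb, rfl⟩ := List.mem_map.1 ha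
      exact h1 b.1

/-- the conditions for the points of `u`, which are at least `α` -/
structure Qu (u : St K) (α : K) where
  g : K → C K
  col : ∀ y, IsCol (nu y) (g y)
  pw : u.Pairwise fun a b => Rel (a.1, g a.1) b.1

instance (u : St K) (α : K) : Preorder (Qu u α) where
  le g' g := ∀ y, α ≤ y → g.g y ⊆ g'.g y
  le_refl _ _ _ := Subset.rfl
  le_trans _ _ _ h h' y hy := Subset.trans (h' y hy) (h y hy)

theorem closedQu (hN : Normal κ U) {u : St K} {α : K} (hu : ∀ a ∈ u, α ≤ a.1) :
    Closed (sz (suc α)) (Qu u α) := by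
  classical
  intro I _ _ f hI hne hf
  refine ⟨⟨fun y => if α ≤ y then ⋃ i, (f i).g y else ∅, fun y => ?_, ?_⟩, fun i y hy => ?_⟩
  · split_ifs with h
    · refine isCol_iUnion hN (hI.trans_lt ((sz_lt_suc hN _).trans_le (sz_mono (nu_mono hN h))))
        (fun i => (f i).col y) fun i j => ?_
      rcases le_total i j with h' | h'
      · exact ⟨j, hf i j h' y h, Subset.rfl⟩
      · exact ⟨i, Subset.rfl, hf j i h' y h⟩
    · exact isCol_empty hN y
  · rw [List.pairwise_iff_getElem]
    intro i j hi hj hij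
    have h1 : ∀ k, Rel ((u[i]).1, (f k).g (u[i]).1) (u[j]).1 := fun k =>
      (List.pairwise_iff_getElem.1 (f k).pw) i j hi hj hij
    obtain ⟨k⟩ := hne
    refine ⟨(h1 k).1, ?_⟩
    change Bel (if α ≤ (u[i]).1 then ⋃ i', (f i').g (u[i]).1 else ∅) _
    rw [if_pos (hu _ (List.getElem_mem hi))]
    intro e he
    obtain ⟨k, hk⟩ := mem_iUnion.1 he
    exact (h1 k).2 e hk
  · change (f i).g y ⊆ if α ≤ y then ⋃ i, (f i).g y else ∅
    rw [if_pos hy]
    exact subset_iUnion (fun i => (f i).g y) i

/-- the lower parts of the stems of conditions below `p` -/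
def Low (p : Cond U B bot) (j : ℕ) (l : St K) : Prop :=
  Rf l (p.t.take j) ∧ (∀ a ∈ l, IsCol (nu a.1) a.2) ∧ ∀ a ∈ l, Rel a (pt p j)

variable (S : Su κ U B bot)

include S

theorem pt_B {p : Cond U B bot} {j : ℕ} (h0 : 1 ≤ j) (hj : j < p.t.length) : pt p j ∈ B := by
  have h1 := p.stem.pt_ne (n := j) (by omega) (a := p.t[j]) (by
    rw [List.drop_eq_getElem_cons hj]
    exact List.mem_cons_self)
  rw [pt_eq hj]
  exact h1.1

theorem pt_zero (p : Cond U B bot) : pt p 0 = bot := by
  obtain ⟨f, t', h⟩ := p.stem.head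
  unfold pt
  rw [h]
  rfl

theorem mk_low {p : Cond U B bot} {j : ℕ} (h0 : 1 ≤ j) (hj : j < p.t.length) :
    #{l : St K // Low p j l} ≤ sz (pt p j) := by
  refine le_trans ?_ (S.good _ (pt_B S h0 hj)).cnt
  refine mk_le_of_injective (f := fun l => ⟨l.1, Good.exists_bd (S.good _ (pt_B S h0 hj))
    l.2.2.1 l.2.2.2⟩) fun l l' h => Subtype.ext (Subtype.mk.inj h)

theorem mk_low_zero (p : Cond U B bot) : #{l : St K // Low p 0 l} ≤ 1 := by
  rw [le_one_iff_subsingleton]
  refine ⟨fun l l' => Subtype.ext ?_⟩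
  have h : ∀ l : {l : St K // Low p 0 l}, l.1 = [] := by
    intro l
    have := l.2.1
    unfold Rf at this
    rw [List.take_zero, List.forall₂_nil_right_iff] at this
    exact this
  rw [h l, h l']

theorem mk_low_suc {p : Cond U B bot} {j : ℕ} (hj : j < p.t.length) :
    #{l : St K // Low p j l} ≤ sz (suc (pt p j)) := by
  rcases Nat.eq_zero_or_pos j with rfl | h0
  · exact (mk_low_zero S p).trans (one_le_aleph0.trans (inf_suc S.hN _))
  · exact (mk_low S h0 hj).trans (sz_lt_suc S.hN _).le

theorem upper (p : Cond U B bot) {j : ℕ} (hj : j < p.t.length) {T : Type}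
    (hT : #T ≤ sz (suc (pt p j))) (D : T → ON (Cond U B bot) K)
    (hcol : ∀ x, ∃ δ, ∀ w p, p ∈ (D x).v w → w < δ) :
    ∃ (u : St K) (A : Set K) (c : Up U), ∃ q ≤ p, q.t = p.t.take j ++ u ∧ u.length =
      p.t.length - j ∧ ∀ x w, ∀ r ≤ q, r ∈ (D x).v w →
        Low p j (r.t.take j) ∧ Fc S (r.t.take j ++ u) A c (D x) w := by
  classical
  have hN := S.hN
  obtain ⟨c, hc, A1, hA1, hk⟩ := key S (bd := fun _ _ => True) (fun _ _ _ _ _ => trivial)
    (fun δ => by
      refine (mk_subtype_le _).trans_lt (hT.trans_lt (hN.small _))) D hcol ⟨p.c, p.col⟩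
  have hA : p.A ∩ (A1 ∩ ({y | p.c y ⊆ c.c y} ∩ {y | pt p j < y})) ∈ U :=
    Filter.inter_mem p.memU (Filter.inter_mem hA1 (Filter.inter_mem hc (hN.tail _)))
  set A := p.A ∩ (A1 ∩ ({y | p.c y ⊆ c.c y} ∩ {y | pt p j < y})) with hAdef
  have hup : ∀ a ∈ p.t.drop j, pt p j ≤ a.1 := by
    intro a ha
    rw [List.drop_eq_getElem_cons hj] at ha
    have h2 := p.stem.pw.sublist (List.drop_sublist j _)
    rw [List.drop_eq_getElem_cons hj, List.pairwise_cons] at h2
    rcases List.mem_cons.1 ha with rfl | ha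
    · rw [pt_eq hj]
    · rw [pt_eq hj]
      exact (h2.1 a ha).1.le
  obtain ⟨g0, hg0, hg0'⟩ := exists_rep (p.stem.lt_pw.sublist (List.drop_sublist j _))
    (fun _ => ∅)
  have hg0c : ∀ y, IsCol (nu y) (g0 y) := by
    intro y
    by_cases hy : ∀ a ∈ p.t.drop j, a.1 ≠ y
    · rw [hg0' y hy]
      exact isCol_empty hN y
    · push Not at hy
      obtain ⟨a, ha, rfl⟩ := hy
      rw [hg0 a ha]
      exact p.stem.col a (List.mem_of_mem_drop ha)
  have hg0p : (p.t.drop j).Pairwise fun a b => Rel (a.1, g0 a.1) b.1 := by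
    refine (p.stem.pw.sublist (List.drop_sublist j _)).imp_of_mem ?_
    intro a b ha hb hab
    have h1 : (a.1, g0 a.1) = a := Prod.ext rfl (hg0 a ha)
    rw [h1]
    exact hab
  -- the sets to be decided
  let E : T × {l : St K // Low p j l} → Set (Qu (p.t.drop j) (pt p j)) := fun x =>
    {g | ∃ w, Fc S (x.2.1 ++ rep (p.t.drop j) g.g) A c (D x.1) w}
  have hE : ∀ s, ∀ u ∈ E s, ∀ v ≤ u, v ∈ E s := by
    rintro ⟨x, l⟩ g ⟨w, hw⟩ g' hg'
    refine ⟨w, ?_⟩
    obtain ⟨ht, _, _⟩ := id hw
    exact hw.mono S (Rf.append (Rf.refl _) (rf_rep fun a ha => hg' a.1 (hup a ha)))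
      (isStem_rep ht g'.col g'.pw) hA Subset.rfl fun _ _ => Subset.rfl
  obtain ⟨g, hg, hgE⟩ := universal (c := sz (suc (pt p j))) (by
    rw [mk_prod, lift_id, lift_id]
    exact (mul_le_mul' hT (mk_low_suc S hj)).trans (mul_eq_self (inf_suc hN _)).le)
    (closedQu hN hup) E hE ⟨g0, hg0c, hg0p⟩
  have hst : IsStem B bot (p.t.take j ++ rep (p.t.drop j) g.g) := by
    refine isStem_rep (g := g0) ?_ g.col g.pw
    rw [rep_self hg0, List.take_append_drop]
    exact p.stem
  have hlen : (rep (p.t.drop j) g.g).length = p.t.length - j := by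
    unfold rep
    rw [List.length_map, List.length_drop]
  have hlen2 : (p.t.take j ++ rep (p.t.drop j) g.g).length = p.t.length := by
    rw [List.length_append, hlen, List.length_take]
    omega
  refine ⟨rep (p.t.drop j) g.g, A, c, mkC S _ hst A hA c.c c.col, ⟨?_, ?_, ?_, ?_⟩, rfl, hlen, ?_⟩
  · change Rf ((p.t.take j ++ rep (p.t.drop j) g.g).take p.t.length) p.t
    rw [← hlen2, List.take_length]
    have h1 : Rf (rep (p.t.drop j) g.g) (rep (p.t.drop j) g0) :=
      rf_rep fun a ha => hg a.1 (hup a ha)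
    rw [rep_self hg0] at h1
    have h2 := Rf.append (Rf.refl (p.t.take j)) h1
    rwa [List.take_append_drop] at h2
  · intro a ha
    change a ∈ (p.t.take j ++ rep (p.t.drop j) g.g).drop p.t.length at ha
    rw [← hlen2, List.drop_length] at ha
    simp at ha
  · exact fun y hy => hy.1.1
  · exact fun y hy => hy.1.2.2.1
  · intro x w r hr hw
    have hk1 := hk x (mkC S _ hst A hA c.c c.col) (fun y hy => ⟨hy.1.2.1, ⟨pt p j, hy.1.2.2.2,
      trivial⟩, Subset.rfl⟩) r hr w hw
    obtain ⟨h1, h2, h3, h4⟩ := (le_mkC S).1 hr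
    rw [hlen2] at h1 h2
    have h5 := h1.take j
    rw [List.take_take, List.take_append_of_le_length (by rw [List.length_take]; omega),
      List.take_take, min_self, min_eq_left hj.le] at h5
    have h6 := h1.drop j
    rw [List.drop_append_of_le_length (by rw [List.length_take]; omega), List.drop_take,
      List.drop_eq_nil_of_le (as := p.t.take j) (by rw [List.length_take]; omega),
      List.nil_append] at h6
    have hlr := length_le hr
    have hlr' : p.t.length ≤ r.t.length := by
      have h7 : (mkC S _ hst A hA c.c c.col).t.length = p.t.length := hlen2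
      omega
    -- the middle part of the stem of r
    obtain ⟨g', hg1, hg2⟩ := exists_rep (u := (r.t.drop j).take (p.t.length - j))
      (r.stem.lt_pw.sublist ((List.take_sublist _ _).trans (List.drop_sublist _ _))) g.g
    have hmem : ∀ a ∈ (r.t.drop j).take (p.t.length - j), a ∈ r.t := fun a ha =>
      List.mem_of_mem_drop (List.mem_of_mem_take ha)
    have hg'c : ∀ y, IsCol (nu y) (g' y) := by
      intro y
      by_cases hy : ∀ a ∈ (r.t.drop j).take (p.t.length - j), a.1 ≠ y
      · rw [hg2 y hy]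
        exact g.col y
      · push Not at hy
        obtain ⟨a, ha, rfl⟩ := hy
        rw [hg1 a ha]
        exact r.stem.col a (hmem a ha)
    have hrep : (r.t.drop j).take (p.t.length - j) = rep (p.t.drop j) g' := by
      have h7 := rep_rf h6 g'
      rw [rep_self hg1] at h7
      rw [h7]
      unfold rep
      rw [List.map_map]
      rfl
    have hg'p : (p.t.drop j).Pairwise fun a b => Rel (a.1, g' a.1) b.1 := by
      have h7 := r.stem.pw.sublist ((List.take_sublist (p.t.length - j) _).trans
        (List.drop_sublist j _))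
      rw [hrep] at h7
      unfold rep at h7
      rw [List.pairwise_map] at h7
      exact h7
    have hg'g : (⟨g', hg'c, hg'p⟩ : Qu (p.t.drop j) (pt p j)) ≤ g := by
      intro y hy
      change g.g y ⊆ g' y
      by_cases hy' : ∀ a ∈ (r.t.drop j).take (p.t.length - j), a.1 ≠ y
      · rw [hg2 y hy']
      · push Not at hy'
        obtain ⟨a, ha, rfl⟩ := hy'
        rw [hg1 a ha]
        obtain ⟨b, hb, hb'⟩ := h6.mem' ha
        obtain ⟨b', _, rfl⟩ := List.mem_map.1 hb
        rw [hb'.1]
        exact hb'.2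
    have hpt : pt r j = pt p j := by
      have h7 := pt_le hr (m := j) (by
        change j < (p.t.take j ++ rep (p.t.drop j) g.g).length
        omega)
      rw [h7]
      unfold pt
      change ((p.t.take j ++ rep (p.t.drop j) g.g).getD j (bot, ∅)).1 = _
      rw [List.getD_append_right _ _ _ _ (by rw [List.length_take]; omega), List.length_take,
        min_eq_left hj.le, Nat.sub_self, List.getD_eq_getElem _ _ (by omega),
        List.getD_eq_getElem _ _ hj]
      unfold rep
      simp
    have hlow : Low p j (r.t.take j) := by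
      refine ⟨h5, fun a ha => r.stem.col a (List.mem_of_mem_take ha), fun a ha => ?_⟩
      have h7 := r.stem.pw
      rw [← List.take_append_drop j r.t, List.pairwise_append] at h7
      have h8 := h7.2.2 a ha (r.t[j]) (by
        rw [List.drop_eq_getElem_cons (show j < r.t.length by omega)]
        exact List.mem_cons_self)
      rwa [← pt_eq (by omega), hpt] at h8
    have hrt : r.t.take p.t.length = r.t.take j ++ rep (p.t.drop j) g' := by
      have h7 := List.take_append_drop j (r.t.take p.t.length)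
      rw [List.take_take, min_eq_left hj.le, List.drop_take, hrep] at h7
      exact h7.symm
    have hFc : Fc S (r.t.take j ++ rep (p.t.drop j) g') A c (D x) w := by
      have hst' : IsStem B bot (r.t.take j ++ rep (p.t.drop j) g') := by
        rw [← hrt]
        exact r.stem.take p.stem.pos
      refine ⟨hst', hA, (D x).down w _ hk1 _ ?_⟩
      refine mkC_le S ?_ (fun y hy hyB hyr => ⟨hy, hyB, ?_⟩) fun _ _ _ _ => Subset.rfl
      · rw [← hrt]
        change Rf _ (r.t.take (p.t.take j ++ rep (p.t.drop j) g.g).length)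
        rw [hlen2]
        exact Rf.refl _
      · intro a ha
        rw [← hrt] at hyr
        obtain ⟨b, hb, hb'⟩ := h1.mem ha
        exact (hyr b hb).ref hb'
    obtain ⟨w', hw'⟩ := hgE (x, ⟨_, hlow⟩) ⟨⟨g', hg'c, hg'p⟩, hg'g, w, hFc⟩
    refine ⟨hlow, ?_⟩
    obtain ⟨hst', _, _⟩ := id hFc
    have h7 := hw'.mono S (Rf.append (Rf.refl _) (rf_rep (g' := g') fun a ha =>
      hg'g a.1 (hup a ha))) hst' hA Subset.rfl fun _ _ => Subset.rfl
    have h8 := Fc.disj S hFc h7
    rw [h8]
    exact hw'

end

end Pool.Agent.W2helper53.MS
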